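import Pool.Agent.V5helper65.LG.Family3

/-!
# Infinitely many fields
-/

set_option autoImplicit false

namespace Pool.Agent.V5helper65.LG

open Module Finset NumberField Polynomial
open Pool.Agent.H637R2.Leo (Leopoldt)

/-- the characteristic polynomial of an element of a cubic field -/
theorem cubic_eq {K : Type} [Field K] [NumberField K] (hK : finrank ℚ K = 3) (α : K) :
    ∃ s₁ s₂ : ℚ, α ^ 3 - (s₁ : K) * α ^ 2 + (s₂ : K) * α - ((Algebra.norm ℚ α : ℚ) : K) = 0 := by
  set f : K →ₗ[ℚ] K := Algebra.lmul ℚ K α with hf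
  have h1 : f.charpoly.Monic := f.charpoly_monic
  have h2 : f.charpoly.natDegree = 3 := by rw [LinearMap.charpoly_natDegree, hK]
  have h3 : aeval f f.charpoly = 0 := f.aeval_self_charpoly
  have h4 : f.charpoly.coeff 0 = - Algebra.norm ℚ α := by
    have h5 := LinearMap.det_eq_sign_charpoly_coeff f
    rw [hK] at h5
    rw [Algebra.norm_apply, ← hf]
    change LinearMap.det f = _ at h5
    rw [h5]
    ring
  have h5 : f.charpoly.coeff 3 = 1 := by
    have := h1.coeff_natDegree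
    rwa [h2] at this
  refine ⟨- f.charpoly.coeff 2, f.charpoly.coeff 1, ?_⟩
  have h6 : aeval α f.charpoly = 0 := by
    have h7 : aeval f f.charpoly = Algebra.lmul ℚ K (aeval α f.charpoly) := by
      rw [hf]; exact aeval_algHom_apply _ _ _
    rw [h7] at h3
    have h8 := congrArg (fun g : K →ₗ[ℚ] K => g 1) h3
    simpa using h8
  rw [aeval_eq_sum_range, h2] at h6
  simp only [Finset.sum_range_succ, Finset.sum_range_zero, pow_zero, pow_one, h4, h5, one_smul,
    zero_add] at h6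
  rw [Algebra.smul_def, Algebra.smul_def, Algebra.smul_def] at h6
  simp only [eq_ratCast] at h6
  push_cast at h6 ⊢
  linear_combination h6

/-- elements which are not totally positive with square norms -/
theorem exists_alpha {K : Type} [Field K] [NumberField K] [IsTotallyReal K] (hK : finrank ℚ K = 3) :
    ∃ (α : K) (s₁ s₂ w : ℚ), (∀ r : ℚ, α ≠ (r : K)) ∧
      α ^ 3 - (s₁ : K) * α ^ 2 + (s₂ : K) * α - (w : K) ^ 2 = 0 ∧
      ∃ τ : K →+* ℂ, (τ α).re < 0 := by
  classical
  have hreal : ∀ (τ : K →+* ℂ) (x : K), ∃ y : ℝ, τ x = (y : ℂ) := by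
    intro τ x
    exact Complex.conj_eq_iff_real.1 ((real_iff τ).1 (IsTotallyReal.complexEmbedding_isReal τ) x)
  obtain ⟨x, hx⟩ := Field.exists_primitive_element ℚ K
  -- two different embeddings
  have hcard : Fintype.card (K →+* ℂ) = 3 := by rw [NumberField.Embeddings.card, hK]
  obtain ⟨τ₁, τ₂, hne⟩ : ∃ τ₁ τ₂ : K →+* ℂ, τ₁ ≠ τ₂ :=
    Fintype.exists_pair_of_one_lt_card (by rw [hcard]; norm_num)
  obtain ⟨y₁, hy₁⟩ := hreal τ₁ x
  obtain ⟨y₂, hy₂⟩ := hreal τ₂ x
  have hy : y₁ ≠ y₂ := by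
    intro h
    apply hne
    have h1 : τ₁ x = τ₂ x := by rw [hy₁, hy₂, h]
    ext z
    have hz : z ∈ IntermediateField.adjoin ℚ {x} := by rw [hx]; trivial
    induction hz using IntermediateField.adjoin_induction with
    | mem z hz =>
      rw [Set.mem_singleton_iff.1 hz]; exact h1
    | algebraMap r => simp
    | add a b _ _ ha hb => rw [map_add, map_add, ha, hb]
    | mul a b _ _ ha hb => rw [map_mul, map_mul, ha, hb]
    | inv a _ ha => rw [map_inv₀, map_inv₀, ha]
  obtain ⟨r, hr⟩ : ∃ r : ℚ, (y₁ < r ∧ (r : ℝ) < y₂) ∨ (y₂ < r ∧ (r : ℝ) < y₁) := by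
    rcases lt_or_gt_of_ne hy with h | h
    · obtain ⟨r, h1, h2⟩ := exists_rat_btwn h
      exact ⟨r, Or.inl ⟨h1, h2⟩⟩
    · obtain ⟨r, h1, h2⟩ := exists_rat_btwn h
      exact ⟨r, Or.inr ⟨h1, h2⟩⟩
  set β : K := x - (r : K) with hβ
  have hβ1 : τ₁ β = ((y₁ - r : ℝ) : ℂ) := by rw [hβ, map_sub, hy₁, map_ratCast]; push_cast; rfl
  have hβ2 : τ₂ β = ((y₂ - r : ℝ) : ℂ) := by rw [hβ, map_sub, hy₂, map_ratCast]; push_cast; rfl
  have hβ0 : β ≠ 0 := by
    intro h0
    rw [h0, map_zero] at hβ1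
    have h1 : y₁ - r = 0 := by exact_mod_cast hβ1.symm
    rcases hr with h | h <;> linarith [h.1, h.2]
  set N : ℚ := Algebra.norm ℚ β with hN
  have hN0 : N ≠ 0 := by
    rw [hN, Ne, Algebra.norm_eq_zero_iff]
    exact hβ0
  set α : K := (N : K) * β with hα
  have hα1 : (τ₁ α).re = N * (y₁ - r) := by
    rw [hα, map_mul, hβ1, map_ratCast, ← Complex.ofReal_ratCast, ← Complex.ofReal_mul,
      Complex.ofReal_re]
  have hα2 : (τ₂ α).re = N * (y₂ - r) := by
    rw [hα, map_mul, hβ2, map_ratCast, ← Complex.ofReal_ratCast, ← Complex.ofReal_mul,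
      Complex.ofReal_re]
  have hnorm : Algebra.norm ℚ α = (N ^ 2) ^ 2 := by
    have h1 : (N : K) = algebraMap ℚ K N := (eq_ratCast _ _).symm
    rw [hα, map_mul, h1, Algebra.norm_algebraMap, hK, ← hN]
    ring
  obtain ⟨s₁, s₂, hs⟩ := cubic_eq hK α
  refine ⟨α, s₁, s₂, N ^ 2, ?_, ?_, ?_⟩
  · intro q hq
    have h1 : ∀ τ : K →+* ℂ, (τ α).re = q := by
      intro τ
      rw [hq, map_ratCast]
      exact Complex.ratCast_re q
    have h2 : (N : ℝ) * (y₁ - r) = N * (y₂ - r) := by rw [← hα1, ← hα2, h1, h1]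
    have h3 : (N : ℝ) ≠ 0 := by exact_mod_cast hN0
    have h4 := mul_left_cancel₀ h3 h2
    apply hy
    linarith
  · rw [hnorm] at hs
    push_cast at hs ⊢
    exact hs
  · rcases lt_or_gt_of_ne hN0 with hneg | hpos
    · have hneg' : (N : ℝ) < 0 := by exact_mod_cast hneg
      rcases hr with h | h
      · exact ⟨τ₂, by rw [hα2]; exact mul_neg_of_neg_of_pos hneg' (by linarith [h.2])⟩
      · exact ⟨τ₁, by rw [hα1]; exact mul_neg_of_neg_of_pos hneg' (by linarith [h.2])⟩
    · have hpos' : (0 : ℝ) < N := by exact_mod_cast hpos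
      rcases hr with h | h
      · exact ⟨τ₁, by rw [hα1]; exact mul_neg_of_pos_of_neg hpos' (by linarith [h.1])⟩
      · exact ⟨τ₂, by rw [hα2]; exact mul_neg_of_pos_of_neg hpos' (by linarith [h.1])⟩

theorem isSplittingField_any (q : ℚ[X]) (inst : Algebra ℚ q.SplittingField) :
    @IsSplittingField ℚ q.SplittingField _ _ inst q := by
  convert IsSplittingField.splittingField q
  exact Subsingleton.elim _ _

/-- **Infinitely many fields with group `S₄`.** -/
theorem exists_s4 (S : Finset ℕ) (hS : ∀ p ∈ S, p.Prime)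
    (ι : Type) [Fintype ι] (L : ι → Type) [∀ i, Field (L i)] [∀ i, NumberField (L i)] :
    ∃ (F : Type) (_ : Field F) (_ : NumberField F), IsTotallyComplex F ∧ IsGalois ℚ F ∧
      Nonempty ((F ≃ₐ[ℚ] F) ≃* Equiv.Perm (Fin 4)) ∧ (∀ i, IsEmpty (F ≃+* L i)) ∧
      ∀ p ∈ S, ∀ [Fact p.Prime], Leopoldt F p := by
  classical
  haveI : ∀ i, Finite (IntermediateField ℚ (L i)) := fun i =>
    Field.finite_intermediateField_of_exists_primitive_element ℚ (L i)
      (Field.exists_primitive_element ℚ (L i))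
  haveI : Fintype (Σ i, IntermediateField ℚ (L i)) := Fintype.ofFinite _
  obtain ⟨K, _, _, hK, _, hKG, hKL, hKp⟩ := Pool.Agent.H637R2.Leo.exists_family 3 (by norm_num) S hS
    (Σ i, IntermediateField ℚ (L i)) (fun m => (m.2 : Type))
  obtain ⟨α, s₁, s₂, w, hα, heq, hneg⟩ := exists_alpha (K := K) hK
  have hnf : NumberField (quartic s₁ s₂ w).SplittingField := ⟨⟩
  have hsf : (quartic s₁ s₂ w).IsSplittingField ℚ (quartic s₁ s₂ w).SplittingField :=
    isSplittingField_any _ _
  obtain ⟨h1, -, h2, ⟨j⟩, h3⟩ := resolvent_main hK α hα s₁ s₂ w heq hneg hsf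
  refine ⟨(quartic s₁ s₂ w).SplittingField, inferInstance, hnf, h1, ?_, h2 (hKG le_rfl), ?_, ?_⟩
  · exact isGalois_of_splitting _ (quartic s₁ s₂ w)
  · intro i
    refine ⟨fun e => ?_⟩
    have := hKL ⟨i, rangeF (e.toRingHom.comp j)⟩
    exact this.false (equivRange (e.toRingHom.comp j)).toRingEquiv
  · intro p hp _
    exact h3 p (hKp p hp)

theorem exists_hom_of_root {K F : Type} [Field K] [NumberField K] [Field F] [NumberField F]
    (x : K) (hx : IntermediateField.adjoin ℚ {x} = ⊤) (u : F) (hu : aeval u (minpoly ℚ x) = 0) :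
    ∃ j : K →+* F, j x = u := by
  have hint : IsIntegral ℚ x := IsAlgebraic.isIntegral (Algebra.IsAlgebraic.isAlgebraic x)
  have hmem : u ∈ (minpoly ℚ x).aroots F := by
    rw [mem_aroots]
    exact ⟨minpoly.ne_zero hint, hu⟩
  set f := (IntermediateField.algHomAdjoinIntegralEquiv ℚ (K := F) hint).symm ⟨u, hmem⟩ with hf
  have hfα : f (IntermediateField.AdjoinSimple.gen ℚ x) = u :=
    IntermediateField.algHomAdjoinIntegralEquiv_symm_apply_gen ℚ hint ⟨u, hmem⟩
  let e : K →+* IntermediateField.adjoin ℚ {x} :=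
    { toFun := fun y => ⟨y, by rw [hx]; trivial⟩
      map_one' := rfl
      map_mul' := fun _ _ => rfl
      map_zero' := rfl
      map_add' := fun _ _ => rfl }
  exact ⟨f.toRingHom.comp e, hfα⟩

/-- the Galois closure -/
theorem exists_closure (K : Type) [Field K] [NumberField K] :
    ∃ (F : Type) (_ : Field F) (_ : NumberField F) (_ : IsGalois ℚ F) (j : K →+* F),
      IsClosure j := by
  obtain ⟨x, hx⟩ := Field.exists_primitive_element ℚ K
  have hint : IsIntegral ℚ x := IsAlgebraic.isIntegral (Algebra.IsAlgebraic.isAlgebraic x)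
  set q := minpoly ℚ x with hq
  have hirr : Irreducible q := minpoly.irreducible hint
  have hnf : NumberField q.SplittingField := ⟨⟩
  have hsf : q.IsSplittingField ℚ q.SplittingField := isSplittingField_any _ _
  have hG : IsGalois ℚ q.SplittingField := isGalois_of_splitting _ q
  obtain ⟨u, hu⟩ : ∃ u : q.SplittingField, aeval u q = 0 := by
    obtain ⟨u, hu⟩ := hsf.splits'.exists_eval_eq_zero (by
      rw [degree_map]; exact (degree_pos_of_irreducible hirr).ne')
    exact ⟨u, by rw [← hu, eval_map]; rfl⟩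
  obtain ⟨j, hj⟩ := exists_hom_of_root x hx u hu
  exact ⟨_, inferInstance, hnf, hG, j, isClosure_of_splitting q hirr j x (minpoly.aeval ℚ x)⟩

/-- **Infinitely many totally real fields with group `S₃`.** -/
theorem exists_s3 (S : Finset ℕ) (hS : ∀ p ∈ S, p.Prime)
    (ι : Type) [Fintype ι] (L : ι → Type) [∀ i, Field (L i)] [∀ i, NumberField (L i)] :
    ∃ (F : Type) (_ : Field F) (_ : NumberField F), IsTotallyReal F ∧ IsGalois ℚ F ∧
      Nonempty ((F ≃ₐ[ℚ] F) ≃* Equiv.Perm (Fin 3)) ∧ (∀ i, IsEmpty (F ≃+* L i)) ∧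
      ∀ p ∈ S, ∀ [Fact p.Prime], Leopoldt F p := by
  classical
  haveI : ∀ i, Finite (IntermediateField ℚ (L i)) := fun i =>
    Field.finite_intermediateField_of_exists_primitive_element ℚ (L i)
      (Field.exists_primitive_element ℚ (L i))
  haveI : Fintype (Σ i, IntermediateField ℚ (L i)) := Fintype.ofFinite _
  obtain ⟨K, _, _, hK, _, hKG, hKL, hKp⟩ := Pool.Agent.H637R2.Leo.exists_family 3 (by norm_num) S hS
    (Σ i, IntermediateField ℚ (L i)) (fun m => (m.2 : Type))
  obtain ⟨F, _, _, hG, j, hj⟩ := exists_closure K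
  have hcore := fun g hg => corefree hj g hg
  have hidx : (fixG j).index = 3 := by rw [index_fixG, hK]
  have hdvd : Nat.card (F ≃ₐ[ℚ] F) ∣ 6 := by
    have := card_dvd_factorial hcore
    rw [hidx] at this
    exact this
  have hmul := Subgroup.index_mul_card (fixG j)
  rw [hidx] at hmul
  have hcard : Nat.card (F ≃ₐ[ℚ] F) = 6 := by
    have h1 : Nat.card (F ≃ₐ[ℚ] F) ≤ 6 := Nat.le_of_dvd (by norm_num) hdvd
    have h2 : 0 < Nat.card (fixG j) := Nat.card_pos
    by_contra hne
    have h3 : Nat.card (fixG j) = 1 := by omega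
    apply hKG le_rfl
    have h4 : fixG j = ⊥ := Subgroup.card_eq_one.1 h3
    have h5 : (fixG j).Normal := by rw [h4]; infer_instance
    rw [fixG_eq] at h5
    have h6 : IsGalois ℚ (rangeF j) := (InfiniteGalois.normal_iff_isGalois _).1 h5
    exact IsGalois.of_algEquiv (equivRange j).symm
  refine ⟨F, inferInstance, inferInstance, totallyReal_closure j hj, hG, ?_, ?_, ?_⟩
  · have hq : Nat.card ((F ≃ₐ[ℚ] F) ⧸ fixG j) = 3 := hidx
    set e : ((F ≃ₐ[ℚ] F) ⧸ fixG j) ≃ Fin 3 := Finite.equivFinOfCardEq hq with he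
    let φ : (F ≃ₐ[ℚ] F) →* Equiv.Perm (Fin 3) :=
      (e.permCongrHom : Equiv.Perm ((F ≃ₐ[ℚ] F) ⧸ fixG j) ≃* Equiv.Perm (Fin 3)).toMonoidHom.comp
      (MulAction.toPermHom (F ≃ₐ[ℚ] F) ((F ≃ₐ[ℚ] F) ⧸ fixG j))
    have hφ : Function.Injective φ :=
      (MulEquiv.injective (e.permCongrHom : Equiv.Perm ((F ≃ₐ[ℚ] F) ⧸ fixG j) ≃*
        Equiv.Perm (Fin 3))).comp (toPerm_injective hcore)
    have hbij : Function.Bijective φ := by
      haveI : Fintype (F ≃ₐ[ℚ] F) := Fintype.ofFinite _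
      rw [Fintype.bijective_iff_injective_and_card]
      refine ⟨hφ, ?_⟩
      rw [← Nat.card_eq_fintype_card, hcard, Fintype.card_perm, Fintype.card_fin]
      rfl
    exact ⟨MulEquiv.ofBijective φ hbij⟩
  · intro i
    refine ⟨fun e => ?_⟩
    have := hKL ⟨i, rangeF (e.toRingHom.comp j)⟩
    exact this.false (equivRange (e.toRingHom.comp j)).toRingEquiv
  · intro p hp _
    exact leopoldt_closure_four j hj (by omega) (fun h => by
      rw [← card_gal, hcard] at h; omega) (hKp p hp)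

end Pool.Agent.V5helper65.LG
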