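import Pool.Agent.V5helper65.LG.Family

/-!
# Galois closures of the fields of the families
-/

set_option autoImplicit false

namespace Pool.Agent.V5helper65.LG

open Module Finset NumberField Polynomial
open Pool.Agent.H637R2.Leo (Leopoldt)

theorem toPerm_injective {G : Type} [Group G] {H : Subgroup G}
    (hcore : ∀ g : G, (∀ h : G, h⁻¹ * g * h ∈ H) → g = 1) :
    Function.Injective (MulAction.toPermHom G (G ⧸ H)) := by
  rw [injective_iff_map_eq_one]
  intro g hg
  apply hcore
  intro x
  have h1 : MulAction.toPermHom G (G ⧸ H) g (x : G ⧸ H) = (x : G ⧸ H) := by rw [hg]; rfl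
  have h2 : ((g * x : G) : G ⧸ H) = (x : G ⧸ H) := h1
  have h3 := h2.symm
  rw [QuotientGroup.eq] at h3
  rw [mul_assoc]
  exact h3

theorem card_dvd_factorial {G : Type} [Group G] [Finite G] {H : Subgroup G}
    (hcore : ∀ g : G, (∀ h : G, h⁻¹ * g * h ∈ H) → g = 1) :
    Nat.card G ∣ (H.index).factorial := by
  have h2 := Subgroup.card_dvd_of_injective _ (toPerm_injective hcore)
  rw [Nat.card_perm] at h2
  exact h2

section closure

variable {K F : Type} [Field K] [NumberField K] [Field F] [NumberField F] [IsGalois ℚ F]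

theorem totallyReal_closure (j : K →+* F) (hj : IsClosure j) [IsTotallyReal K] :
    IsTotallyReal F := by
  obtain ⟨τ⟩ : Nonempty (F →+* ℂ) := inferInstance
  obtain ⟨c, hc⟩ := exists_conj τ
  have hc1 : c = 1 := by
    apply corefree hj
    intro g y
    have h1 : c (g (j y)) = g (j y) := by
      apply τ.injective
      rw [hc]
      exact (real_iff _).1 (IsTotallyReal.complexEmbedding_isReal
        ((τ.comp (g : F →+* F)).comp j)) y
    change g.symm (c (g (j y))) = j y
    rw [h1, g.symm_apply_apply]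
  subst hc1
  have h1 : ComplexEmbedding.IsReal τ := by
    rw [real_iff]
    intro y
    exact (hc y).symm
  refine ⟨fun w => ?_⟩
  rw [InfinitePlace.isReal_iff]
  exact real_of_real h1

theorem mixed_of (hr : 0 < InfinitePlace.nrRealPlaces K) (hc : 0 < InfinitePlace.nrComplexPlaces K) :
    Mixed K := by
  classical
  constructor
  · obtain ⟨⟨v, hv⟩⟩ := Fintype.card_pos_iff.1 hr
    exact ⟨v.embedding, InfinitePlace.isReal_iff.1 hv⟩
  · obtain ⟨⟨v, hv⟩⟩ := Fintype.card_pos_iff.1 hc
    exact ⟨v.embedding, InfinitePlace.isComplex_iff.1 hv⟩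

end closure

/-- **Galois closures of the fields of the families of degree at most four.** -/
theorem closure_family (p : ℕ) [Fact p.Prime] (r₁ r₂ : ℕ) (h : 1 ≤ r₁ + r₂) (h4 : r₁ + 2 * r₂ ≤ 4)
    (a : Fin r₁ → ℤ) (b c : Fin r₂ → ℤ) (ha : Function.Injective a)
    (hbc : Function.Injective (fun k => (b k, c k))) (hc : ∀ k, 0 < c k) :
    ∃ S : Finset ℤ, ∀ t ∉ S, ∀ (F : Type) [Field F] [NumberField F]
      [((fpoly a b c t).map (Int.castRingHom ℚ)).IsSplittingField ℚ F],
      (finrank ℚ F = 24 → r₁ = 2) → (r₂ = 0 → IsTotallyReal F) ∧ Leopoldt F p := by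
  obtain ⟨S, hS⟩ := explicit' p r₁ r₂ h a b c ha hbc hc
  refine ⟨S, fun t ht F _ _ hF h24 => ?_⟩
  obtain ⟨hirr, hall⟩ := hS t ht
  obtain ⟨hirrQ, K, _, _, θ, hθ, hgen, hj⟩ := exists_root_field _ (fpoly_monic h a b c t) hirr
  obtain ⟨hr, hcx, hL⟩ := hall K θ hθ hgen
  haveI : IsGalois ℚ F := isGalois_of_splitting F ((fpoly a b c t).map (Int.castRingHom ℚ))
  -- a root in `F`
  obtain ⟨x, hx⟩ : ∃ x : F, aeval x (fpoly a b c t) = 0 := by
    have h1 := hF.splits'
    have h2 : ((fpoly a b c t).map (Int.castRingHom ℚ)).degree ≠ 0 :=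
      (degree_pos_of_irreducible hirrQ).ne'
    obtain ⟨x, hx⟩ := h1.exists_eval_eq_zero (by rwa [degree_map])
    refine ⟨x, ?_⟩
    rw [eval_map] at hx
    have h3 : aeval x ((fpoly a b c t).map (algebraMap ℤ ℚ)) = aeval x (fpoly a b c t) :=
      aeval_map_algebraMap _ _ _
    rw [← h3]
    exact hx
  obtain ⟨j, hjx⟩ := hj F x hx
  have hθ' : aeval θ ((fpoly a b c t).map (Int.castRingHom ℚ)) = 0 := by
    have h3 : aeval θ ((fpoly a b c t).map (algebraMap ℤ ℚ)) = aeval θ (fpoly a b c t) :=
      aeval_map_algebraMap _ _ _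
    exact h3.trans hθ
  have hcl : IsClosure j := isClosure_of_splitting _ hirrQ j θ hθ'
  have hdeg : finrank ℚ K = r₁ + 2 * r₂ := by
    rw [← InfinitePlace.card_add_two_mul_card_eq_rank, hr, hcx]
  constructor
  · intro h0
    haveI : IsTotallyReal K := by
      rw [← nrComplexPlaces_eq_zero_iff, hcx, h0]
    exact totallyReal_closure j hcl
  · refine leopoldt_closure_four j hcl (by omega) (fun h' => ?_) hL
    have hr2 := h24 h'
    -- degree four
    have hdvd : finrank ℚ F ∣ (finrank ℚ K).factorial := by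
      have h5 := card_dvd_factorial (H := fixG j) (fun g hg => corefree hcl g hg)
      rwa [card_gal, index_fixG] at h5
    have hr3 : r₂ = 1 := by
      by_contra hne
      have hK2 : finrank ℚ K = 2 := by omega
      rw [hK2, h'] at hdvd
      norm_num at hdvd
    exact mixed_of (by omega) (by omega)

end Pool.Agent.V5helper65.LG
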