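import Pool.Agent.V5helper65.LG.Main

/-!
# Subgroups of the symmetric group of degree four
-/

set_option autoImplicit false

namespace Pool.Agent.V5helper65.LG

open Module Finset NumberField
open Pool.Agent.H637R2.Leo (Leopoldt)

section groups

variable {G : Type} [Group G] {V : Type} [AddCommGroup V] [Module ℂ V] {ρ : Representation ℂ G V}

/-- groups generated by a four group and an element of order three -/
theorem a4_double (a b t : G) (haa' : a * a = 1) (hbb' : b * b = 1) (hba' : b * a = a * b)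
    (hat' : a * t = t * b) (hbt' : b * t = t * (a * b)) (httt' : t * t * t = 1)
    (hgen : ∀ g : G, ∃ i j k : ℕ, g = a ^ i * (b ^ j * t ^ k)) (hρ : Irred ρ)
    (hfix0 : ∀ v, ρ a v = v → ρ b v = v → v = 0) : Small ρ a := by
  have haa : ∀ v, ρ a (ρ a v) = v := fun v => by rw [← mul_app, haa', map_one]; rfl
  have hbb : ∀ v, ρ b (ρ b v) = v := fun v => by rw [← mul_app, hbb', map_one]; rfl
  have hba : ∀ v, ρ b (ρ a v) = ρ a (ρ b v) := fun v => by rw [← mul_app, hba', mul_app]
  have hat : ∀ v, ρ a (ρ t v) = ρ t (ρ b v) := fun v => by rw [← mul_app, hat', mul_app]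
  have hbt : ∀ v, ρ b (ρ t v) = ρ t (ρ a (ρ b v)) := fun v => by
    rw [← mul_app, hbt', mul_app, mul_app]
  have httt : ∀ v, ρ t (ρ t (ρ t v)) = v := fun v => by
    rw [← mul_app, ← mul_app, httt', map_one]; rfl
  have hsum : ∀ v, v + ρ a v + ρ b v + ρ a (ρ b v) = 0 := by
    intro v
    apply hfix0
    · simp only [map_add, haa]; abel
    · simp only [map_add, hba, hbb]; abel
  haveI := hρ.1
  obtain ⟨v₀, hv₀⟩ : ∃ v, v + ρ a v - ρ b v - ρ a (ρ b v) ≠ 0 := by
    by_contra hcon
    push Not at hcon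
    obtain ⟨v, hv⟩ := exists_ne (0 : V)
    apply hv
    have e1 := hcon v
    have e2 : v + ρ b v - ρ a (ρ b v) - ρ a v = 0 := by
      have h1 := congrArg (fun w => ρ t (ρ t w)) (hcon (ρ t v))
      simp only [map_add, map_sub, map_zero, hat, hbt, httt] at h1
      simp only [hba, hbb] at h1
      exact h1
    have e3 : v + ρ a (ρ b v) - ρ a v - ρ b v = 0 := by
      have h1 := congrArg (fun w => ρ t w) (hcon (ρ t (ρ t v)))
      simp only [map_add, map_sub, map_zero, hat, hbt, httt] at h1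
      simp only [hba, haa, hbb] at h1
      exact h1
    have e4 := hsum v
    have h5 : (4 : ℂ) • v = (v + ρ a v - ρ b v - ρ a (ρ b v)) +
        (v + ρ b v - ρ a (ρ b v) - ρ a v) + (v + ρ a (ρ b v) - ρ a v - ρ b v) +
        (v + ρ a v + ρ b v + ρ a (ρ b v)) := by
      module
    rw [e1, e2, e3, e4] at h5
    simp only [add_zero] at h5
    exact (smul_eq_zero.1 h5).resolve_left (by norm_num)
  set y := v₀ + ρ a v₀ - ρ b v₀ - ρ a (ρ b v₀) with hy₀
  have hay : ρ a y = y := by
    rw [hy₀]; simp only [map_add, map_sub, haa]; abel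
  have hby : ρ b y = -y := by
    rw [hy₀]; simp only [map_add, map_sub, hba, hbb]; abel
  have hty : ρ a (ρ t y) = -ρ t y := by rw [hat, hby, map_neg]
  have hbty : ρ b (ρ t y) = -ρ t y := by rw [hbt, hby, map_neg, hay, map_neg]
  have htty : ρ a (ρ t (ρ t y)) = -ρ t (ρ t y) := by rw [hat, hbty, map_neg]
  have hbtty : ρ b (ρ t (ρ t y)) = ρ t (ρ t y) := by
    rw [hbt, hbty, map_neg, hty, neg_neg]
  let U' : Submodule ℂ V := Submodule.span ℂ {y, ρ t y, ρ t (ρ t y)}
  have hmem : ∀ w, w ∈ U' ↔ ∃ α β γ : ℂ, w = α • y + β • ρ t y + γ • ρ t (ρ t y) := by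
    intro w
    constructor
    · intro hw
      obtain ⟨α, z, hz, rfl⟩ := Submodule.mem_span_insert.1 hw
      obtain ⟨β, z', hz', rfl⟩ := Submodule.mem_span_insert.1 hz
      obtain ⟨γ, rfl⟩ := Submodule.mem_span_singleton.1 hz'
      exact ⟨α, β, γ, by abel⟩
    · rintro ⟨α, β, γ, rfl⟩
      refine U'.add_mem (U'.add_mem ?_ ?_) ?_
      · exact U'.smul_mem _ (Submodule.subset_span (by simp))
      · exact U'.smul_mem _ (Submodule.subset_span (by simp))
      · exact U'.smul_mem _ (Submodule.subset_span (by simp))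
  have hUa : ∀ u ∈ U', ρ a u ∈ U' := by
    intro u hu
    obtain ⟨α, β, γ, rfl⟩ := (hmem _).1 hu
    rw [hmem]
    refine ⟨α, -β, -γ, ?_⟩
    simp only [map_add, map_smul, hay, hty, htty, smul_neg, neg_smul]
  have hUb : ∀ u ∈ U', ρ b u ∈ U' := by
    intro u hu
    obtain ⟨α, β, γ, rfl⟩ := (hmem _).1 hu
    rw [hmem]
    refine ⟨-α, -β, γ, ?_⟩
    simp only [map_add, map_smul, hby, hbty, hbtty, smul_neg, neg_smul]
  have hUt : ∀ u ∈ U', ρ t u ∈ U' := by
    intro u hu
    obtain ⟨α, β, γ, rfl⟩ := (hmem _).1 hu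
    rw [hmem]
    refine ⟨γ, α, β, ?_⟩
    simp only [map_add, map_smul, httt]
    abel
  have hpow : ∀ x : G, (∀ u ∈ U', ρ x u ∈ U') → ∀ n : ℕ, ∀ u ∈ U', ρ (x ^ n) u ∈ U' := by
    intro x hx n
    induction n with
    | zero => intro u hu; rw [pow_zero, map_one]; exact hu
    | succ n ih => intro u hu; rw [pow_succ, mul_app]; exact ih _ (hx u hu)
  have hU' : ∀ g, ∀ u ∈ U', ρ g u ∈ U' := by
    intro g u hu
    obtain ⟨i, j, k, rfl⟩ := hgen g
    rw [mul_app, mul_app]
    exact hpow _ hUa _ _ (hpow _ hUb _ _ (hpow _ hUt _ _ hu))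
  have hspan : ∀ w, ∃ α β γ : ℂ, w = α • y + β • ρ t y + γ • ρ t (ρ t y) := by
    rcases hρ.2 U' hU' with h1 | h1
    · exfalso
      apply hv₀
      have : y ∈ U' := Submodule.subset_span (by simp)
      rw [h1, Submodule.mem_bot] at this
      exact this
    · intro w
      rw [← hmem, h1]
      trivial
  intro v v' hv hv' hv0
  have key : ∀ w, ρ a w = w → ∃ α : ℂ, w = α • y := by
    intro w hw
    obtain ⟨α, β, γ, rfl⟩ := hspan w
    refine ⟨α, ?_⟩
    simp only [map_add, map_smul, hay, hty, htty, smul_neg] at hw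
    have h1 : (2 : ℂ) • (β • ρ t y + γ • ρ t (ρ t y)) = 0 := by
      have h2 := sub_eq_zero.2 hw
      have h3 : α • y + -(β • ρ t y) + -(γ • ρ t (ρ t y)) -
          (α • y + β • ρ t y + γ • ρ t (ρ t y)) =
          -((2 : ℂ) • (β • ρ t y + γ • ρ t (ρ t y))) := by module
      rw [h3] at h2
      exact neg_eq_zero.1 h2
    have h4 := (smul_eq_zero.1 h1).resolve_left two_ne_zero
    rw [add_assoc, h4, add_zero]
  obtain ⟨α, rfl⟩ := key v hv
  obtain ⟨β, rfl⟩ := key v' hv'
  have hα : α ≠ 0 := by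
    rintro rfl
    exact hv0 (zero_smul _ _)
  exact ⟨β / α, by rw [smul_smul, div_mul_cancel₀ _ hα]⟩

set_option maxRecDepth 100000 in
theorem no_comm_three' : ∀ x : P4, (x * x * x = 1 ∧ x ≠ 1) →
    ∀ y : P4, (y * y = 1 ∧ x * y = y * x) → y = 1 := by
  decide

theorem no_comm_three (x y : P4) (h1 : x * x * x = 1) (h2 : x ≠ 1) (h3 : y * y = 1)
    (h4 : x * y = y * x) : y = 1 := no_comm_three' x ⟨h1, h2⟩ y ⟨h3, h4⟩

theorem even_two : ∀ x : P4, Equiv.Perm.sign x = 1 → x * x = 1 →
    (x = 1 ∨ x = pa ∨ x = pb ∨ x = pa * pb) := by decide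

set_option maxRecDepth 100000 in
theorem even_four : ∀ x : P4, Equiv.Perm.sign x = 1 → x * x * (x * x) = 1 →
    (x = 1 ∨ x = pa ∨ x = pb ∨ x = pa * pb) := by decide

set_option maxRecDepth 100000 in
theorem even_gen : ∀ x : P4, Equiv.Perm.sign x = 1 →
    ∃ (i j : Fin 2) (k : Fin 3), x = pa ^ (i : ℕ) * (pb ^ (j : ℕ) * pt ^ (k : ℕ)) := by decide

set_option maxRecDepth 100000 in
theorem conj_pa_even : ∀ x : P4, (x = 1 ∨ x = pa ∨ x = pb ∨ x = pa * pb) → x ≠ 1 →
    ∃ k : Fin 3, pt ^ (k : ℕ) * pa * (pt ^ (k : ℕ))⁻¹ = x := by decide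

theorem sign_pa : Equiv.Perm.sign pa = 1 := by decide
theorem sign_pb : Equiv.Perm.sign pb = 1 := by decide
theorem sign_pt : Equiv.Perm.sign pt = 1 := by decide

theorem card_cases {n : ℕ} (h : n ∣ 8) : n = 1 ∨ n = 2 ∨ n = 4 ∨ n = 8 := by
  have h1 : n ≤ 8 := Nat.le_of_dvd (by norm_num) h
  interval_cases n <;> simp_all

/-- **Subgroups of index three of groups which embed into the symmetric group of degree four.** -/
theorem small_embed [Finite G] {H : Subgroup G} (φ : G →* P4) (hφ : Function.Injective φ)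
    (hidx : H.index = 3) (c : G) (hcc : c * c = 1) (hc : ∀ g : G, g⁻¹ * c * g ∈ H) (hc1 : c ≠ 1)
    (hρ : Irred ρ) (hfix : ∀ v : V, (∀ g ∈ H, ρ g v = v) → v = 0) :
    (Nat.card G = 12 ∨ Nat.card G = 24) ∧ Small ρ c := by
  classical
  have hmul := Subgroup.index_mul_card H
  rw [hidx] at hmul
  have hdvd : Nat.card G ∣ 24 := by
    rw [← card_P4]
    exact Subgroup.card_dvd_of_injective φ hφ
  have hH8 : Nat.card H ∣ 8 := by
    rw [← hmul] at hdvd
    have h3 : 3 * Nat.card H ∣ 3 * 8 := hdvd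
    exact Nat.dvd_of_mul_dvd_mul_left (by norm_num) h3
  have hcH : c ∈ H := by
    have := hc 1
    rwa [inv_one, one_mul, mul_one] at this
  have hφcc : φ c * φ c = 1 := by rw [← map_mul, hcc, map_one]
  have hφc1 : φ c ≠ 1 := fun h => hc1 (hφ (by rw [h, map_one]))
  rcases card_cases hH8 with h | h | h | h
  · exfalso
    have h2 : H = ⊥ := Subgroup.card_eq_one.1 h
    rw [h2, Subgroup.mem_bot] at hcH
    exact hc1 hcH
  · exfalso
    have hG6 : Nat.card G = 6 := by omega
    haveI : Fact (Nat.Prime 3) := ⟨Nat.prime_three⟩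
    obtain ⟨g, hg⟩ := exists_prime_orderOf_dvd_card' (G := G) 3 (by rw [hG6]; norm_num)
    have hg3 : g * g * g = 1 := by
      have := pow_orderOf_eq_one g
      rw [hg, pow_succ, pow_two] at this
      exact this
    have hg1 : g ≠ 1 := by
      rintro rfl
      rw [orderOf_one] at hg
      norm_num at hg
    have hcent : g⁻¹ * c * g = c := by
      by_contra hne
      have hne1 : g⁻¹ * c * g ≠ 1 := by
        intro h0
        apply hc1
        have : g * (g⁻¹ * c * g) * g⁻¹ = g * 1 * g⁻¹ := by rw [h0]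
        simpa [mul_assoc] using this
      haveI : Fintype H := Fintype.ofFinite H
      have h3 : ({1, ⟨c, hcH⟩, ⟨g⁻¹ * c * g, hc g⟩} : Finset H).card ≤ 2 := by
        rw [← h, Nat.card_eq_fintype_card]
        exact Finset.card_le_univ _
      have h4 : ({1, ⟨c, hcH⟩, ⟨g⁻¹ * c * g, hc g⟩} : Finset H).card = 3 := by
        rw [Finset.card_eq_three]
        exact ⟨1, ⟨c, hcH⟩, ⟨g⁻¹ * c * g, hc g⟩, fun h => hc1 (congrArg Subtype.val h).symm,
          fun h => hne1 (congrArg Subtype.val h).symm,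
          fun h => hne (congrArg Subtype.val h).symm, rfl⟩
      omega
    apply hφc1
    refine no_comm_three (φ g) (φ c) ?_ ?_ hφcc ?_
    · rw [← map_mul, ← map_mul, hg3, map_one]
    · intro h0; exact hg1 (hφ (by rw [h0, map_one]))
    · rw [← map_mul, ← map_mul]
      congr 1
      have : g * (g⁻¹ * c * g) = g * c := by rw [hcent]
      rw [← this]; group
  · -- order twelve
    have h12 : Nat.card G = 12 := by omega
    refine ⟨Or.inl h12, ?_⟩
    have hrange : φ.range.index = 2 := by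
      have h4 : Nat.card φ.range = 12 := by
        rw [← h12]
        exact (Nat.card_congr (MonoidHom.ofInjective hφ).toEquiv).symm
      have := Subgroup.index_mul_card φ.range
      rw [h4, card_P4] at this
      omega
    have halt : φ.range = alternatingGroup (Fin 4) := Equiv.Perm.eq_alternatingGroup_of_index_eq_two hrange
    have hsign : ∀ g, Equiv.Perm.sign (φ g) = 1 := by
      intro g
      have h1 : φ g ∈ alternatingGroup (Fin 4) := by rw [← halt]; exact ⟨g, rfl⟩
      exact Equiv.Perm.mem_alternatingGroup.1 h1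
    have hex : ∀ x : P4, Equiv.Perm.sign x = 1 → ∃ g, φ g = x := by
      intro x hx
      have h1 : x ∈ φ.range := by rw [halt]; exact Equiv.Perm.mem_alternatingGroup.2 hx
      exact h1
    have hkl : φ c = 1 ∨ φ c = pa ∨ φ c = pb ∨ φ c = pa * pb := even_two _ (hsign c) hφcc
    obtain ⟨k, hk⟩ := conj_pa_even _ hkl hφc1
    set σ : P4 := pt ^ (k : ℕ) with hσ
    have hσs : Equiv.Perm.sign σ = 1 := by rw [hσ, map_pow, sign_pt, one_pow]
    have hconj : ∀ x : P4, Equiv.Perm.sign x = 1 → Equiv.Perm.sign (σ * x * σ⁻¹) = 1 := by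
      intro x hx
      rw [map_mul, map_mul, map_inv, hx, hσs]; rfl
    obtain ⟨b, hb⟩ := hex _ (hconj pb sign_pb)
    obtain ⟨t, ht⟩ := hex _ (hconj pt sign_pt)
    have hrel : ∀ {x y : G}, φ x = φ y → x = y := fun h => hφ h
    refine a4_double c b t hcc ?_ ?_ ?_ ?_ ?_ ?_ hρ ?_
    · apply hrel
      rw [map_mul, hb, map_one]
      calc σ * pb * σ⁻¹ * (σ * pb * σ⁻¹) = σ * (pb * pb) * σ⁻¹ := by group
        _ = 1 := by rw [pbb]; group
    · apply hrel
      rw [map_mul, map_mul, hb, ← hk]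
      calc σ * pb * σ⁻¹ * (σ * pa * σ⁻¹) = σ * (pb * pa) * σ⁻¹ := by group
        _ = σ * (pa * pb) * σ⁻¹ := by rw [pba]
        _ = _ := by group
    · apply hrel
      rw [map_mul, map_mul, hb, ht, ← hk]
      calc σ * pa * σ⁻¹ * (σ * pt * σ⁻¹) = σ * (pa * pt) * σ⁻¹ := by group
        _ = σ * (pt * pb) * σ⁻¹ := by rw [pat]
        _ = _ := by group
    · apply hrel
      rw [map_mul, map_mul, map_mul, hb, ht, ← hk]
      calc σ * pb * σ⁻¹ * (σ * pt * σ⁻¹) = σ * (pb * pt) * σ⁻¹ := by group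
        _ = σ * (pt * (pa * pb)) * σ⁻¹ := by rw [pbt]
        _ = _ := by group
    · apply hrel
      rw [map_mul, map_mul, ht, map_one]
      calc σ * pt * σ⁻¹ * (σ * pt * σ⁻¹) * (σ * pt * σ⁻¹) = σ * (pt * pt * pt) * σ⁻¹ := by group
        _ = 1 := by rw [pttt]; group
    · intro g
      obtain ⟨i, j, l, hij⟩ := even_gen (σ⁻¹ * φ g * σ) (by
        rw [map_mul, map_mul, map_inv, hsign, hσs]; rfl)
      refine ⟨i, j, l, hrel ?_⟩
      rw [map_mul, map_mul, map_pow, map_pow, map_pow, hb, ht, ← hk]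
      have hcp : ∀ (x : P4) (n : ℕ), (σ * x * σ⁻¹) ^ n = σ * x ^ n * σ⁻¹ := by
        intro x n
        exact conj_pow
      rw [hcp, hcp, hcp]
      have h1 : φ g = σ * (σ⁻¹ * φ g * σ) * σ⁻¹ := by group
      rw [h1, hij]; group
    · intro v h1 h2
      apply hfix
      intro g hg
      have hg4 : g * g * (g * g) = 1 := by
        have h4 : (⟨g, hg⟩ : H) ^ 4 = 1 := by rw [← h]; exact pow_card_eq_one'
        have h5 := congrArg Subtype.val h4
        have h6 : g ^ 4 = 1 := h5
        rw [← h6, pow_succ, pow_succ, pow_two]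
        simp only [mul_assoc]
      have h7 : Equiv.Perm.sign (σ⁻¹ * φ g * σ) = 1 := by
        rw [map_mul, map_mul, map_inv, hsign, hσs]; rfl
      have h8 : σ⁻¹ * φ g * σ * (σ⁻¹ * φ g * σ) * (σ⁻¹ * φ g * σ * (σ⁻¹ * φ g * σ)) = 1 := by
        calc _ = σ⁻¹ * (φ g * φ g * (φ g * φ g)) * σ := by group
          _ = σ⁻¹ * φ (g * g * (g * g)) * σ := by simp only [map_mul]
          _ = 1 := by rw [hg4, map_one, mul_one, inv_mul_cancel]
      have hpush : ∀ x : P4, σ⁻¹ * φ g * σ = x → φ g = σ * x * σ⁻¹ := by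
        rintro x rfl
        group
      rcases even_four _ h7 h8 with h9 | h9 | h9 | h9
      · have h10 : g = 1 := by
          apply hrel
          rw [hpush _ h9, map_one]; group
        rw [h10, map_one]; rfl
      · have h10 : g = c := by
          apply hrel
          rw [hpush _ h9, hk]
        rw [h10, h1]
      · have h10 : g = b := by
          apply hrel
          rw [hpush _ h9, hb]
        rw [h10, h2]
      · have h10 : g = c * b := by
          apply hrel
          rw [hpush _ h9, map_mul, hb, ← hk]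
          group
        rw [h10, mul_app, h2, h1]
  · have h24 : Nat.card G = 24 := by omega
    refine ⟨Or.inr h24, ?_⟩
    have hbij : Function.Bijective φ := by
      haveI : Fintype G := Fintype.ofFinite G
      rw [Fintype.bijective_iff_injective_and_card]
      refine ⟨hφ, ?_⟩
      rw [← Nat.card_eq_fintype_card, ← Nat.card_eq_fintype_card, h24, card_P4]
    exact small_octic (MulEquiv.ofBijective φ hbij) h c hc hc1 hρ hfix

end groups

end Pool.Agent.V5helper65.LG
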