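import Pool.Agent.W254.PA.LeoE
import Pool.Agent.H637R2.Leo.Crit

/-!
# Relations between units with `p`-adic exponents
-/

set_option autoImplicit false

namespace Pool.Agent.V5helper65.LG

open Module Finset NumberField NumberField.Units Filter Topology
open Pool.Agent.W254.PA
open Pool.Agent.H637R2.Leo (Leopoldt H mem_H padic_indep_of_int_indep)

section base

variable {K : Type} [Field K] [NumberField K] {p : ℕ} [hp : Fact p.Prime]

/-- A relation with `p`-adic exponents between the units `ε i`. -/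
def Rel (K : Type) [Field K] [NumberField K] (p : ℕ) [Fact p.Prime] {n : ℕ}
    (ε : Fin n → (𝓞 K)ˣ) (a : Fin n → ℤ_[p]) : Prop :=
  ∃ m : ℕ → Fin n → ℤ, (∀ i, Tendsto (fun k => ((m k i : ℤ) : ℤ_[p])) atTop (𝓝 (a i))) ∧
    ∀ N : ℕ, ∀ᶠ k in atTop, (∏ i, ε i ^ m k i) ∈ H K p N

/-- the exponent vector -/
noncomputable def vec {n : ℕ} (ε : Fin n → (𝓞 K)ˣ) (a : Fin n → ℤ_[p]) : Fin (rank K) → ℤ_[p] :=
  fun k => ∑ i, a i * ((ev (ε i) k : ℤ) : ℤ_[p])

/-- an exponent which makes all units congruent to `1` and kills the torsion -/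
theorem exists_exponent (K : Type) [Field K] [NumberField K] (p : ℕ) [hp : Fact p.Prime] :
    ∃ M : ℕ, 1 ≤ M ∧ (∀ x : (𝓞 K)ˣ, x ^ M ∈ H K p 1) ∧ ∀ ζ ∈ torsion K, ζ ^ M = 1 := by
  have hne : Ideal.span {(p : 𝓞 K) ^ 1} ≠ ⊥ := by
    rw [Ne, Ideal.span_singleton_eq_bot]
    exact pow_ne_zero _ (Nat.cast_ne_zero.2 hp.out.ne_zero)
  haveI : Finite (𝓞 K ⧸ Ideal.span {(p : 𝓞 K) ^ 1}) := Ideal.finiteQuotientOfFreeOfNeBot _ hne
  haveI : Finite (𝓞 K ⧸ Ideal.span {(p : 𝓞 K) ^ 1})ˣ := inferInstance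
  refine ⟨Nat.card (𝓞 K ⧸ Ideal.span {(p : 𝓞 K) ^ 1})ˣ * torsionOrder K, ?_, ?_, ?_⟩
  · exact Nat.mul_pos Nat.card_pos (torsionOrder_pos K)
  · intro x
    unfold H
    rw [MonoidHom.mem_ker, map_pow, pow_mul]
    have h : (Units.map (Ideal.Quotient.mk (Ideal.span {(p : 𝓞 K) ^ 1})).toMonoidHom) x ^
        Nat.card (𝓞 K ⧸ Ideal.span {(p : 𝓞 K) ^ 1})ˣ = 1 := pow_card_eq_one'
    rw [h, one_pow]
  · intro ζ hζ
    rw [mul_comm, pow_mul]
    have h : ζ ^ torsionOrder K = 1 := (rootsOfUnity_eq_torsion K ▸ hζ : ζ ∈ rootsOfUnity _ _)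
    rw [h, one_pow]

theorem pow_exponent {M : ℕ} (hM : ∀ ζ ∈ torsion K, ζ ^ M = 1) (x : (𝓞 K)ˣ) :
    x ^ M = ∏ k, (fundSystem K k ^ M) ^ ev x k := by
  obtain ⟨ζ, hζ, hx⟩ := exists_zeta x
  conv_lhs => rw [hx, mul_pow, hM ζ hζ, one_mul, ← Finset.prod_pow]
  refine Finset.prod_congr rfl fun k _ => ?_
  rw [← zpow_natCast, ← zpow_mul, ← zpow_natCast (fundSystem K k) M, ← zpow_mul, mul_comm]

/-- Under Leopoldt's conjecture all relations are trivial. -/
theorem vec_eq_zero (hL : Leopoldt K p) {n : ℕ} {ε : Fin n → (𝓞 K)ˣ} {a : Fin n → ℤ_[p]}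
    (h : Rel K p ε a) : vec ε a = 0 := by
  obtain ⟨M, hM1, hM2, hM3⟩ := exists_exponent K p
  obtain ⟨m, hm, hmH⟩ := h
  refine hL (rank K) (fun k => fundSystem K k ^ M) ?_ ?_ (vec ε a)
    (fun j k => ∑ i, m j i * ev (ε i) k) ?_ ?_
  · intro k
    apply Ideal.le_radical
    rw [Ideal.mem_span_singleton]
    have := hM2 (fundSystem K k)
    rw [mem_H, pow_one] at this
    exact this
  · intro c hc
    have h1 := congrArg ev hc
    rw [ev_prod_zpow, ev_one] at h1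
    have h2 : ∀ k, ev (fundSystem K k ^ M) = (M : ℤ) • Pi.single k (1 : ℤ) := by
      intro k
      have h3 := ev_prod_zpow {k} (fun k => fundSystem K k) (fun _ => (M : ℤ))
      rw [Finset.prod_singleton, Finset.sum_singleton, zpow_natCast, ev_fund] at h3
      exact h3
    funext l
    have h3 := congrFun h1 l
    rw [Finset.sum_apply, Finset.sum_eq_single l] at h3
    · rw [h2, Pi.smul_apply, Pi.smul_apply, Pi.single_eq_same, smul_eq_mul, smul_eq_mul, mul_one,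
        Pi.zero_apply] at h3
      rcases mul_eq_zero.1 h3 with h4 | h4
      · exact h4
      · exact absurd (by exact_mod_cast h4) (by omega : M ≠ 0)
    · intro k _ hk
      rw [h2, Pi.smul_apply, Pi.smul_apply, Pi.single_eq_of_ne (Ne.symm hk)]
      simp
    · intro h4; exact absurd (Finset.mem_univ _) h4
  · intro k
    have : (fun j => (((∑ i, m j i * ev (ε i) k : ℤ)) : ℤ_[p])) =
        fun j => ∑ i, ((m j i : ℤ) : ℤ_[p]) * ((ev (ε i) k : ℤ) : ℤ_[p]) := by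
      funext j; push_cast; rfl
    rw [this]
    exact tendsto_finsetSum _ fun i _ => (hm i).mul tendsto_const_nhds
  · intro N
    filter_upwards [hmH N] with j hj
    rw [← mem_H]
    have h1 : (∏ k, (fundSystem K k ^ M) ^ (∑ i, m j i * ev (ε i) k)) = (∏ i, ε i ^ m j i) ^ M := by
      rw [pow_exponent hM3]
      refine Finset.prod_congr rfl fun k _ => ?_
      rw [ev_prod_zpow, Finset.sum_apply]
      congr 1
    rw [h1]
    exact Subgroup.pow_mem _ hj M

/-- If all relations are trivial, Leopoldt's conjecture holds. -/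
theorem leopoldt_of_vec (h : ∀ (n : ℕ) (ε : Fin n → (𝓞 K)ˣ) (a : Fin n → ℤ_[p]), Rel K p ε a →
    vec ε a = 0) : Leopoldt K p := by
  intro n ε _ hind a m hm hmH
  obtain ⟨M, hM1, hM2, hM3⟩ := exists_exponent K p
  have h1 := h n ε a ⟨m, hm, fun N => (hmH N).mono fun k hk => (mem_H p N _).2 hk⟩
  apply padic_indep_of_int_indep p (fun i => ev (ε i))
  · intro c hc
    have h2 : ev (∏ i, ε i ^ c i) = 0 := by
      rw [ev_prod_zpow]
      funext k
      rw [Finset.sum_apply]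
      simpa using hc k
    have h3 := pow_exponent hM3 (∏ i, ε i ^ c i)
    rw [h2] at h3
    simp only [Pi.zero_apply, zpow_zero, Finset.prod_const_one] at h3
    have h4 : ∏ i, ε i ^ ((M : ℤ) * c i) = 1 := by
      rw [← h3, ← Finset.prod_pow]
      refine Finset.prod_congr rfl fun i _ => ?_
      rw [← zpow_natCast, ← zpow_mul, mul_comm]
    have h5 := hind _ h4
    funext i
    have h6 := congrFun h5 i
    rw [Pi.zero_apply] at h6
    rcases mul_eq_zero.1 h6 with h7 | h7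
    · exact absurd (by exact_mod_cast h7) (by omega : M ≠ 0)
    · exact h7
  · intro k
    exact congrFun h1 k

end base

section transfer

variable {K F : Type} [Field K] [NumberField K] [Field F] [NumberField F] {p : ℕ}
  [hp : Fact p.Prime]

/-- the map on units -/
noncomputable def jU (j : K →+* F) : (𝓞 K)ˣ →* (𝓞 F)ˣ :=
  Units.map (RingOfIntegers.mapRingHom j : 𝓞 K →* 𝓞 F)

theorem jU_coe (j : K →+* F) (x : (𝓞 K)ˣ) : ((jU j x : 𝓞 F) : F) = j ((x : 𝓞 K) : K) := rfl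

theorem jU_inj (j : K →+* F) : Function.Injective (jU j) := by
  intro x y h
  apply Units.ext
  apply RingOfIntegers.ext
  apply j.injective
  rw [← jU_coe, ← jU_coe, h]

theorem jU_H (j : K →+* F) (N : ℕ) (x : (𝓞 K)ˣ) : jU j x ∈ H F p N ↔ x ∈ H K p N := by
  rw [mem_H, mem_H]
  constructor
  · rintro ⟨y, hy⟩
    have hpK : (p : K) ≠ 0 := Nat.cast_ne_zero.2 hp.out.ne_zero
    have hy' : j ((x : 𝓞 K) : K) - 1 = (p : F) ^ N * (y : F) := by
      have := congrArg (fun z : 𝓞 F => (z : F)) hy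
      simpa [jU_coe] using this
    set z : K := (((x : 𝓞 K) : K) - 1) / (p : K) ^ N with hz
    have h1 : j z = (y : F) := by
      rw [hz, map_div₀, map_sub, map_one, map_pow, map_natCast, hy',
        mul_div_cancel_left₀ _ (pow_ne_zero _ (Nat.cast_ne_zero.2 hp.out.ne_zero))]
    have h2 : IsIntegral ℤ z := by
      have h3 : IsIntegral ℤ (j z) := by rw [h1]; exact y.isIntegral_coe
      exact (isIntegral_algHom_iff (j.toIntAlgHom) j.injective).1 h3
    refine ⟨⟨z, h2⟩, ?_⟩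
    apply RingOfIntegers.ext
    simp only [map_sub, map_one, map_mul, map_pow, map_natCast]
    change ((x : 𝓞 K) : K) - 1 = (p : K) ^ N * z
    rw [hz, mul_div_cancel₀ _ (pow_ne_zero _ hpK)]
  · rintro ⟨y, hy⟩
    refine ⟨RingOfIntegers.mapRingHom j y, ?_⟩
    have := congrArg (RingOfIntegers.mapRingHom j) hy
    rw [map_sub, map_one, map_mul, map_pow, map_natCast] at this
    exact this

theorem jU_torsion (j : K →+* F) {ζ : (𝓞 K)ˣ} (hζ : ζ ∈ torsion K) : jU j ζ ∈ torsion F := by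
  rw [torsion, CommGroup.mem_torsion] at hζ ⊢
  exact (jU j).isOfFinOrder hζ

theorem ev_jU (j : K →+* F) (x : (𝓞 K)ˣ) :
    ev (jU j x) = ∑ k, ev x k • ev (jU j (fundSystem K k)) := by
  obtain ⟨ζ, hζ, hx⟩ := exists_zeta x
  conv_lhs => rw [hx]
  rw [map_mul, ev_mul, ev_torsion (jU_torsion j hζ), zero_add, map_prod]
  simp only [map_zpow]
  rw [ev_prod_zpow]

theorem vec_jU (j : K →+* F) {n : ℕ} (ε : Fin n → (𝓞 K)ˣ) (a : Fin n → ℤ_[p]) (l : Fin (rank F)) :
    vec (fun i => jU j (ε i)) a l =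
      ∑ k, vec ε a k * ((ev (jU j (fundSystem K k)) l : ℤ) : ℤ_[p]) := by
  unfold vec
  simp only [Finset.sum_mul]
  rw [Finset.sum_comm]
  refine Finset.sum_congr rfl fun i _ => ?_
  rw [ev_jU, Finset.sum_apply]
  simp only [Pi.smul_apply, smul_eq_mul]
  push_cast
  rw [Finset.mul_sum]
  exact Finset.sum_congr rfl fun k _ => by ring

theorem Rel_jU (j : K →+* F) {n : ℕ} {ε : Fin n → (𝓞 K)ˣ} {a : Fin n → ℤ_[p]} :
    Rel F p (fun i => jU j (ε i)) a ↔ Rel K p ε a := by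
  unfold Rel
  refine exists_congr fun m => and_congr_right fun _ => forall_congr' fun N => ?_
  refine eventually_congr (Eventually.of_forall fun k => ?_)
  rw [← jU_H (p := p) j N, map_prod]
  simp only [map_zpow]

/-- units coming from a subfield which satisfies Leopoldt's conjecture -/
theorem vec_sub (j : K →+* F) (hL : Leopoldt K p) {n : ℕ} {ε : Fin n → (𝓞 K)ˣ}
    {a : Fin n → ℤ_[p]} (h : Rel F p (fun i => jU j (ε i)) a) :
    vec (fun i => jU j (ε i)) a = 0 := by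
  have h1 := vec_eq_zero hL ((Rel_jU j).1 h)
  funext l
  rw [vec_jU, h1]
  simp

theorem gU_eq_jU (g : F ≃ₐ[ℚ] F) : gU g = jU (g : F →+* F) := rfl

/-- relations are preserved by automorphisms -/
theorem Rel_gU (g : F ≃ₐ[ℚ] F) {n : ℕ} {ε : Fin n → (𝓞 F)ˣ} {a : Fin n → ℤ_[p]}
    (h : Rel F p ε a) : Rel F p (fun i => gU g (ε i)) a :=
  (Rel_jU (g : F →+* F)).2 h

/-- relations are preserved by norms -/
theorem Rel_norm (S : Finset (F ≃ₐ[ℚ] F)) {n : ℕ} {ε : Fin n → (𝓞 F)ˣ} {a : Fin n → ℤ_[p]}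
    (h : Rel F p ε a) : Rel F p (fun i => ∏ g ∈ S, gU g (ε i)) a := by
  obtain ⟨m, hm, hmH⟩ := h
  refine ⟨m, hm, fun N => (hmH N).mono fun k hk => ?_⟩
  have h1 : (∏ i, (∏ g ∈ S, gU g (ε i)) ^ m k i) = ∏ g ∈ S, gU g (∏ i, ε i ^ m k i) := by
    simp only [← Finset.prod_zpow, map_prod, map_zpow]
    rw [Finset.prod_comm]
  rw [h1]
  exact Subgroup.prod_mem _ fun g _ => (jU_H (p := p) (g : F →+* F) N _).2 hk

/-- the action on vectors -/
theorem vec_gU (g : F ≃ₐ[ℚ] F) {n : ℕ} (ε : Fin n → (𝓞 F)ˣ) (a : Fin n → ℤ_[p])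
    (l : Fin (rank F)) : vec (fun i => gU g (ε i)) a l =
      ∑ k, vec ε a k * ((Cm g k l : ℤ) : ℤ_[p]) :=
  vec_jU (g : F →+* F) ε a l

theorem vec_norm (S : Finset (F ≃ₐ[ℚ] F)) {n : ℕ} (ε : Fin n → (𝓞 F)ˣ) (a : Fin n → ℤ_[p]) :
    vec (fun i => ∏ g ∈ S, gU g (ε i)) a = ∑ g ∈ S, vec (fun i => gU g (ε i)) a := by
  classical
  funext l
  rw [Finset.sum_apply]
  unfold vec
  rw [Finset.sum_comm]
  refine Finset.sum_congr rfl fun i _ => ?_
  have h := ev_prod_zpow S (fun g => gU g (ε i)) (fun _ => (1 : ℤ))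
  simp only [zpow_one, one_smul] at h
  rw [h, Finset.sum_apply]
  push_cast
  rw [Finset.mul_sum]

/-- The norm to a field satisfying Leopoldt's conjecture kills all relations. -/
theorem norm_kills [IsGalois ℚ F] (G₀ : Subgroup (F ≃ₐ[ℚ] F)) (j : K →+* F)
    (hj : ∀ x : F, (∀ g ∈ G₀, g x = x) → x ∈ Set.range j) (hL : Leopoldt K p)
    [Fintype G₀] {n : ℕ} {ε : Fin n → (𝓞 F)ˣ} {a : Fin n → ℤ_[p]} (h : Rel F p ε a) :
    ∑ g : G₀, vec (fun i => gU (g : F ≃ₐ[ℚ] F) (ε i)) a = 0 := by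
  classical
  set S : Finset (F ≃ₐ[ℚ] F) := Finset.univ.map (Function.Embedding.subtype (· ∈ G₀)) with hS
  have hfix : ∀ g ∈ G₀, ∀ x : (𝓞 F)ˣ, gU g (∏ s ∈ S, gU s x) = ∏ s ∈ S, gU s x := by
    intro g hg x
    rw [map_prod, hS, Finset.prod_map, Finset.prod_map]
    refine Fintype.prod_equiv (Equiv.mulLeft (⟨g, hg⟩ : G₀)) _ _ fun s => ?_
    apply Units.ext
    apply RingOfIntegers.ext
    rfl
  have hex : ∀ x : (𝓞 F)ˣ, ∃ y : (𝓞 K)ˣ, jU j y = ∏ s ∈ S, gU s x := by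
    intro x
    set u := ∏ s ∈ S, gU s x with hu
    have h1 : ∀ w : (𝓞 F)ˣ, (∀ g ∈ G₀, gU g w = w) → ∃ z : 𝓞 K, RingOfIntegers.mapRingHom j z = (w : 𝓞 F) := by
      intro w hw
      obtain ⟨z, hz⟩ := hj ((w : 𝓞 F) : F) fun g hg => by
        have := congrArg (fun y : (𝓞 F)ˣ => ((y : 𝓞 F) : F)) (hw g hg)
        exact this
      have h2 : IsIntegral ℤ z := by
        have h3 : IsIntegral ℤ (j z) := by rw [hz]; exact (w : 𝓞 F).isIntegral_coe
        exact (isIntegral_algHom_iff (j.toIntAlgHom) j.injective).1 h3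
      refine ⟨⟨z, h2⟩, ?_⟩
      apply RingOfIntegers.ext
      exact hz
    obtain ⟨z, hz⟩ := h1 u fun g hg => hfix g hg x
    obtain ⟨z', hz'⟩ := h1 u⁻¹ fun g hg => by rw [map_inv, hfix g hg x]
    have hinj : Function.Injective (RingOfIntegers.mapRingHom j : 𝓞 K → 𝓞 F) := by
      intro a b hab
      apply RingOfIntegers.ext
      apply j.injective
      exact congrArg (fun y : 𝓞 F => (y : F)) hab
    have h3 : z * z' = 1 := by
      apply hinj
      rw [map_mul, hz, hz', map_one, Units.mul_inv]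
    have h4 : z' * z = 1 := by rw [mul_comm]; exact h3
    refine ⟨⟨z, z', h3, h4⟩, ?_⟩
    apply Units.ext
    exact hz
  choose y hy using hex
  have h1 := Rel_norm S h
  have h2 : (fun i => ∏ g ∈ S, gU g (ε i)) = fun i => jU j (y (ε i)) := by
    funext i; rw [hy]
  rw [h2] at h1
  have h3 := vec_sub j hL h1
  rw [← h2, vec_norm, hS, Finset.sum_map] at h3
  exact h3

end transfer

end Pool.Agent.V5helper65.LG
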