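import Pool.Agent.V5helper65.LG.Base
import Pool.Agent.R350.ID

/-!
# Relations with `p`-adic exponents and logarithms
-/

set_option autoImplicit false

namespace Pool.Agent.V5helper65.LG

open Module Finset NumberField NumberField.Units Filter Topology
open Pool.Agent.W254.PA
open Pool.Agent.W245.PB (IsIwasawaLog brumer)
open Pool.Agent.H637R2.Leo (Leopoldt H mem_H padic_indep_of_int_indep)

variable {F : Type} [Field F] [NumberField F] {p : ℕ} [hp : Fact p.Prime]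

/-- the inclusion of the `p`-adic integers in the algebraic closure -/
noncomputable def cz (p : ℕ) [Fact p.Prime] : ℤ_[p] →+* PadicAlgCl p :=
  (algebraMap ℚ_[p] (PadicAlgCl p)).comp PadicInt.Coe.ringHom

theorem norm_cz (x : ℤ_[p]) : ‖cz p x‖ = ‖x‖ := by
  change ‖algebraMap ℚ_[p] (PadicAlgCl p) (x : ℚ_[p])‖ = _
  rw [PadicInt.norm_def]
  exact PadicAlgCl.norm_extends p x

theorem continuous_cz : Continuous (cz p) :=
  (AddMonoidHomClass.isometry_of_norm (cz p) norm_cz).continuous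

theorem cz_inj : Function.Injective (cz p) :=
  (AddMonoidHomClass.isometry_of_norm (cz p) norm_cz).injective

theorem norm_int_le (σ : F →+* PadicAlgCl p) (x : 𝓞 F) : ‖σ (x : F)‖ ≤ 1 := by
  rw [← norm_ic]
  apply norm_le_one_of_isIntegral p
  obtain ⟨P, hP, h⟩ := x.isIntegral_coe
  refine ⟨P, hP, ?_⟩
  have h1 := congrArg ((ic p).comp σ) h
  rw [Polynomial.hom_eval₂, map_zero] at h1
  rw [← h1]
  congr 1
  exact RingHom.ext_int _ _

variable {L : PadicAlgCl p → PadicAlgCl p} (hL : IsIwasawaLog p L)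

include hL in
theorem log_H (σ : F →+* PadicAlgCl p) {N : ℕ} (hN : 3 ≤ N) {x : (𝓞 F)ˣ} (hx : x ∈ H F p N) :
    ‖L (σ ((x : 𝓞 F) : F))‖ ≤ (p : ℝ)⁻¹ ^ N := by
  rw [mem_H] at hx
  obtain ⟨y, hy⟩ := hx
  have hp2 : (2 : ℝ) ≤ p := by exact_mod_cast hp.out.two_le
  have hpi : (p : ℝ)⁻¹ ≤ 1 := inv_le_one_of_one_le₀ (by linarith)
  set z : PadicAlgCl p := σ ((x : 𝓞 F) : F) - 1 with hz
  have h1 : z = (p : PadicAlgCl p) ^ N * σ (y : F) := by
    have := congrArg (fun w : 𝓞 F => σ (w : F)) hy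
    simpa [hz] using this
  have h2 : ‖z‖ ≤ (p : ℝ)⁻¹ ^ N := by
    rw [h1, norm_mul, norm_pow, Pool.Agent.W245.PB.norm_p]
    calc (p : ℝ)⁻¹ ^ N * ‖σ (y : F)‖ ≤ (p : ℝ)⁻¹ ^ N * 1 := by
          gcongr
          exact norm_int_le σ y
      _ = _ := mul_one _
  have h3 : ‖z‖ * (p : ℝ) ^ 3 ≤ 1 := by
    calc ‖z‖ * (p : ℝ) ^ 3 ≤ (p : ℝ)⁻¹ ^ N * (p : ℝ) ^ 3 := by gcongr
      _ ≤ (p : ℝ)⁻¹ ^ 3 * (p : ℝ) ^ 3 := by
          gcongr ?_ * _
          exact pow_le_pow_of_le_one (by positivity) hpi hN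
      _ = 1 := by rw [← mul_pow, inv_mul_cancel₀ (by linarith), one_pow]
  have h4 := hL.approx h3
  have h5 : (p : ℝ) * ‖z‖ ^ 2 ≤ ‖z‖ := by
    have h6 : (p : ℝ) * ‖z‖ ≤ 1 := by
      refine le_trans ?_ h3
      rw [mul_comm]
      gcongr
      calc (p : ℝ) = (p : ℝ) ^ 1 := (pow_one _).symm
        _ ≤ (p : ℝ) ^ 3 := pow_le_pow_right₀ (by linarith) (by norm_num)
    calc (p : ℝ) * ‖z‖ ^ 2 = (p * ‖z‖) * ‖z‖ := by ring
      _ ≤ 1 * ‖z‖ := by gcongr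
      _ = ‖z‖ := one_mul _
  have h7 : σ ((x : 𝓞 F) : F) = 1 + z := by rw [hz]; ring
  rw [h7]
  have h8 : L (1 + z) = (L (1 + z) - z) + z := by ring
  rw [h8]
  exact (IsUltrametricDist.norm_add_le_max _ _).trans (max_le ((h4.trans h5).trans h2) h2)

include hL in
theorem Pg_unit (σ₀ : F →+* PadicAlgCl p) (g : F ≃ₐ[ℚ] F) {n : ℕ} (ε : Fin n → (𝓞 F)ˣ)
    (a : Fin n → ℤ_[p]) : Pg L σ₀ g (fun k => cz p (vec ε a k)) =
      ∑ i, cz p (a i) * L (σ₀ (g ((ε i : 𝓞 F) : F))) := by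
  unfold Pg vec
  have h : ∀ i, L (σ₀ (g ((ε i : 𝓞 F) : F))) = ∑ k, (ev (ε i) k : PadicAlgCl p) *
      L (σ₀ (g ((fundSystem F k : 𝓞 F) : F))) := fun i =>
    log_unit hL (σ₀.comp (g : F →+* F)) (ε i)
  simp only [h, Finset.mul_sum, map_sum, map_mul, map_intCast, Finset.sum_mul]
  rw [Finset.sum_comm]
  exact Finset.sum_congr rfl fun i _ => Finset.sum_congr rfl fun k _ => by ring

include hL in
/-- Relations with `p`-adic exponents are relations between logarithms. -/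
theorem Pg_vec (σ₀ : F →+* PadicAlgCl p) (g : F ≃ₐ[ℚ] F) {n : ℕ} {ε : Fin n → (𝓞 F)ˣ}
    {a : Fin n → ℤ_[p]} (h : Rel F p ε a) : Pg L σ₀ g (fun k => cz p (vec ε a k)) = 0 := by
  rw [Pg_unit hL]
  obtain ⟨m, hm, hmH⟩ := h
  have hp2 : (2 : ℝ) ≤ p := by exact_mod_cast hp.out.two_le
  set f : ℕ → PadicAlgCl p := fun k => ∑ i, (m k i : PadicAlgCl p) *
    L (σ₀ (g ((ε i : 𝓞 F) : F))) with hf
  have h1 : Tendsto f atTop (𝓝 (∑ i, cz p (a i) * L (σ₀ (g ((ε i : 𝓞 F) : F))))) := by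
    refine tendsto_finsetSum _ fun i _ => ?_
    have h2 := (continuous_cz.tendsto (a i)).comp (hm i)
    have h3 : (cz p ∘ fun k => ((m k i : ℤ) : ℤ_[p])) = fun k => (m k i : PadicAlgCl p) := by
      funext k
      exact map_intCast (cz p) _
    rw [h3] at h2
    exact h2.mul tendsto_const_nhds
  have h4 : ∀ k, f k = L ((σ₀.comp (g : F →+* F)) (((∏ i, ε i ^ m k i : (𝓞 F)ˣ) : 𝓞 F) : F)) := by
    intro k
    rw [coe_prod_zpow, map_prod]
    simp only [map_zpow₀]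
    rw [log_prod_zpow hL _ _ (fun i => (isU_unit (ε i)).map (σ₀.comp (g : F →+* F)))]
    rfl
  have h5 : Tendsto f atTop (𝓝 0) := by
    rw [tendsto_zero_iff_norm_tendsto_zero]
    rw [Metric.tendsto_atTop]
    intro δ hδ
    obtain ⟨N, hN⟩ := exists_pow_lt_of_lt_one hδ (inv_lt_one_of_one_lt₀ (by linarith : (1 : ℝ) < p))
    obtain ⟨k₀, hk₀⟩ := eventually_atTop.1 (hmH (max N 3))
    refine ⟨k₀, fun k hk => ?_⟩
    rw [dist_zero_right, norm_norm, h4]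
    refine lt_of_le_of_lt (log_H hL _ (le_max_right _ _) (hk₀ k hk)) (lt_of_le_of_lt ?_ hN)
    exact pow_le_pow_of_le_one (by positivity) (inv_le_one_of_one_le₀ (by linarith)) (le_max_left _ _)
  exact tendsto_nhds_unique h1 h5

end Pool.Agent.V5helper65.LG
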