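import Pool.Agent.V5helper65.LG.S4

/-!
# Galois closures
-/

set_option autoImplicit false

namespace Pool.Agent.V5helper65.LG

open Module Finset NumberField
open scoped commutatorElement
open Pool.Agent.H637R2.Leo (Leopoldt)

section fields

variable {K F : Type} [Field K] [NumberField K] [Field F] [NumberField F] [IsGalois ℚ F]
  {p : ℕ} [hp : Fact p.Prime]

/-- the automorphisms fixing the image of `K` -/
def fixG (j : K →+* F) : Subgroup (F ≃ₐ[ℚ] F) where
  carrier := {g | ∀ x, g (j x) = j x}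
  mul_mem' := by
    intro g h hg hh x
    change g (h (j x)) = j x
    rw [hh, hg]
  one_mem' := fun x => rfl
  inv_mem' := by
    intro g hg x
    change g.symm (j x) = j x
    rw [AlgEquiv.symm_apply_eq, hg]

/-- the image of `K` -/
noncomputable def rangeF (j : K →+* F) : IntermediateField ℚ F := (RingHom.toRatAlgHom j).fieldRange

theorem fixG_eq (j : K →+* F) : fixG j = (rangeF j).fixingSubgroup := by
  ext g
  rw [IntermediateField.mem_fixingSubgroup_iff]
  constructor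
  · rintro h x ⟨y, rfl⟩
    exact h y
  · intro h x
    exact h _ ⟨x, rfl⟩

theorem isFixed_fixG (j : K →+* F) : IsFixed K F (fixG j) := by
  refine ⟨j, fun x hx => ?_⟩
  rw [fixG_eq] at hx
  have h1 : x ∈ IntermediateField.fixedField (rangeF j).fixingSubgroup := by
    rw [IntermediateField.mem_fixedField_iff]
    exact hx
  rw [IsGalois.fixedField_fixingSubgroup] at h1
  obtain ⟨y, hy⟩ := h1
  exact ⟨y, hy⟩

theorem index_fixG (j : K →+* F) : (fixG j).index = finrank ℚ K := by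
  rw [fixG_eq, ← IntermediateField.finrank_eq_fixingSubgroup_index]
  exact ((AlgEquiv.ofInjectiveField (RingHom.toRatAlgHom j)).toLinearEquiv.finrank_eq).symm

/-- `F` is generated by the conjugates of `K`. -/
def IsClosure (j : K →+* F) : Prop :=
  ∀ E : IntermediateField ℚ F, (∀ (g : F ≃ₐ[ℚ] F) (x : K), g (j x) ∈ E) → E = ⊤

theorem corefree {j : K →+* F} (hj : IsClosure j) (g : F ≃ₐ[ℚ] F)
    (hg : ∀ h : F ≃ₐ[ℚ] F, h⁻¹ * g * h ∈ fixG j) : g = 1 := by
  have h1 := hj (IntermediateField.fixedField (Subgroup.zpowers g)) (by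
    intro h x
    rw [IntermediateField.mem_fixedField_iff]
    have h2 : h⁻¹ * g * h ∈ fixG j := hg h
    have h3 : g (h (j x)) = h (j x) := by
      have h4 : h⁻¹ (g (h (j x))) = j x := h2 x
      have h5 := congrArg h h4
      have h6 : h (h⁻¹ (g (h (j x)))) = g (h (j x)) := h.apply_symm_apply _
      rw [h6] at h5
      exact h5
    intro f hf
    obtain ⟨n, rfl⟩ := Subgroup.mem_zpowers_iff.1 hf
    have h4 : ∀ y : F, g y = y → ∀ n : ℤ, (g ^ n) y = y := by
      intro y hy n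
      have h5 : g ∈ MulAction.stabilizer (F ≃ₐ[ℚ] F) y := hy
      exact (MulAction.stabilizer (F ≃ₐ[ℚ] F) y).zpow_mem h5 n
    exact h4 _ h3 n)
  ext x
  have h2 : x ∈ IntermediateField.fixedField (Subgroup.zpowers g) := by rw [h1]; trivial
  rw [IntermediateField.mem_fixedField_iff] at h2
  exact h2 g (Subgroup.mem_zpowers g)

/-- complex conjugation -/
theorem exists_conj (τ : F →+* ℂ) : ∃ c : F ≃ₐ[ℚ] F, ∀ x, τ (c x) = (starRingEnd ℂ) (τ x) := by
  obtain ⟨g, hg⟩ := NumberField.ComplexEmbedding.exists_comp_symm_eq_of_comp_eq (k := ℚ) τ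
    ((starRingEnd ℂ).comp τ) (RingHom.ext_rat _ _)
  refine ⟨g.symm, fun x => ?_⟩
  exact congrArg (fun f : F →+* ℂ => f x) hg

/-- transfer from a subfield -/
theorem transfer (j : K →+* F) (τ : F →+* ℂ) (c : F ≃ₐ[ℚ] F)
    (hc : ∀ x, τ (c x) = (starRingEnd ℂ) (τ x))
    (h : ∀ (V : Type) [AddCommGroup V] [Module ℂ V] [FiniteDimensional ℂ V]
      (ρ : Representation ℂ (F ≃ₐ[ℚ] F) V), Irred ρ →
      (∀ v : V, (∀ g ∈ fixG j, ρ g v = v) → v = 0) → Small ρ c)
    (hL : Leopoldt K p) : Leopoldt F p := by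
  apply criterion τ c hc
  intro V _ _ _ ρ hρ ⟨v, v', hv, hv', hv0, hne⟩
  by_contra hcon
  push Not at hcon
  have h1 : ∀ v : V, (∀ g ∈ fixG j, ρ g v = v) → v = 0 := by
    intro w hw
    by_contra hw0
    obtain ⟨g, hg, hgw⟩ := hcon K inferInstance inferInstance (fixG j) (isFixed_fixG j) hL w hw0
    exact hgw (hw g hg)
  obtain ⟨κ, hκ⟩ := h V ρ hρ h1 v v' hv hv' hv0
  exact hne κ hκ

end fields

section groups

variable {G : Type} [Group G] [Finite G] {H : Subgroup G}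

/-- the affine structure of solvable groups of prime degree -/
theorem prime_affine [Group.IsSolvable G] {l : ℕ} (hl : l.Prime) (hidx : H.index = l)
    (hcore : ∀ g : G, (∀ h : G, h⁻¹ * g * h ∈ H) → g = 1) :
    ∃ N : Subgroup G, N.Normal ∧ (∀ g ∈ N, g ∈ H → g = 1) ∧ (∀ g : G, ∃ n ∈ N, ∃ h ∈ H, g = n * h) ∧
      (∀ h ∈ H, h ≠ 1 → ∀ n ∈ N, h * n = n * h → n = 1) ∧ ∀ g ∈ H, ∀ h ∈ H, g * h = h * g := by
  classical
  -- an abelian normal subgroup
  have hHtop : H ≠ ⊤ := by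
    rintro rfl
    rw [Subgroup.index_top] at hidx
    exact hl.one_lt.ne hidx
  have hGnt : (⊤ : Subgroup G) ≠ ⊥ := by
    intro h
    apply hHtop
    rw [eq_top_iff, h]
    exact bot_le
  obtain ⟨n₀, hn₀⟩ := (Group.isSolvable_def G).1 inferInstance
  have hex : ∃ n, derivedSeries G n = ⊥ := ⟨n₀, hn₀⟩
  obtain ⟨k, hk⟩ : ∃ k, Nat.find hex = k + 1 := by
    refine Nat.exists_eq_succ_of_ne_zero ?_
    intro h0
    have := Nat.find_spec hex
    rw [h0, derivedSeries_zero] at this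
    exact hGnt this
  set N := derivedSeries G k with hN
  have hN0 : N ≠ ⊥ := Nat.find_min hex (by omega)
  have hNab : ∀ x ∈ N, ∀ y ∈ N, x * y = y * x := by
    have h1 : ⁅N, N⁆ = ⊥ := by
      have := Nat.find_spec hex
      rw [hk, derivedSeries_succ] at this
      exact this
    intro x hx y hy
    have h2 : ⁅x, y⁆ ∈ ⁅N, N⁆ := Subgroup.commutator_mem_commutator hx hy
    rw [h1, Subgroup.mem_bot] at h2
    exact commutatorElement_eq_one_iff_mul_comm.1 h2
  haveI hNn : N.Normal := derivedSeries_normal G k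
  -- `N H = G`
  have hsup : N ⊔ H = ⊤ := by
    have h1 : H ≤ N ⊔ H := le_sup_right
    have h2 : (N ⊔ H).index ∣ l := by
      rw [← hidx]
      exact Subgroup.index_dvd_of_le h1
    rcases (Nat.dvd_prime hl).1 h2 with h3 | h3
    · exact Subgroup.index_eq_one.1 h3
    · exfalso
      have h4 : H = N ⊔ H := by
        refine le_antisymm h1 ?_
        have h5 : H.relIndex (N ⊔ H) * (N ⊔ H).index = H.index := Subgroup.relIndex_mul_index h1
        rw [h3, hidx] at h5
        have h6 : H.relIndex (N ⊔ H) = 1 := by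
          have := hl.pos
          exact Nat.eq_of_mul_eq_mul_right this (by rw [h5, one_mul])
        exact Subgroup.relIndex_eq_one.1 h6
      have h5 : N ≤ H := by rw [h4]; exact le_sup_left
      apply hN0
      rw [Subgroup.eq_bot_iff_forall]
      intro x hx
      apply hcore
      intro h
      apply h5
      have := hNn.conj_mem x hx h⁻¹
      rwa [inv_inv] at this
  have hprod : ∀ g : G, ∃ n ∈ N, ∃ h ∈ H, g = n * h := by
    intro g
    have h1 : g ∈ ((N ⊔ H : Subgroup G) : Set G) := by rw [hsup]; trivial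
    rw [Subgroup.normal_mul] at h1
    obtain ⟨n, hn, h, hh, rfl⟩ := Set.mem_mul.1 h1
    exact ⟨n, hn, h, hh, rfl⟩
  -- `N ∩ H = 1`
  have hNH : ∀ g ∈ N, g ∈ H → g = 1 := by
    intro g hg hgH
    apply hcore
    intro x
    obtain ⟨n, hn, h, hh, rfl⟩ := hprod x
    have h1 : (n * h)⁻¹ * g * (n * h) = h⁻¹ * g * h := by
      have h2 : n⁻¹ * g * n = g := by
        rw [mul_assoc, hNab g hg n hn, inv_mul_cancel_left]
      calc (n * h)⁻¹ * g * (n * h) = h⁻¹ * (n⁻¹ * g * n) * h := by group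
        _ = _ := by rw [h2]
    rw [h1]
    exact H.mul_mem (H.mul_mem (H.inv_mem hh) hgH) hh
  -- the order of `N`
  have hcardN : Nat.card N = l := by
    have h1 : Function.Bijective (fun x : N × H => (x.1 : G) * x.2) := by
      constructor
      · rintro ⟨⟨n, hn⟩, ⟨h, hh⟩⟩ ⟨⟨n', hn'⟩, ⟨h', hh'⟩⟩ heq
        have heq' : n * h = n' * h' := heq
        have h2 : n'⁻¹ * n = h' * h⁻¹ := by
          rw [inv_mul_eq_iff_eq_mul, ← mul_assoc, ← heq', mul_inv_cancel_right]
        have h3 := hNH (n'⁻¹ * n) (N.mul_mem (N.inv_mem hn') hn) (by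
          rw [h2]; exact H.mul_mem hh' (H.inv_mem hh))
        have h4 : n = n' := (inv_mul_eq_one.1 h3).symm
        subst h4
        have h5 : h = h' := mul_left_cancel heq'
        subst h5
        rfl
      · intro g
        obtain ⟨n, hn, h, hh, rfl⟩ := hprod g
        exact ⟨(⟨n, hn⟩, ⟨h, hh⟩), rfl⟩
    have h2 := Nat.card_eq_of_bijective _ h1
    rw [Nat.card_prod, ← Subgroup.index_mul_card H, hidx] at h2
    exact Nat.eq_of_mul_eq_mul_right Nat.card_pos h2
  -- generation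
  have hgen : ∀ n ∈ N, n ≠ 1 → ∀ m ∈ N, ∃ k : ℤ, m = n ^ k := by
    intro n hn hn1 m hm
    haveI : Fact l.Prime := ⟨hl⟩
    have h1 := mem_zpowers_of_prime_card (G := N) (p := l) hcardN (g := ⟨n, hn⟩) (g' := ⟨m, hm⟩)
      (fun h => hn1 (congrArg Subtype.val h))
    obtain ⟨k, hk⟩ := Subgroup.mem_zpowers_iff.1 h1
    refine ⟨k, ?_⟩
    have := congrArg Subtype.val hk
    simpa using this.symm
  -- the centraliser
  have hcent : ∀ h ∈ H, (∀ n ∈ N, h * n = n * h) → h = 1 := by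
    intro h hh hcomm
    apply hcore
    intro x
    obtain ⟨n, hn, h', hh', rfl⟩ := hprod x
    have h1 : (n * h')⁻¹ * h * (n * h') = h'⁻¹ * h * h' := by
      have h2 : n⁻¹ * h * n = h := by
        rw [mul_assoc, hcomm n hn, inv_mul_cancel_left]
      calc (n * h')⁻¹ * h * (n * h') = h'⁻¹ * (n⁻¹ * h * n) * h' := by group
        _ = _ := by rw [h2]
    rw [h1]
    exact H.mul_mem (H.mul_mem (H.inv_mem hh') hh) hh'
  have hfree : ∀ h ∈ H, h ≠ 1 → ∀ n ∈ N, h * n = n * h → n = 1 := by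
    intro h hh h1 n hn hcomm
    by_contra hn1
    apply h1
    apply hcent h hh
    intro m hm
    obtain ⟨k, rfl⟩ := hgen n hn hn1 m hm
    exact (Commute.zpow_right (show Commute h n from hcomm) k)
  refine ⟨N, hNn, hNH, hprod, hfree, ?_⟩
  intro g hg h hh
  obtain ⟨n₁, hn₁⟩ := (Subgroup.ne_bot_iff_exists_ne_one.1 hN0)
  obtain ⟨a, ha⟩ := hgen n₁ n₁.2 (fun h0 => hn₁ (Subtype.ext h0)) (g * n₁ * g⁻¹)
    (hNn.conj_mem _ n₁.2 g)
  obtain ⟨b, hb⟩ := hgen n₁ n₁.2 (fun h0 => hn₁ (Subtype.ext h0)) (h * n₁ * h⁻¹)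
    (hNn.conj_mem _ n₁.2 h)
  have hga : ∀ k : ℤ, g * (n₁ : G) ^ k * g⁻¹ = (n₁ : G) ^ (a * k) := by
    intro k
    rw [← conj_zpow, ha, zpow_mul]
  have hhb : ∀ k : ℤ, h * (n₁ : G) ^ k * h⁻¹ = (n₁ : G) ^ (b * k) := by
    intro k
    rw [← conj_zpow, hb, zpow_mul]
  have h1 : (h * g)⁻¹ * (g * h) = 1 := by
    apply hcent _ (H.mul_mem (H.inv_mem (H.mul_mem hh hg)) (H.mul_mem hg hh))
    intro m hm
    obtain ⟨k, rfl⟩ := hgen n₁ n₁.2 (fun h0 => hn₁ (Subtype.ext h0)) m hm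
    have h2 : g * h * (n₁ : G) ^ k * (g * h)⁻¹ = (n₁ : G) ^ (a * (b * k)) := by
      calc g * h * (n₁ : G) ^ k * (g * h)⁻¹ = g * (h * (n₁ : G) ^ k * h⁻¹) * g⁻¹ := by group
        _ = _ := by rw [hhb, hga]
    have h3 : h * g * (n₁ : G) ^ k * (h * g)⁻¹ = (n₁ : G) ^ (b * (a * k)) := by
      calc h * g * (n₁ : G) ^ k * (h * g)⁻¹ = h * (g * (n₁ : G) ^ k * g⁻¹) * h⁻¹ := by group
        _ = _ := by rw [hga, hhb]
    have h4 : g * h * (n₁ : G) ^ k * (g * h)⁻¹ = h * g * (n₁ : G) ^ k * (h * g)⁻¹ := by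
      rw [h2, h3]; congr 1; ring
    calc (h * g)⁻¹ * (g * h) * (n₁ : G) ^ k
        = (h * g)⁻¹ * (g * h * (n₁ : G) ^ k * (g * h)⁻¹) * (g * h) := by group
      _ = (h * g)⁻¹ * (h * g * (n₁ : G) ^ k * (h * g)⁻¹) * (g * h) := by rw [h4]
      _ = _ := by group
  exact (inv_mul_eq_one.1 h1).symm

end groups

end Pool.Agent.V5helper65.LG
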