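import Pool.Agent.V5helper65.LG.EKW

/-!
# The representation criterion
-/

set_option autoImplicit false

namespace Pool.Agent.V5helper65.LG

open Module Finset NumberField NumberField.Units Filter Topology
open Pool.Agent.W254.PA Pool.Agent.W254.Ab
open Pool.Agent.W245.PB (IsIwasawaLog brumer)
open Pool.Agent.H637R2.Leo (Leopoldt H mem_H padic_indep_of_int_indep)

variable {F : Type} [Field F] [NumberField F] {p : ℕ} [hp : Fact p.Prime]

/-- the image of a vector of `p`-adic integers -/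
noncomputable def cv (p : ℕ) [Fact p.Prime] (v : Fin (rank F) → ℤ_[p]) :
    Fin (rank F) → PadicAlgCl p := fun k => cz p (v k)

/-- the space spanned by the relations -/
noncomputable def W (F : Type) [Field F] [NumberField F] (p : ℕ) [Fact p.Prime] :
    Submodule (PadicAlgCl p) (Fin (rank F) → PadicAlgCl p) :=
  Submodule.span (PadicAlgCl p) {w | ∃ (n : ℕ) (ε : Fin n → (𝓞 F)ˣ) (a : Fin n → ℤ_[p]),
    Rel F p ε a ∧ w = cv p (vec ε a)}

theorem Tm_cv (g : F ≃ₐ[ℚ] F) {n : ℕ} (ε : Fin n → (𝓞 F)ˣ) (a : Fin n → ℤ_[p]) :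
    Tm p g (cv p (vec ε a)) = cv p (vec (fun i => gU g (ε i)) a) := by
  funext l
  rw [Tm_apply]
  unfold cv
  rw [vec_gU, map_sum]
  refine Finset.sum_congr rfl fun k _ => ?_
  rw [map_mul, map_intCast]

theorem W_Tm (g : F ≃ₐ[ℚ] F) {b : Fin (rank F) → PadicAlgCl p} (hb : b ∈ W F p) :
    Tm p g b ∈ W F p := by
  unfold W at hb ⊢
  refine Submodule.span_induction (p := fun b _ => Tm p g b ∈ Submodule.span (PadicAlgCl p) _)
    ?_ ?_ ?_ ?_ hb
  · rintro b ⟨n, ε, a, hr, rfl⟩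
    exact Submodule.subset_span ⟨n, _, a, Rel_gU g hr, Tm_cv g ε a⟩
  · rw [map_zero]; exact Submodule.zero_mem _
  · intro b c _ _ h1 h2
    rw [map_add]; exact Submodule.add_mem _ h1 h2
  · intro c b _ h1
    rw [map_smul]; exact Submodule.smul_mem _ c h1

theorem W_Pg {L : PadicAlgCl p → PadicAlgCl p} (hL : IsIwasawaLog p L) (σ₀ : F →+* PadicAlgCl p)
    {b : Fin (rank F) → PadicAlgCl p} (hb : b ∈ W F p) : Pg L σ₀ 1 b = 0 := by
  unfold W at hb
  refine Submodule.span_induction (p := fun b _ => Pg L σ₀ 1 b = 0) ?_ ?_ ?_ ?_ hb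
  · rintro b ⟨n, ε, a, hr, rfl⟩
    exact Pg_vec hL σ₀ 1 hr
  · unfold Pg; simp
  · intro b c _ _ h1 h2
    unfold Pg at h1 h2 ⊢
    simp only [Pi.add_apply, add_mul, Finset.sum_add_distrib, h1, h2, add_zero]
  · intro c b _ h1
    unfold Pg at h1 ⊢
    simp only [Pi.smul_apply, smul_eq_mul, mul_assoc, ← Finset.mul_sum, h1, mul_zero]

theorem W_norm [IsGalois ℚ F] {K : Type} [Field K] [NumberField K] (G₀ : Subgroup (F ≃ₐ[ℚ] F))
    (j : K →+* F) (hj : ∀ x : F, (∀ g ∈ G₀, g x = x) → x ∈ Set.range j) (hL : Leopoldt K p)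
    [Fintype G₀] {b : Fin (rank F) → PadicAlgCl p} (hb : b ∈ W F p) :
    ∑ g : G₀, Tm p (g : F ≃ₐ[ℚ] F) b = 0 := by
  unfold W at hb
  refine Submodule.span_induction (p := fun b _ => ∑ g : G₀, Tm p (g : F ≃ₐ[ℚ] F) b = 0)
    ?_ ?_ ?_ ?_ hb
  · rintro b ⟨n, ε, a, hr, rfl⟩
    simp only [Tm_cv]
    have h := norm_kills G₀ j hj hL hr
    funext l
    have h1 := congrFun h l
    rw [Finset.sum_apply] at h1 ⊢
    unfold cv
    rw [← map_sum, h1]
    exact map_zero _
  · simp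
  · intro b c _ _ h1 h2
    simp only [map_add, Finset.sum_add_distrib, h1, h2, add_zero]
  · intro c b _ h1
    simp only [map_smul, ← Finset.smul_sum, h1, smul_zero]

/-- The field `K` is (isomorphic to) the field of the elements of `F` fixed by `G₀`. -/
def IsFixed (K F : Type) [Field K] [Field F] [Algebra ℚ F] (G₀ : Subgroup (F ≃ₐ[ℚ] F)) : Prop :=
  ∃ j : K →+* F, ∀ x : F, (∀ g ∈ G₀, g x = x) → x ∈ Set.range j

/-- A representation without nontrivial subrepresentations. -/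
def Irred {G V : Type} [Group G] [AddCommGroup V] [Module ℂ V] (ρ : Representation ℂ G V) : Prop :=
  Nontrivial V ∧ ∀ U : Submodule ℂ V, (∀ g, ∀ u ∈ U, ρ g u ∈ U) → U = ⊥ ∨ U = ⊤

/-- **The representation criterion.** -/
theorem criterion [IsGalois ℚ F] (τ : F →+* ℂ) (c : F ≃ₐ[ℚ] F)
    (hc : ∀ x, τ (c x) = (starRingEnd ℂ) (τ x))
    (hrep : ∀ (V : Type) [AddCommGroup V] [Module ℂ V] [FiniteDimensional ℂ V]
      (ρ : Representation ℂ (F ≃ₐ[ℚ] F) V), Irred ρ →
      (∃ v v' : V, ρ c v = v ∧ ρ c v' = v' ∧ v ≠ 0 ∧ ∀ κ : ℂ, v' ≠ κ • v) →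
      ∃ (K : Type) (_ : Field K) (_ : NumberField K) (G₀ : Subgroup (F ≃ₐ[ℚ] F)),
        IsFixed K F G₀ ∧ Leopoldt K p ∧ ∃ v : V, v ≠ 0 ∧ ∀ g ∈ G₀, ρ g v = v) :
    Leopoldt F p := by
  classical
  obtain ⟨L, hL⟩ := Pool.Agent.R350.exists_log p
  obtain ⟨θ⟩ := exists_theta' p
  have σ₀ : F →+* PadicAlgCl p := (IsAlgClosed.lift (R := ℚ) (S := F) (M := PadicAlgCl p)).toRingHom
  by_contra hcon
  -- the space of relations is not zero
  have hW : W F p ≠ ⊥ := by
    intro hW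
    apply hcon
    apply leopoldt_of_vec
    intro n ε a hr
    have h1 : cv p (vec ε a) ∈ W F p := Submodule.subset_span ⟨n, ε, a, hr, rfl⟩
    rw [hW, Submodule.mem_bot] at h1
    funext k
    apply cz_inj
    have := congrFun h1 k
    rw [Pi.zero_apply, map_zero]
    exact this
  -- a minimal stable subspace
  have hex : ∃ n : ℕ, ∃ V : Submodule (PadicAlgCl p) (Fin (rank F) → PadicAlgCl p),
      V ≤ W F p ∧ V ≠ ⊥ ∧ (∀ g, ∀ b ∈ V, Tm p g b ∈ V) ∧ finrank (PadicAlgCl p) V = n :=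
    ⟨_, W F p, le_rfl, hW, fun g b hb => W_Tm g hb, rfl⟩
  obtain ⟨V, hVW, hne, hV, hVn⟩ := Nat.find_spec hex
  have hmin : ∀ U : Submodule (PadicAlgCl p) (Fin (rank F) → PadicAlgCl p), U ≤ V → U ≠ ⊥ →
      (∀ g, ∀ b ∈ U, Tm p g b ∈ U) → U = V := by
    intro U hU hU0 hUs
    have h1 := Nat.find_min' hex ⟨U, hU.trans hVW, hU0, hUs, rfl⟩
    exact Submodule.eq_of_le_of_finrank_le hU (by rw [hVn]; exact h1)
  -- transport
  letI : Module ℂ V := Module.compHom V (θ.symm : ℂ →+* PadicAlgCl p)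
  have hsm : ∀ (z : ℂ) (w : V), z • w = θ.symm z • w := fun z w => rfl
  haveI : FiniteDimensional ℂ V := by
    have hr : Module.rank (PadicAlgCl p) V = Module.rank ℂ V :=
      rank_eq_of_equiv_equiv θ (AddEquiv.refl V) θ.bijective (by
        intro r m
        change r • m = θ.symm (θ r) • m
        rw [θ.symm_apply_apply])
    apply Module.rank_lt_aleph0_iff.mp
    rw [← hr]
    exact Module.rank_lt_aleph0_iff.mpr inferInstance
  let ρ : Representation ℂ (F ≃ₐ[ℚ] F) V :=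
    { toFun := fun g =>
        { toFun := fun b => ⟨Tm p g b, hV g b b.2⟩
          map_add' := fun a b => Subtype.ext (map_add _ _ _)
          map_smul' := fun z b => Subtype.ext (map_smul (Tm p g) (θ.symm z) (b : Fin (rank F) → PadicAlgCl p)) }
      map_one' := by
        ext b
        exact congrFun (Tm_one _) _
      map_mul' := by
        intro g h
        ext b
        exact congrFun (Tm_mul g h _) _ }
  have hρ : ∀ g (b : V), ((ρ g b : V) : Fin (rank F) → PadicAlgCl p) = Tm p g b := fun g b => rfl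
  have hirr : Irred ρ := by
    refine ⟨(Submodule.nontrivial_iff_ne_bot).mpr hne, fun U hU => ?_⟩
    let U' : Submodule (PadicAlgCl p) (Fin (rank F) → PadicAlgCl p) :=
      { carrier := {b | ∃ h : b ∈ V, (⟨b, h⟩ : V) ∈ U}
        add_mem' := by
          rintro a b ⟨ha, ha'⟩ ⟨hb, hb'⟩
          exact ⟨V.add_mem ha hb, U.add_mem ha' hb'⟩
        zero_mem' := ⟨V.zero_mem, U.zero_mem⟩
        smul_mem' := by
          rintro z b ⟨hb, hb'⟩
          refine ⟨V.smul_mem z hb, ?_⟩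
          have h1 := U.smul_mem (θ z) hb'
          rw [hsm, θ.symm_apply_apply] at h1
          exact h1 }
    have hU'V : U' ≤ V := fun b hb => hb.1
    by_cases h0 : U' = ⊥
    · left
      rw [Submodule.eq_bot_iff]
      intro u hu
      have h1 : (u : Fin (rank F) → PadicAlgCl p) ∈ U' := ⟨u.2, hu⟩
      rw [h0, Submodule.mem_bot] at h1
      exact Subtype.ext h1
    · right
      have h1 := hmin U' hU'V h0 (by
        rintro g b ⟨hb, hb'⟩
        exact ⟨hV g b hb, hU g _ hb'⟩)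
      rw [Submodule.eq_top_iff']
      intro u
      have h2 : (u : Fin (rank F) → PadicAlgCl p) ∈ U' := by rw [h1]; exact u.2
      exact h2.2
  -- two cases
  by_cases hc2 : ∃ v v' : V, ρ c v = v ∧ ρ c v' = v' ∧ v ≠ 0 ∧ ∀ κ : ℂ, v' ≠ κ • v
  · obtain ⟨K, _, _, G₀, ⟨j, hj⟩, hLK, v, hv0, hv⟩ := hrep V ρ hirr hc2
    haveI : Fintype G₀ := Fintype.ofFinite G₀
    have h1 := W_norm G₀ j hj hLK (hVW v.2)
    have h2 : ∀ g : G₀, Tm p (g : F ≃ₐ[ℚ] F) (v : Fin (rank F) → PadicAlgCl p) = v := by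
      intro g
      rw [← hρ, hv g g.2]
    simp only [h2] at h1
    rw [Finset.sum_const, Finset.card_univ] at h1
    have h3 : (Fintype.card G₀ : PadicAlgCl p) • (v : Fin (rank F) → PadicAlgCl p) = 0 := by
      rw [Nat.cast_smul_eq_nsmul]; exact h1
    rcases smul_eq_zero.1 h3 with h4 | h4
    · exact absurd h4 (Nat.cast_ne_zero.2 Fintype.card_ne_zero)
    · exact hv0 (Subtype.ext h4)
  · push Not at hc2
    refine no_small hL σ₀ τ hc V hV hne ?_ (fun b hb => W_Pg hL σ₀ (hVW hb))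
    intro b hb b' hb' h1 h2 h3
    obtain ⟨κ, hκ⟩ := hc2 ⟨b, hb⟩ ⟨b', hb'⟩ (Subtype.ext h1) (Subtype.ext h2)
      (fun h => h3 (congrArg Subtype.val h))
    exact ⟨θ.symm κ, congrArg Subtype.val hκ⟩

end Pool.Agent.V5helper65.LG
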