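import Pool.Agent.V5helper65.LG.Bridge

/-!
# Subrepresentations of multiplicity one contain no relations
-/

set_option autoImplicit false

namespace Pool.Agent.V5helper65.LG

open Module Finset NumberField NumberField.Units Filter Topology
open Pool.Agent.W254.PA Pool.Agent.W254.Ab
open Pool.Agent.W245.PB (IsIwasawaLog brumer)

variable {F : Type} [Field F] [NumberField F] {p : ℕ} [hp : Fact p.Prime]

section X

variable (θ : PadicAlgCl p ≃+* ℂ) (τ : F →+* ℂ)

/-- the complex pairing -/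
noncomputable def X (b : Fin (rank F) → PadicAlgCl p) (g : F ≃ₐ[ℚ] F) : ℂ :=
  ∑ k, θ (b k) * (Real.log ‖τ (g ((fundSystem F k : 𝓞 F) : F))‖ : ℂ)

theorem X_Tm (g h : F ≃ₐ[ℚ] F) (b : Fin (rank F) → PadicAlgCl p) :
    X θ τ (Tm p h b) g = X θ τ b (g * h) := by
  unfold X
  simp only [Tm_apply, map_sum, map_mul, map_intCast, Finset.sum_mul]
  rw [Finset.sum_comm]
  refine Finset.sum_congr rfl fun k _ => ?_
  have h1 := log_unit_real (τ.comp (g : F →+* F)) (gU h (fundSystem F k))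
  have h2 : (τ.comp (g : F →+* F)) ((gU h (fundSystem F k) : 𝓞 F) : F) =
      τ ((g * h) ((fundSystem F k : 𝓞 F) : F)) := rfl
  rw [h2] at h1
  rw [h1]
  push_cast
  rw [Finset.mul_sum]
  refine Finset.sum_congr rfl fun l _ => ?_
  change θ (b k) * ((ev (gU h (fundSystem F k)) l : ℤ) : ℂ) * _ = _
  rw [mul_assoc]
  rfl

theorem X_add (b b' : Fin (rank F) → PadicAlgCl p) (g : F ≃ₐ[ℚ] F) :
    X θ τ (b + b') g = X θ τ b g + X θ τ b' g := by
  unfold X
  rw [← Finset.sum_add_distrib]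
  refine Finset.sum_congr rfl fun k _ => ?_
  rw [Pi.add_apply, map_add, add_mul]

theorem X_smul (κ : PadicAlgCl p) (b : Fin (rank F) → PadicAlgCl p) (g : F ≃ₐ[ℚ] F) :
    X θ τ (κ • b) g = θ κ * X θ τ b g := by
  unfold X
  rw [Finset.mul_sum]
  refine Finset.sum_congr rfl fun k _ => ?_
  rw [Pi.smul_apply, smul_eq_mul, map_mul, mul_assoc]

theorem X_inj [IsGalois ℚ F] {b : Fin (rank F) → PadicAlgCl p} (h : ∀ g, X θ τ b g = 0) :
    b = 0 := by
  have h1 := dirichlet_gal F τ (fun k => θ (b k)) h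
  funext k
  have h2 := congrFun h1 k
  exact (map_eq_zero θ).1 h2

theorem X_conj {c : F ≃ₐ[ℚ] F} (hc : ∀ x, τ (c x) = (starRingEnd ℂ) (τ x))
    (b : Fin (rank F) → PadicAlgCl p) : X θ τ b c = X θ τ b 1 := by
  unfold X
  refine Finset.sum_congr rfl fun k _ => ?_
  rw [hc, RCLike.norm_conj]
  rfl

theorem conj_sq {c : F ≃ₐ[ℚ] F} (hc : ∀ x, τ (c x) = (starRingEnd ℂ) (τ x)) : c * c = 1 := by
  ext x
  apply τ.injective
  change τ (c (c x)) = τ x
  rw [hc, hc, Complex.conj_conj]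

include θ in
/-- Equivariant maps are scalar on subrepresentations with at most one dimension of vectors fixed
by complex conjugation. -/
theorem scalar_of_small [IsGalois ℚ F] {c : F ≃ₐ[ℚ] F}
    (hc : ∀ x, τ (c x) = (starRingEnd ℂ) (τ x))
    (V : Submodule (PadicAlgCl p) (Fin (rank F) → PadicAlgCl p))
    (hV : ∀ g, ∀ b ∈ V, Tm p g b ∈ V) (hne : V ≠ ⊥)
    (hdim : ∀ b ∈ V, ∀ b' ∈ V, Tm p c b = b → Tm p c b' = b' → b ≠ 0 → ∃ κ : PadicAlgCl p,
      b' = κ • b)
    (T : (Fin (rank F) → PadicAlgCl p) →ₗ[PadicAlgCl p] (Fin (rank F) → PadicAlgCl p))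
    (hT : ∀ g b, T (Tm p g b) = Tm p g (T b)) : ∃ κ : PadicAlgCl p, ∀ b ∈ V, T b = κ • b := by
  set f : (Fin (rank F) → PadicAlgCl p) → ℂ := fun b => X θ τ b 1 with hf
  have hfc : ∀ b, f (Tm p c b) = f b := by
    intro b
    rw [hf]
    simp only
    rw [X_Tm, one_mul, X_conj θ τ hc]
  have hcc : ∀ b, Tm p c (b + Tm p c b) = b + Tm p c b := by
    intro b
    rw [map_add, ← Tm_mul, conj_sq τ hc, Tm_one, add_comm]
  have hf2 : ∀ b, f (b + Tm p c b) = 2 * f b := by
    intro b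
    have : f (b + Tm p c b) = f b + f (Tm p c b) := X_add θ τ _ _ _
    rw [this, hfc]; ring
  have hfX : ∀ b g, X θ τ b g = f (Tm p g b) := by
    intro b g
    rw [hf]
    simp only
    rw [X_Tm, one_mul]
  by_cases hA : ∀ b ∈ V, Tm p c b = b → f b = 0
  · exfalso
    apply hne
    rw [Submodule.eq_bot_iff]
    intro b hb
    apply X_inj θ τ
    intro g
    rw [hfX]
    have h1 := hV g b hb
    have h2 := hA _ (V.add_mem h1 (hV c _ h1)) (hcc _)
    rw [hf2] at h2
    exact (mul_eq_zero.1 h2).resolve_left two_ne_zero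
  · push Not at hA
    obtain ⟨v₀, hv₀, hcv₀, hfv₀⟩ := hA
    have hv0 : v₀ ≠ 0 := by
      rintro rfl
      apply hfv₀
      rw [hf]
      simp [X]
    set κ : PadicAlgCl p := θ.symm (f (T v₀) / f v₀) with hκ
    have hθκ : θ κ = f (T v₀) / f v₀ := θ.apply_symm_apply _
    have key : ∀ b ∈ V, f (T b) = θ κ * f b := by
      intro b hb
      obtain ⟨μ, hμ⟩ := hdim v₀ hv₀ _ (V.add_mem hb (hV c b hb)) hcv₀ (hcc b) hv0
      have h1 : 2 * f b = θ μ * f v₀ := by
        rw [← hf2, hμ]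
        exact X_smul θ τ _ _ _
      have h2 : 2 * f (T b) = θ μ * f (T v₀) := by
        rw [← hf2, ← hT, ← map_add, hμ, map_smul]
        exact X_smul θ τ _ _ _
      have h3 : (2 : ℂ) * f (T b) = 2 * (θ κ * f b) := by
        rw [h2, hθκ]
        calc θ μ * f (T v₀) = (θ μ * f v₀) * (f (T v₀) / f v₀) := by
              field_simp
          _ = 2 * f b * (f (T v₀) / f v₀) := by rw [h1]
          _ = _ := by ring
      exact mul_left_cancel₀ two_ne_zero h3
    refine ⟨κ, fun b hb => ?_⟩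
    rw [← sub_eq_zero]
    apply X_inj θ τ
    intro g
    have h4 : T b - κ • b = T b + (-κ) • b := by rw [neg_smul, sub_eq_add_neg]
    rw [h4, X_add, X_smul, hfX, hfX, ← hT, key _ (hV g b hb), map_neg]
    ring

end X

section rational

/-- averaged matrices -/
noncomputable def avg [Fintype (F ≃ₐ[ℚ] F)] (S : Matrix (Fin (rank F)) (Fin (rank F)) ℤ) :
    Matrix (Fin (rank F)) (Fin (rank F)) ℤ :=
  ∑ g : F ≃ₐ[ℚ] F, Cm g⁻¹ * S * Cm g

theorem avg_comm [Fintype (F ≃ₐ[ℚ] F)] (S : Matrix (Fin (rank F)) (Fin (rank F)) ℤ)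
    (h : F ≃ₐ[ℚ] F) : avg S * Cm h = Cm h * avg S := by
  unfold avg
  rw [Finset.sum_mul, Finset.mul_sum]
  refine Fintype.sum_equiv (Equiv.mulLeft h) _ _ fun g => ?_
  change Cm g⁻¹ * S * Cm g * Cm h = Cm h * (Cm (h * g)⁻¹ * S * Cm (h * g))
  rw [mul_assoc (Cm g⁻¹ * S), ← Cm_mul, ← mul_assoc, ← mul_assoc, ← Cm_mul]
  congr 3
  group

/-- the operator of an integral matrix -/
noncomputable def op (p : ℕ) [Fact p.Prime] (S : Matrix (Fin (rank F)) (Fin (rank F)) ℤ) :
    (Fin (rank F) → PadicAlgCl p) →ₗ[PadicAlgCl p] (Fin (rank F) → PadicAlgCl p) :=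
  (S.map (Int.castRingHom (PadicAlgCl p))).vecMulLinear

theorem op_apply (S : Matrix (Fin (rank F)) (Fin (rank F)) ℤ) (b : Fin (rank F) → PadicAlgCl p) :
    op p S b = Matrix.vecMul b (S.map (Int.castRingHom (PadicAlgCl p))) := rfl

theorem op_mul (S S' : Matrix (Fin (rank F)) (Fin (rank F)) ℤ)
    (b : Fin (rank F) → PadicAlgCl p) : op p (S * S') b = op p S' (op p S b) := by
  unfold op
  simp only [Matrix.coe_vecMulLinear]
  rw [Matrix.vecMul_vecMul, ← Matrix.map_mul]

theorem op_Cm (g : F ≃ₐ[ℚ] F) : op p (Cm g) = Tm p g := rfl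

/-- an eigenvalue of an integral matrix is algebraic -/
theorem eigen_alg (S : Matrix (Fin (rank F)) (Fin (rank F)) ℤ)
    {b : Fin (rank F) → PadicAlgCl p} (hb : b ≠ 0) {κ : PadicAlgCl p} (h : op p S b = κ • b) :
    IsAlgebraic ℚ κ := by
  have h1 : ∀ n : ℕ, op p (S ^ n) b = κ ^ n • b := by
    intro n
    induction n with
    | zero =>
      rw [pow_zero, pow_zero, one_smul, op_apply, Matrix.map_one _ (map_zero _) (map_one _),
        Matrix.vecMul_one]
    | succ n ih => rw [pow_succ, op_mul, ih, map_smul, h, smul_smul, pow_succ]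
  have h2 : ∀ P : Polynomial ℤ, op p (Polynomial.aeval S P) b = (Polynomial.aeval κ P) • b := by
    intro P
    induction P using Polynomial.induction_on' with
    | add P Q hP hQ =>
      rw [map_add, map_add, add_smul, ← hP, ← hQ]
      unfold op
      simp only [Matrix.coe_vecMulLinear]
      rw [Matrix.map_add _ (map_add _), Matrix.vecMul_add]
    | monomial n a =>
      rw [Polynomial.aeval_monomial, Polynomial.aeval_monomial, mul_smul, ← h1 n]
      have h3 : (algebraMap ℤ (Matrix (Fin (rank F)) (Fin (rank F)) ℤ)) a * S ^ n = a • S ^ n := by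
        rw [Algebra.smul_def]
      rw [h3]
      unfold op
      simp only [Matrix.coe_vecMulLinear]
      have h4 : (a • S ^ n).map (Int.castRingHom (PadicAlgCl p)) =
          (algebraMap ℤ (PadicAlgCl p) a) • (S ^ n).map (Int.castRingHom (PadicAlgCl p)) := by
        ext i j
        rw [Matrix.map_apply, Matrix.smul_apply, Matrix.smul_apply, Matrix.map_apply, smul_eq_mul,
          smul_eq_mul, map_mul]
        rfl
      rw [h4, Matrix.vecMul_smul]
  have h5 := h2 S.charpoly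
  rw [Matrix.aeval_self_charpoly] at h5
  have h6 : op p (0 : Matrix (Fin (rank F)) (Fin (rank F)) ℤ) b = 0 := by
    unfold op
    simp
  rw [h6] at h5
  have h7 : Polynomial.aeval κ S.charpoly = 0 := by
    rcases smul_eq_zero.1 h5.symm with h8 | h8
    · exact h8
    · exact absurd h8 hb
  have h8 : IsIntegral ℤ κ := ⟨S.charpoly, Matrix.charpoly_monic S, h7⟩
  exact (h8.tower_top (A := ℚ)).isAlgebraic

variable {L : PadicAlgCl p → PadicAlgCl p} (hL : IsIwasawaLog p L)

include hL in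
/-- **Multiplicity one.** -/
theorem no_small [IsGalois ℚ F] (σ₀ : F →+* PadicAlgCl p) (τ : F →+* ℂ) {c : F ≃ₐ[ℚ] F}
    (hc : ∀ x, τ (c x) = (starRingEnd ℂ) (τ x))
    (V : Submodule (PadicAlgCl p) (Fin (rank F) → PadicAlgCl p))
    (hV : ∀ g, ∀ b ∈ V, Tm p g b ∈ V) (hne : V ≠ ⊥)
    (hdim : ∀ b ∈ V, ∀ b' ∈ V, Tm p c b = b → Tm p c b' = b' → b ≠ 0 → ∃ κ : PadicAlgCl p,
      b' = κ • b)
    (hker : ∀ b ∈ V, Pg L σ₀ 1 b = 0) : False := by
  classical
  obtain ⟨θ⟩ := exists_theta' p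
  obtain ⟨b₀, hb₀, hb0⟩ := (Submodule.ne_bot_iff V).mp hne
  -- the averaged matrix units
  have hT : ∀ S : Matrix (Fin (rank F)) (Fin (rank F)) ℤ, ∃ κ : PadicAlgCl p, ∀ b ∈ V,
      op p (avg S) b = κ • b := by
    intro S
    apply scalar_of_small (p := p) θ τ hc V hV hne hdim
    intro g b
    rw [← op_Cm, ← op_mul, ← avg_comm, op_mul]
  choose κ hκ using hT
  have hκalg : ∀ S, IsAlgebraic ℚ (κ S) := fun S => eigen_alg (avg S) hb0 (hκ S b₀ hb₀)
  -- a projection onto V
  obtain ⟨g₀, hg₀⟩ := LinearMap.exists_leftInverse_of_injective V.subtype V.ker_subtype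
  set A₀ : (Fin (rank F) → PadicAlgCl p) →ₗ[PadicAlgCl p] (Fin (rank F) → PadicAlgCl p) :=
    V.subtype ∘ₗ g₀ with hA₀
  have hA1 : ∀ b, A₀ b ∈ V := fun b => (g₀ b).2
  have hA2 : ∀ b ∈ V, A₀ b = b := by
    intro b hb
    have h1 := congrArg (fun φ => φ ⟨b, hb⟩) hg₀
    have h2 : g₀ b = ⟨b, hb⟩ := h1
    rw [hA₀, LinearMap.comp_apply, h2]
    rfl
  set S : Fin (rank F) → Fin (rank F) → Matrix (Fin (rank F)) (Fin (rank F)) ℤ :=
    fun i j => Matrix.single i j 1 with hS
  set N : Fin (rank F) → Fin (rank F) → PadicAlgCl p := fun i j => A₀ (Pi.single i 1) j with hN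
  have hSop : ∀ i j b, op p (S i j) b = Pi.single j (b i) := by
    intro i j b
    funext l
    unfold op
    rw [Matrix.coe_vecMulLinear]
    simp only [Matrix.vecMul, dotProduct, Matrix.map_apply, hS, Matrix.single_apply]
    rw [Finset.sum_eq_single i]
    · by_cases hl : l = j
      · subst hl; simp
      · rw [Pi.single_eq_of_ne hl, if_neg (by rintro ⟨-, h⟩; exact hl h.symm)]; simp
    · intro k _ hk
      rw [if_neg (by rintro ⟨h, -⟩; exact hk h.symm)]; simp
    · intro h; exact absurd (Finset.mem_univ _) h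
  have hA3 : ∀ b, A₀ b = ∑ i, ∑ j, N i j • op p (S i j) b := by
    intro b
    have h1 : b = ∑ i, b i • (Pi.single i (1 : PadicAlgCl p) : Fin (rank F) → PadicAlgCl p) := by
      funext l
      rw [Finset.sum_apply, Finset.sum_eq_single l]
      · rw [Pi.smul_apply, Pi.single_eq_same, smul_eq_mul, mul_one]
      · intro j _ hj
        rw [Pi.smul_apply, Pi.single_eq_of_ne hj.symm, smul_zero]
      · intro h; exact absurd (Finset.mem_univ _) h
    conv_lhs => rw [h1]
    rw [map_sum]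
    refine Finset.sum_congr rfl fun i _ => ?_
    rw [map_smul]
    funext l
    rw [Finset.sum_apply, Finset.sum_eq_single l]
    · rw [hSop, Pi.smul_apply, Pi.smul_apply, Pi.single_eq_same, smul_eq_mul, smul_eq_mul, mul_comm]
    · intro j _ hj
      rw [hSop, Pi.smul_apply, Pi.single_eq_of_ne hj.symm, smul_zero]
    · intro h; exact absurd (Finset.mem_univ _) h
  have hop_sum : ∀ (s : Finset (F ≃ₐ[ℚ] F)) (f : (F ≃ₐ[ℚ] F) → Matrix (Fin (rank F)) (Fin (rank F)) ℤ)
      (b : Fin (rank F) → PadicAlgCl p), op p (∑ g ∈ s, f g) b = ∑ g ∈ s, op p (f g) b := by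
    intro s f b
    induction s using Finset.induction_on with
    | empty =>
      unfold op
      simp
    | insert a s ha ih =>
      rw [Finset.sum_insert ha, Finset.sum_insert ha, ← ih]
      unfold op
      simp only [Matrix.coe_vecMulLinear]
      rw [Matrix.map_add _ (map_add _), Matrix.vecMul_add]
  have havg : ∀ (M : Matrix (Fin (rank F)) (Fin (rank F)) ℤ) (b : Fin (rank F) → PadicAlgCl p),
      op p (avg M) b = ∑ g : F ≃ₐ[ℚ] F, Tm p g (op p M (Tm p g⁻¹ b)) := by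
    intro M b
    unfold avg
    rw [hop_sum]
    refine Finset.sum_congr rfl fun g _ => ?_
    rw [op_mul, op_mul, op_Cm, op_Cm]
  set P : (Fin (rank F) → PadicAlgCl p) → (Fin (rank F) → PadicAlgCl p) :=
    fun b => ∑ g : F ≃ₐ[ℚ] F, Tm p g (A₀ (Tm p g⁻¹ b)) with hP
  have hP1 : ∀ b, P b ∈ V := fun b => V.sum_mem fun g _ => hV g _ (hA1 _)
  have hP2 : ∀ b ∈ V, P b = (Fintype.card (F ≃ₐ[ℚ] F) : PadicAlgCl p) • b := by
    intro b hb
    rw [hP]
    simp only
    have h1 : ∀ g : F ≃ₐ[ℚ] F, Tm p g (A₀ (Tm p g⁻¹ b)) = b := by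
      intro g
      rw [hA2 _ (hV g⁻¹ b hb), ← Tm_mul, mul_inv_cancel, Tm_one]
    simp only [h1]
    rw [Finset.sum_const, Finset.card_univ]
    exact (Nat.cast_smul_eq_nsmul _ _ _).symm
  have hP3 : ∀ b, P b = ∑ i, ∑ j, N i j • op p (avg (S i j)) b := by
    intro b
    rw [hP]
    simp only [hA3, map_sum, map_smul]
    rw [Finset.sum_comm]
    refine Finset.sum_congr rfl fun i _ => ?_
    rw [Finset.sum_comm]
    refine Finset.sum_congr rfl fun j _ => ?_
    rw [havg, Finset.smul_sum]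
  have hcard : (Fintype.card (F ≃ₐ[ℚ] F) : PadicAlgCl p) = ∑ i, ∑ j, N i j * κ (S i j) := by
    have h1 := hP2 b₀ hb₀
    rw [hP3] at h1
    have h2 : ∀ i j, N i j • op p (avg (S i j)) b₀ = (N i j * κ (S i j)) • b₀ := by
      intro i j
      rw [hκ _ b₀ hb₀, smul_smul]
    simp only [h2, ← Finset.sum_smul] at h1
    have h3 : (∑ i, ∑ j, N i j * κ (S i j) - (Fintype.card (F ≃ₐ[ℚ] F) : PadicAlgCl p)) • b₀ = 0 := by
      rw [sub_smul, h1, sub_self]
    rcases smul_eq_zero.1 h3 with h4 | h4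
    · exact (sub_eq_zero.1 h4).symm
    · exact absurd h4 hb0
  -- a rational point
  obtain ⟨k₀, hk₀⟩ : ∃ k, b₀ k ≠ 0 := by
    by_contra hcon
    push Not at hcon
    exact hb0 (funext hcon)
  obtain ⟨ψ, hψ⟩ : ∃ ψ : Module.Dual (QA (PadicAlgCl p)) (PadicAlgCl p), ψ (b₀ k₀) ≠ 0 := by
    by_contra hcon
    push Not at hcon
    exact hk₀ ((Module.forall_dual_apply_eq_zero_iff (QA (PadicAlgCl p)) (b₀ k₀)).1 hcon)
  set y : Fin (rank F) → PadicAlgCl p := fun k => ((ψ (b₀ k) : QA (PadicAlgCl p)) : PadicAlgCl p)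
    with hy
  have hopy : ∀ M : Matrix (Fin (rank F)) (Fin (rank F)) ℤ, ∀ l,
      op p M y l = ((ψ (op p M b₀ l) : QA (PadicAlgCl p)) : PadicAlgCl p) := by
    intro M l
    have h1 : ∀ b : Fin (rank F) → PadicAlgCl p, op p M b l = ∑ k, M k l • b k := by
      intro b
      unfold op
      rw [Matrix.coe_vecMulLinear]
      simp only [Matrix.vecMul, dotProduct, Matrix.map_apply]
      refine Finset.sum_congr rfl fun k _ => ?_
      rw [zsmul_eq_mul, mul_comm]
      rfl
    rw [h1, h1, map_sum, IntermediateField.coe_sum]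
    refine Finset.sum_congr rfl fun k _ => ?_
    rw [map_zsmul, hy]
    push_cast
    rfl
  have hyeig : ∀ i j, op p (avg (S i j)) y = κ (S i j) • y := by
    intro i j
    funext l
    rw [hopy, hκ _ b₀ hb₀, Pi.smul_apply, Pi.smul_apply, smul_eq_mul, smul_eq_mul]
    have h1 : κ (S i j) * b₀ l = (⟨κ (S i j), mem_QA.mpr (hκalg _)⟩ : QA (PadicAlgCl p)) • b₀ l := rfl
    rw [h1, map_smul]
    rfl
  have hyV : y ∈ V := by
    have h1 : P y = (Fintype.card (F ≃ₐ[ℚ] F) : PadicAlgCl p) • y := by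
      rw [hP3, hcard]
      simp only [hyeig, smul_smul, ← Finset.sum_smul]
    have h2 := hP1 y
    rw [h1] at h2
    have h3 : (Fintype.card (F ≃ₐ[ℚ] F) : PadicAlgCl p) ≠ 0 :=
      Nat.cast_ne_zero.2 Fintype.card_ne_zero
    have h4 := V.smul_mem (Fintype.card (F ≃ₐ[ℚ] F) : PadicAlgCl p)⁻¹ h2
    rwa [smul_smul, inv_mul_cancel₀ h3, one_smul] at h4
  have hfin := hker y hyV
  have hw : LinearIndependent (QA (PadicAlgCl p))
      (fun k : Fin (rank F) => L (σ₀ ((fundSystem F k : 𝓞 F) : F))) := by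
    have h1 := optP_indep hL (ι := Fin (rank F)) (fun k => σ₀ ((fundSystem F k : 𝓞 F) : F))
      (fun k => ((isU_unit _).map σ₀).ne) (fun k => ((isU_unit _).map σ₀).alg) (fund_indep hL σ₀)
    exact h1.comp some (Option.some_injective _)
  have hz := Fintype.linearIndependent_iff.mp hw (fun k => ψ (b₀ k)) (by
    unfold Pg at hfin
    rw [← hfin]
    refine Finset.sum_congr rfl fun k _ => ?_
    rw [Algebra.smul_def]
    rfl) k₀
  exact hψ hz

end rational

end Pool.Agent.V5helper65.LG
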