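import Pool.Agent.V5helper65.LG.Quartics
import Pool.Agent.H33R4.Final
import Pool.Agent.H33R4.Expl

/-!
# The families
-/

set_option autoImplicit false

namespace Pool.Agent.V5helper65.LG

open Module Finset NumberField Polynomial
open Pool.Agent.H637R2.Leo (Leopoldt)

/-- the polynomials `∏ (Y - a_i t) ∏ ((Y - b_k t)² + c_k t²) - 1` -/
noncomputable def fpoly {r₁ r₂ : ℕ} (a : Fin r₁ → ℤ) (b c : Fin r₂ → ℤ) (t : ℤ) : ℤ[X] :=
  (∏ i, (Polynomial.X - C (a i * t))) *
    (∏ k, ((Polynomial.X - C (b k * t)) ^ 2 + C (c k * t ^ 2))) - 1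

theorem spec_eq {r₁ r₂ : ℕ} (a : Fin r₁ → ℤ) (b c : Fin r₂ → ℤ) (t : ℤ) :
    Pool.Agent.H33R4.spec t (Pool.Agent.H33R4.fam a b c) = fpoly a b c t := by
  unfold Pool.Agent.H33R4.spec Pool.Agent.H33R4.fam fpoly
  rw [Fintype.prod_sum_type]
  simp only [Pool.Agent.H33R4.fac, Polynomial.map_sub, Polynomial.map_mul, Polynomial.map_one,
    Polynomial.map_prod, Polynomial.map_add, Polynomial.map_pow, Polynomial.map_X,
    Polynomial.map_C, coe_eval₂RingHom, eval₂_mul, eval₂_C, eval₂_X, eval₂_pow]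
  simp

theorem explicit' (p : ℕ) [Fact p.Prime] (r₁ r₂ : ℕ) (h : 1 ≤ r₁ + r₂) (a : Fin r₁ → ℤ)
    (b c : Fin r₂ → ℤ) (ha : Function.Injective a)
    (hbc : Function.Injective (fun k => (b k, c k))) (hc : ∀ k, 0 < c k) :
    ∃ S : Finset ℤ, ∀ t ∉ S, Irreducible (fpoly a b c t) ∧
      ∀ (K : Type) [Field K] [NumberField K] (θ : K), aeval θ (fpoly a b c t) = 0 →
        IntermediateField.adjoin ℚ {θ} = ⊤ →
        InfinitePlace.nrRealPlaces K = r₁ ∧ InfinitePlace.nrComplexPlaces K = r₂ ∧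
          Leopoldt K p := by
  obtain ⟨S, hS⟩ := Pool.Agent.H33R4.explicit p r₁ r₂ h a b c ha hbc hc
  refine ⟨S, fun t ht => ?_⟩
  have := hS t ht
  rwa [spec_eq] at this

theorem fpoly_monic {r₁ r₂ : ℕ} (h : 1 ≤ r₁ + r₂) (a : Fin r₁ → ℤ) (b c : Fin r₂ → ℤ) (t : ℤ) :
    (fpoly a b c t).Monic := by
  have h1 : (∏ i, (Polynomial.X - C (a i * t)) : ℤ[X]).Monic :=
    monic_prod_of_monic _ _ fun i _ => monic_X_sub_C _
  have hq : ∀ k, ((Polynomial.X - C (b k * t)) ^ 2 + C (c k * t ^ 2) : ℤ[X]).Monic := by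
    intro k
    apply Monic.add_of_left ((monic_X_sub_C _).pow 2)
    refine lt_of_le_of_lt degree_C_le ?_
    rw [degree_pow, degree_X_sub_C]
    norm_num
  have hqd : ∀ k, ((Polynomial.X - C (b k * t)) ^ 2 + C (c k * t ^ 2) : ℤ[X]).natDegree = 2 := by
    intro k
    rw [natDegree_add_C, natDegree_pow, natDegree_X_sub_C]
  have h2 : (∏ k, ((Polynomial.X - C (b k * t)) ^ 2 + C (c k * t ^ 2)) : ℤ[X]).Monic :=
    monic_prod_of_monic _ _ fun k _ => hq k
  unfold fpoly
  apply Monic.sub_of_left (h1.mul h2)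
  rw [degree_one]
  rw [degree_eq_natDegree (h1.mul h2).ne_zero]
  have h3 : ((∏ i, (Polynomial.X - C (a i * t)) : ℤ[X]) *
      (∏ k, ((Polynomial.X - C (b k * t)) ^ 2 + C (c k * t ^ 2)))).natDegree = r₁ + 2 * r₂ := by
    rw [h1.natDegree_mul h2, natDegree_prod_of_monic _ _ fun i _ => monic_X_sub_C _,
      natDegree_prod_of_monic _ _ fun k _ => hq k]
    simp only [natDegree_X_sub_C, hqd]
    simp [mul_comm]
  rw [h3]
  have : 0 < r₁ + 2 * r₂ := by omega
  exact_mod_cast this

section closure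

variable {K F : Type} [Field K] [NumberField K] [Field F] [NumberField F] [IsGalois ℚ F]

/-- splitting fields are closures -/
theorem isClosure_of_splitting (g : ℚ[X]) (hirr : Irreducible g) [hF : g.IsSplittingField ℚ F]
    (j : K →+* F) (α : K) (hα : aeval α g = 0) : IsClosure j := by
  intro E hE
  rw [eq_top_iff]
  have h1 : Algebra.adjoin ℚ (g.rootSet F : Set F) ≤ E.toSubalgebra := by
    rw [Algebra.adjoin_le_iff]
    intro y hy
    rw [mem_rootSet] at hy
    have h2 : aeval (j α) g = 0 := by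
      have h3 : aeval ((RingHom.toRatAlgHom j) α) g = (RingHom.toRatAlgHom j) (aeval α g) :=
        aeval_algHom_apply _ _ _
      rw [hα, map_zero] at h3
      exact h3
    have h3 : IsConjRoot ℚ y (j α) := by
      rw [isConjRoot_def, ← minpoly.eq_of_irreducible hirr hy.2,
        ← minpoly.eq_of_irreducible hirr h2]
    obtain ⟨σ, hσ⟩ := h3.exists_algEquiv
    rw [← hσ]
    exact hE σ α
  intro x _
  have h2 : x ∈ Algebra.adjoin ℚ (g.rootSet F : Set F) := by
    rw [hF.adjoin_rootSet']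
    trivial
  exact h1 h2

end closure

/-- the field generated by a root -/
theorem exists_root_field (f : ℤ[X]) (hmon : f.Monic) (hirr : Irreducible f) :
    Irreducible (f.map (Int.castRingHom ℚ)) ∧
    ∃ (K : Type) (_ : Field K) (_ : NumberField K) (θ : K), aeval θ f = 0 ∧
      IntermediateField.adjoin ℚ {θ} = ⊤ ∧ ∀ (F : Type) [Field F] [CharZero F] (x : F),
        aeval x f = 0 → ∃ j : K →+* F, j θ = x := by
  have h1 : Irreducible (f.map (Int.castRingHom ℚ)) := by
    have := (hmon.irreducible_iff_irreducible_map_fraction_map (K := ℚ)).1 hirr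
    exact this
  haveI : Fact (Irreducible (f.map (Int.castRingHom ℚ))) := ⟨h1⟩
  refine ⟨h1, AdjoinRoot (f.map (Int.castRingHom ℚ)), inferInstance, inferInstance,
    AdjoinRoot.root _, ?_, ?_, ?_⟩
  · have h2 := AdjoinRoot.aeval_eq (f := f.map (Int.castRingHom ℚ)) (f.map (Int.castRingHom ℚ))
    rw [AdjoinRoot.mk_self] at h2
    have h3 : aeval (AdjoinRoot.root (f.map (Int.castRingHom ℚ))) (f.map (algebraMap ℤ ℚ)) =
        aeval (AdjoinRoot.root (f.map (Int.castRingHom ℚ))) f := aeval_map_algebraMap _ _ _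
    exact h3.symm.trans h2
  · rw [eq_top_iff]
    intro x _
    induction x using AdjoinRoot.induction_on with
    | ih g =>
      induction g using Polynomial.induction_on' with
      | add p q hp hq =>
        rw [map_add]
        exact add_mem (hp trivial) (hq trivial)
      | monomial n r =>
        rw [← C_mul_X_pow_eq_monomial, map_mul, map_pow, AdjoinRoot.mk_X]
        refine mul_mem ?_ (pow_mem (IntermediateField.mem_adjoin_simple_self ℚ _) n)
        have h3 : AdjoinRoot.mk (f.map (Int.castRingHom ℚ)) (C r) = (r : AdjoinRoot _) :=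
          eq_ratCast ((AdjoinRoot.mk (f.map (Int.castRingHom ℚ))).comp C) r
        rw [h3]
        exact SubfieldClass.ratCast_mem _ r
  · intro F _ _ x hx
    refine ⟨AdjoinRoot.lift (algebraMap ℚ F) x ?_, AdjoinRoot.lift_root _⟩
    rw [eval₂_map]
    rw [aeval_def] at hx
    rw [← hx]
    congr 1
    exact RingHom.ext_int _ _

end Pool.Agent.V5helper65.LG
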