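import Pool.Agent.V5helper65.LG.Family2

/-!
# Explicit fields with group `S₄`
-/

set_option autoImplicit false

namespace Pool.Agent.V5helper65.LG

open Module Finset NumberField Polynomial
open Pool.Agent.H637R2.Leo (Leopoldt)

/-- The discriminant of a cyclic cubic field is a square. -/
theorem disc_square {K : Type} [Field K] [NumberField K] [IsGalois ℚ K] (hK : finrank ℚ K = 3)
    (θ : K) (hgen : IntermediateField.adjoin ℚ {θ} = ⊤) (A B : ℤ)
    (h : θ ^ 3 + (A : K) * θ ^ 2 + (B : K) * θ - 1 = 0) :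
    ∃ y : ℤ, y ^ 2 = A ^ 2 * B ^ 2 - 4 * B ^ 3 + 4 * A ^ 3 - 27 - 18 * A * B := by
  have hcard : Nat.card (K ≃ₐ[ℚ] K) = 3 := by rw [IsGalois.card_aut_eq_finrank, hK]
  haveI : Fact (Nat.Prime 3) := ⟨Nat.prime_three⟩
  obtain ⟨σ, hσ⟩ : ∃ σ : K ≃ₐ[ℚ] K, σ ≠ 1 := by
    haveI : Nontrivial (K ≃ₐ[ℚ] K) := Finite.one_lt_card_iff_nontrivial.1 (by rw [hcard]; norm_num)
    exact exists_ne 1
  have hzp : ∀ g : K ≃ₐ[ℚ] K, g ∈ Subgroup.zpowers σ :=
    fun g => mem_zpowers_of_prime_card hcard hσ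
  have hσ3 : σ ^ 3 = 1 := by rw [← hcard]; exact pow_card_eq_one'
  have hfix : ∀ x : K, σ x = x → ∀ g : K ≃ₐ[ℚ] K, g x = x := by
    intro x hx g
    obtain ⟨n, rfl⟩ := Subgroup.mem_zpowers_iff.1 (hzp g)
    have h5 : σ ∈ MulAction.stabilizer (K ≃ₐ[ℚ] K) x := hx
    exact (MulAction.stabilizer (K ≃ₐ[ℚ] K) x).zpow_mem h5 n
  have hrange : ∀ x : K, σ x = x → x ∈ Set.range (algebraMap ℚ K) := by
    intro x hx
    rw [IsGalois.mem_range_algebraMap_iff_fixed]
    exact hfix x hx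
  have hnr : ∀ x : K, x ∈ Set.range (algebraMap ℚ K) → x ≠ θ := by
    rintro x hx rfl
    have h1 : IntermediateField.adjoin ℚ {x} = ⊥ := by
      rw [IntermediateField.adjoin_simple_eq_bot_iff]
      obtain ⟨r, rfl⟩ := hx
      exact IntermediateField.algebraMap_mem _ r
    rw [hgen] at h1
    have h2 : finrank ℚ (⊤ : IntermediateField ℚ K) = 3 := by
      rw [IntermediateField.finrank_top', hK]
    rw [h1, IntermediateField.finrank_bot] at h2
    norm_num at h2
  set x := θ with hx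
  set y := σ θ with hy
  set z := σ y with hz
  have hσz : σ z = x := by
    have h1 : (σ ^ 3) θ = θ := by rw [hσ3]; rfl
    exact h1
  have hxy : x ≠ y := by
    intro h1
    exact hnr θ (hrange θ h1.symm) rfl
  have hyz : y ≠ z := fun h1 => hxy (σ.injective h1)
  have hxz : x ≠ z := by
    intro h1
    have h2 : σ x = σ z := by rw [← h1]
    rw [hσz] at h2
    exact hxy h2.symm
  have e1 : x ^ 3 + (A : K) * x ^ 2 + (B : K) * x - 1 = 0 := h
  have e2 : y ^ 3 + (A : K) * y ^ 2 + (B : K) * y - 1 = 0 := by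
    have h1 := congrArg σ e1
    simpa only [map_add, map_sub, map_mul, map_pow, map_intCast, map_one, map_zero] using h1
  have e3 : z ^ 3 + (A : K) * z ^ 2 + (B : K) * z - 1 = 0 := by
    have h1 := congrArg σ e2
    simpa only [map_add, map_sub, map_mul, map_pow, map_intCast, map_one, map_zero] using h1
  have f1 : x ^ 2 + x * y + y ^ 2 + (A : K) * (x + y) + (B : K) = 0 := by
    have h1 : (x - y) * (x ^ 2 + x * y + y ^ 2 + (A : K) * (x + y) + (B : K)) = 0 := by
      linear_combination e1 - e2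
    exact (mul_eq_zero.1 h1).resolve_left (sub_ne_zero.2 hxy)
  have f2 : y ^ 2 + y * z + z ^ 2 + (A : K) * (y + z) + (B : K) = 0 := by
    have h1 : (y - z) * (y ^ 2 + y * z + z ^ 2 + (A : K) * (y + z) + (B : K)) = 0 := by
      linear_combination e2 - e3
    exact (mul_eq_zero.1 h1).resolve_left (sub_ne_zero.2 hyz)
  have hA : (A : K) = -(x + y + z) := by
    have h1 : (x - z) * (x + y + z + (A : K)) = 0 := by linear_combination f1 - f2
    have h2 := (mul_eq_zero.1 h1).resolve_left (sub_ne_zero.2 hxz)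
    linear_combination h2
  have hB : (B : K) = x * y + y * z + z * x := by
    rw [hA] at f1
    linear_combination f1
  have hP : x * y * z = 1 := by
    rw [hA, hB] at e1
    linear_combination e1
  set δ : K := (x - y) * (y - z) * (z - x) with hδ
  have hσδ : σ δ = δ := by
    rw [hδ]
    simp only [map_mul, map_sub, hσz]
    rw [← hy, ← hz]
    ring
  have hδ2 : δ ^ 2 = (A : K) ^ 2 * (B : K) ^ 2 - 4 * (B : K) ^ 3 + 4 * (A : K) ^ 3 - 27 -
      18 * (A : K) * (B : K) := by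
    rw [hδ, hA, hB]
    linear_combination (4 * (-(x + y + z)) ^ 3 - 27 * (x * y * z + 1) -
      18 * (-(x + y + z)) * (x * y + y * z + z * x)) * hP
  have hxint : IsIntegral ℤ x := by
    refine ⟨Polynomial.X ^ 3 + C A * Polynomial.X ^ 2 + C B * Polynomial.X - 1, ?_, ?_⟩
    · monicity!
    · simp only [eval₂_add, eval₂_sub, eval₂_mul, eval₂_pow, eval₂_X, eval₂_C, eval₂_one]
      exact e1
  have hyint : IsIntegral ℤ y := hxint.map (σ.toAlgHom.restrictScalars ℤ)
  have hzint : IsIntegral ℤ z := hyint.map (σ.toAlgHom.restrictScalars ℤ)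
  have hδint : IsIntegral ℤ δ := ((hxint.sub hyint).mul (hyint.sub hzint)).mul (hzint.sub hxint)
  obtain ⟨r, hr⟩ := hrange δ hσδ
  have hrint : IsIntegral ℤ r := by
    rw [← hr] at hδint
    exact (isIntegral_algebraMap_iff (algebraMap ℚ K).injective).1 hδint
  obtain ⟨n, hn⟩ := IsIntegrallyClosed.isIntegral_iff.1 hrint
  refine ⟨n, ?_⟩
  have hδn : δ = (n : K) := by
    rw [← hr, ← hn]
    simp
  rw [hδn] at hδ2
  exact_mod_cast hδ2

/-- the discriminant is not a square for large parameters -/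
theorem disc_not_square (b c : ℤ) (hb : 0 < b) (hc : 0 < c) (hbc : b ≠ c) :
    ∃ T : ℤ, ∀ t : ℤ, T < t → ∀ y : ℤ, y ^ 2 ≠ ((b + c) * t) ^ 2 * (b * c * t ^ 2) ^ 2 -
      4 * (b * c * t ^ 2) ^ 3 + 4 * ((b + c) * t) ^ 3 - 27 - 18 * ((b + c) * t) * (b * c * t ^ 2) := by
  set M : ℤ := b * c * (b - c) with hM
  set N : ℤ := 4 * (b + c) ^ 3 - 18 * (b + c) * (b * c) with hN
  set P : ℤ := N ^ 2 + 108 * M ^ 2 with hP
  refine ⟨P + |N| + 1, fun t ht y hy => ?_⟩
  have hM0 : M ≠ 0 := by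
    rw [hM]
    exact mul_ne_zero (mul_ne_zero hb.ne' hc.ne') (sub_ne_zero.2 hbc)
  have hM1 : 1 ≤ M ^ 2 := by
    have : 0 < M ^ 2 := by positivity
    omega
  have hPpos : 0 < P := by rw [hP]; nlinarith [sq_nonneg N]
  have hNabs : -|N| ≤ N := neg_abs_le N
  have hNabs0 : 0 ≤ |N| := abs_nonneg N
  have ht1 : 1 ≤ t := by omega
  have ht3 : t ≤ t ^ 3 := by nlinarith [sq_nonneg t, mul_pos (by omega : (0:ℤ) < t) (by omega : (0:ℤ) < t)]
  set X : ℤ := 2 * M ^ 2 * t ^ 3 + N with hX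
  set Y : ℤ := 2 * M * y with hY
  have hXY : X ^ 2 - Y ^ 2 = P := by
    rw [hX, hY, hP, hM, hN]
    have h1 : (2 * (b * c * (b - c)) * y) ^ 2 = 4 * (b * c * (b - c)) ^ 2 * y ^ 2 := by ring
    rw [h1, hy]
    ring
  have hXlarge : P < X := by
    have h1 : 2 * t ^ 3 ≤ 2 * M ^ 2 * t ^ 3 := by
      have : 0 ≤ t ^ 3 := by positivity
      nlinarith
    rw [hX]
    omega
  have hYX : |Y| < X := by
    have h1 : Y ^ 2 < X ^ 2 := by omega
    exact abs_lt_of_sq_lt_sq h1 (by omega)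
  have h2 : |Y| ≤ X - 1 := by omega
  have h3 : Y ^ 2 ≤ (X - 1) ^ 2 := by
    rw [← sq_abs Y]
    exact pow_le_pow_left₀ (abs_nonneg _) h2 2
  nlinarith

/-- **Explicit fields with group `S₄`.** -/
theorem s4_family (p : ℕ) [Fact p.Prime] (b c : ℤ) (hb : 0 < b) (hc : 0 < c) (hbc : b ≠ c) :
    ∃ T : Finset ℤ, ∀ t : ℤ, t ∉ T → 0 < t → ∀ (F : Type) [Field F] [NumberField F],
      (quartic (-((b + c) * t)) (b * c * t ^ 2) 1).IsSplittingField ℚ F →
      IsTotallyComplex F ∧ Nonempty ((F ≃ₐ[ℚ] F) ≃* Equiv.Perm (Fin 4)) ∧ Leopoldt F p := by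
  obtain ⟨T₀, hT₀⟩ := disc_not_square b c hb hc hbc
  obtain ⟨S, hS⟩ := explicit' p 3 0 (by norm_num) ![0, -b, -c] Fin.elim0 Fin.elim0
    (by
      intro i j hij
      fin_cases i <;> fin_cases j <;> simp at hij <;> first | rfl | (exfalso; omega))
    (fun i => i.elim0) (fun i => i.elim0)
  refine ⟨S ∪ Finset.Icc 0 (max T₀ 1), fun t ht ht0 F _ _ hF => ?_⟩
  rw [Finset.mem_union, not_or, Finset.mem_Icc] at ht
  obtain ⟨ht1, ht2⟩ := ht
  have ht3 : max T₀ 1 < t := by
    by_contra hcon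
    exact ht2 ⟨ht0.le, not_lt.1 hcon⟩
  have htT : T₀ < t := lt_of_le_of_lt (le_max_left _ _) ht3
  have ht2' : 1 < t := lt_of_le_of_lt (le_max_right _ _) ht3
  obtain ⟨hirr, hall⟩ := hS t ht1
  obtain ⟨hirrQ, K, _, _, θ, hθ, hgen, hj⟩ :=
    exists_root_field _ (fpoly_monic (by norm_num) _ _ _ t) hirr
  obtain ⟨hr, hcx, hL⟩ := hall K θ hθ hgen
  have hK : finrank ℚ K = 3 := by
    rw [← InfinitePlace.card_add_two_mul_card_eq_rank, hr, hcx]
  haveI : IsTotallyReal K := by
    rw [← nrComplexPlaces_eq_zero_iff, hcx]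
  have heq : ∀ (R : Type) [CommRing R] (x : R), aeval x (fpoly ![0, -b, -c] Fin.elim0 Fin.elim0 t) =
      x * (x + b * t) * (x + c * t) - 1 := by
    intro R _ x
    unfold fpoly
    simp [Fin.prod_univ_three]
  have hθ1 : θ ^ 3 + (((b + c) * t : ℤ) : K) * θ ^ 2 + ((b * c * t ^ 2 : ℤ) : K) * θ - 1 = 0 := by
    rw [heq] at hθ
    push_cast
    linear_combination hθ
  have hα : ∀ r : ℚ, θ ≠ (r : K) := by
    rintro r rfl
    have h1 : IntermediateField.adjoin ℚ {(r : K)} = ⊥ := by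
      rw [IntermediateField.adjoin_simple_eq_bot_iff]
      exact SubfieldClass.ratCast_mem _ r
    rw [hgen] at h1
    have h2 : finrank ℚ (⊤ : IntermediateField ℚ K) = 3 := by
      rw [IntermediateField.finrank_top', hK]
    rw [h1, IntermediateField.finrank_bot] at h2
    norm_num at h2
  have hneg : ∃ τ : K →+* ℂ, (τ θ).re < 0 := by
    obtain ⟨y, hy0, hy⟩ : ∃ y : ℝ, y < 0 ∧ y * (y + b * t) * (y + c * t) - 1 = 0 := by
      have hbR : (0 : ℝ) < b := by exact_mod_cast hb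
      have hcR : (0 : ℝ) < c := by exact_mod_cast hc
      have htR : (1 : ℝ) < t := by exact_mod_cast ht2'
      set f : ℝ → ℝ := fun y => y * (y + b * t) * (y + c * t) - 1 with hf
      have hcont : Continuous f := by rw [hf]; fun_prop
      set m : ℝ := -((b + c) * t / 2) with hm
      have h1 : f (-(b * t)) = -1 := by rw [hf]; ring
      have h2 : 0 ≤ f m := by
        have h3 : f m = ((b : ℝ) + c) * (b - c) ^ 2 * t ^ 3 / 8 - 1 := by rw [hf, hm]; ring
        have h4 : (1 : ℝ) ≤ ((b : ℝ) - c) ^ 2 := by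
          have h5 : (1 : ℤ) ≤ (b - c) ^ 2 := by
            have : 0 < (b - c) ^ 2 := by
              have := sub_ne_zero.2 hbc
              positivity
            omega
          exact_mod_cast h5
        have h5 : (3 : ℝ) ≤ (b : ℝ) + c := by
          have h6 : (3 : ℤ) ≤ b + c := by omega
          exact_mod_cast h6
        have h6 : (8 : ℝ) ≤ (t : ℝ) ^ 3 := by
          have h7 : (2 : ℝ) ≤ t := by
            have : (2 : ℤ) ≤ t := by omega
            exact_mod_cast this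
          have := pow_le_pow_left₀ (by norm_num : (0 : ℝ) ≤ 2) h7 3
          norm_num at this
          exact this
        rw [h3]
        have h7 : (3 : ℝ) ≤ ((b : ℝ) + c) * (b - c) ^ 2 := by nlinarith
        have h8 : (24 : ℝ) ≤ ((b : ℝ) + c) * (b - c) ^ 2 * t ^ 3 := by nlinarith
        linarith
      have h3 : (0 : ℝ) ∈ f '' (Set.uIcc (-(b * t)) m) := by
        apply intermediate_value_uIcc hcont.continuousOn
        rw [Set.mem_uIcc]
        left
        exact ⟨by rw [h1]; norm_num, h2⟩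
      obtain ⟨y, hy, hfy⟩ := h3
      refine ⟨y, ?_, hfy⟩
      rw [Set.mem_uIcc] at hy
      have h4 : -((b : ℝ) * t) < 0 := by
        have : 0 < (b : ℝ) * t := by positivity
        linarith
      have h5 : m < 0 := by
        rw [hm]
        have : 0 < ((b : ℝ) + c) * t / 2 := by positivity
        linarith
      rcases hy with hy | hy
      · exact lt_of_le_of_lt hy.2 h5
      · exact lt_of_le_of_lt hy.2 h4
    obtain ⟨τ, hτ⟩ := hj ℂ (y : ℂ) (by
      rw [heq]
      have := congrArg (fun z : ℝ => (z : ℂ)) hy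
      simpa using this)
    exact ⟨τ, by rw [hτ, Complex.ofReal_re]; exact hy0⟩
  have hng : ¬ IsGalois ℚ K := by
    intro hG
    obtain ⟨y, hy⟩ := disc_square hK θ hgen _ _ hθ1
    exact hT₀ t htT y hy
  obtain ⟨h1, -, h2, -, h3⟩ := resolvent_main (F := F) hK θ hα (-((b + c) * t)) (b * c * t ^ 2) 1
    (by
      push_cast at hθ1 ⊢
      linear_combination hθ1) hneg hF
  exact ⟨h1, h2 hng, h3 p hL⟩

end Pool.Agent.V5helper65.LG
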