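import Pool.Agent.V5helper65.LG.Octic

/-!
# Leopoldt's conjecture for Galois closures
-/

set_option autoImplicit false

namespace Pool.Agent.V5helper65.LG

open Module Finset NumberField
open Pool.Agent.H637R2.Leo (Leopoldt)

section ext

variable {K F : Type} [Field K] [NumberField K] [Field F] [NumberField F]

/-- extension of embeddings -/
theorem exists_extend (j : K →+* F) (τ₀ : K →+* ℂ) : ∃ τ : F →+* ℂ, ∀ x, τ (j x) = τ₀ x := by
  letI : Algebra K F := j.toAlgebra
  letI : Algebra K ℂ := τ₀.toAlgebra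
  haveI : IsScalarTower ℚ K F := IsScalarTower.of_algebraMap_eq (fun q => by
    change algebraMap ℚ F q = j (algebraMap ℚ K q)
    simp)
  haveI : Algebra.IsAlgebraic K F := Algebra.IsAlgebraic.tower_top (K := ℚ) K
  refine ⟨(IsAlgClosed.lift : F →ₐ[K] ℂ).toRingHom, fun x => ?_⟩
  exact (IsAlgClosed.lift : F →ₐ[K] ℂ).commutes x

theorem real_iff (τ : F →+* ℂ) : ComplexEmbedding.IsReal τ ↔ ∀ x, (starRingEnd ℂ) (τ x) = τ x := by
  constructor
  · intro h x
    exact congrArg (fun f : F →+* ℂ => f x) h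
  · intro h
    exact RingHom.ext h

variable [IsGalois ℚ F]

theorem conj_sq' {τ : F →+* ℂ} {c : F ≃ₐ[ℚ] F} (hc : ∀ x, τ (c x) = (starRingEnd ℂ) (τ x)) :
    c * c = 1 := by
  ext x
  apply τ.injective
  change τ (c (c x)) = τ x
  rw [hc, hc, Complex.conj_conj]

/-- If one embedding of a Galois field is real then all are. -/
theorem real_of_real {τ τ' : F →+* ℂ} (h : ComplexEmbedding.IsReal τ) :
    ComplexEmbedding.IsReal τ' := by
  obtain ⟨g, hg⟩ := NumberField.ComplexEmbedding.exists_comp_symm_eq_of_comp_eq (k := ℚ) τ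
    τ' (RingHom.ext_rat _ _)
  rw [real_iff] at h ⊢
  intro x
  have h1 : τ (g.symm x) = τ' x := congrArg (fun f : F →+* ℂ => f x) hg
  rw [← h1, h]

theorem card_gal : Nat.card (F ≃ₐ[ℚ] F) = finrank ℚ F := IsGalois.card_aut_eq_finrank ℚ F

end ext

variable {K F : Type} [Field K] [NumberField K] [Field F] [NumberField F] [IsGalois ℚ F]
  {p : ℕ} [hp : Fact p.Prime]

/-- `K` has a real embedding and one which is not real. -/
def Mixed (K : Type) [Field K] : Prop :=
  (∃ τ : K →+* ℂ, ComplexEmbedding.IsReal τ) ∧ ∃ τ : K →+* ℂ, ¬ ComplexEmbedding.IsReal τ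

/-- **Degree at most four.** -/
theorem leopoldt_closure_four (j : K →+* F) (hj : IsClosure j) (hK : finrank ℚ K ≤ 4)
    (h24 : finrank ℚ F = 24 → Mixed K) (hL : Leopoldt K p) : Leopoldt F p := by
  classical
  have hcore := fun g hg => corefree hj g hg
  have hidx : (fixG j).index ≤ 4 := by rw [index_fixG]; exact hK
  by_cases h : finrank ℚ F = 24
  · obtain ⟨⟨τ₀, hτ₀⟩, ⟨τ₁, hτ₁⟩⟩ := h24 h
    obtain ⟨τ, hτ⟩ := exists_extend j τ₀
    obtain ⟨τ', hτ'⟩ := exists_extend j τ₁
    obtain ⟨c, hc⟩ := exists_conj τ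
    rw [real_iff] at hτ₀
    have hcH : c ∈ fixG j := by
      intro x
      apply τ.injective
      rw [hc, hτ, hτ₀]
    have hc1 : c ≠ 1 := by
      rintro rfl
      apply hτ₁
      have h1 : ComplexEmbedding.IsReal τ := by
        rw [real_iff]
        intro x
        exact (hc x).symm
      have h2 := real_of_real (τ' := τ') h1
      rw [real_iff] at h2 ⊢
      intro x
      rw [← hτ', h2]
    refine transfer j τ c hc ?_ hL
    intro V _ _ _ ρ hρ hfix
    exact small_le_four hidx hcore c (conj_sq' hc) (fun _ => ⟨hcH, hc1⟩) hρ hfix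
  · obtain ⟨τ⟩ : Nonempty (F →+* ℂ) := inferInstance
    obtain ⟨c, hc⟩ := exists_conj τ
    refine transfer j τ c hc ?_ hL
    intro V _ _ _ ρ hρ hfix
    refine small_le_four hidx hcore c (conj_sq' hc) (fun h' => ?_) hρ hfix
    exact absurd (card_gal.symm.trans h') h

/-- **Prime degree, solvable groups.** -/
theorem leopoldt_closure_prime (j : K →+* F) (hj : IsClosure j) (hK : (finrank ℚ K).Prime)
    (hF : Group.IsSolvable (F ≃ₐ[ℚ] F)) (hL : Leopoldt K p) : Leopoldt F p := by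
  obtain ⟨τ⟩ : Nonempty (F →+* ℂ) := inferInstance
  obtain ⟨c, hc⟩ := exists_conj τ
  obtain ⟨N, hN, hNH, hprod, hfree, hcomm⟩ := prime_affine (H := fixG j) hK (index_fixG j)
    (fun g hg => corefree hj g hg)
  refine transfer j τ c hc ?_ hL
  intro V _ _ _ ρ hρ hfix v v' _ _ h0
  exact frobenius_small hρ N (fixG j) hN hNH hprod hfree hcomm hfix v v' h0

/-- **Frobenius groups with abelian complements.** -/
theorem leopoldt_frobenius (j : K →+* F) (N : Subgroup (F ≃ₐ[ℚ] F)) (hN : N.Normal)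
    (hNH : ∀ g ∈ N, g ∈ fixG j → g = 1)
    (hprod : ∀ g : F ≃ₐ[ℚ] F, ∃ n ∈ N, ∃ h ∈ fixG j, g = n * h)
    (hfree : ∀ h ∈ fixG j, h ≠ 1 → ∀ n ∈ N, h * n = n * h → n = 1)
    (hcomm : ∀ g ∈ fixG j, ∀ h ∈ fixG j, g * h = h * g)
    (hL : Leopoldt K p) : Leopoldt F p := by
  obtain ⟨τ⟩ : Nonempty (F →+* ℂ) := inferInstance
  obtain ⟨c, hc⟩ := exists_conj τ
  refine transfer j τ c hc ?_ hL
  intro V _ _ _ ρ hρ hfix v v' _ _ h0
  exact frobenius_small hρ N (fixG j) hN hNH hprod hfree hcomm hfix v v' h0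

/-- **The symmetric group of degree four and cubic subfields.** -/
theorem leopoldt_octic (j : K →+* F) (hK : finrank ℚ K = 3) (hreal : IsTotallyReal K)
    (hG : Nonempty ((F ≃ₐ[ℚ] F) ≃* Equiv.Perm (Fin 4))) (hF : ¬ IsTotallyReal F)
    (hL : Leopoldt K p) : Leopoldt F p := by
  obtain ⟨e⟩ := hG
  obtain ⟨τ⟩ : Nonempty (F →+* ℂ) := inferInstance
  obtain ⟨c, hc⟩ := exists_conj τ
  have hcard : Nat.card (F ≃ₐ[ℚ] F) = 24 := by
    rw [Nat.card_congr e.toEquiv]; exact card_P4
  have hH : Nat.card (fixG j) = 8 := by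
    have := Subgroup.index_mul_card (fixG j)
    rw [index_fixG, hK, hcard] at this
    omega
  have hKreal : ∀ σ : K →+* ℂ, ∀ x, (starRingEnd ℂ) (σ x) = σ x := by
    intro σ
    rw [← real_iff]
    exact IsTotallyReal.complexEmbedding_isReal σ
  have hcH : ∀ g : F ≃ₐ[ℚ] F, g⁻¹ * c * g ∈ fixG j := by
    intro g x
    have h1 : c (g (j x)) = g (j x) := by
      apply τ.injective
      rw [hc]
      exact hKreal ((τ.comp (g : F →+* F)).comp j) x
    change g.symm (c (g (j x))) = j x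
    rw [h1, g.symm_apply_apply]
  have hc1 : c ≠ 1 := by
    rintro rfl
    apply hF
    have h1 : ComplexEmbedding.IsReal τ := by
      rw [real_iff]
      intro x
      exact (hc x).symm
    refine ⟨fun w => ?_⟩
    rw [InfinitePlace.isReal_iff]
    exact real_of_real h1
  refine transfer j τ c hc ?_ hL
  intro V _ _ _ ρ hρ hfix
  exact small_octic e hH c hcH hc1 hρ hfix

end Pool.Agent.V5helper65.LG
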