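import Pool.Agent.V5helper65.LG.Quartic

/-!
# The symmetric group of degree four and its subgroups of index three
-/

set_option autoImplicit false

namespace Pool.Agent.V5helper65.LG

open Module Finset
open scoped Pointwise

/-- the centraliser of `(0 1) (2 3)` -/
def dih : Subgroup P4 where
  carrier := {x | x * pa = pa * x}
  mul_mem' := by
    intro a b ha hb
    change a * pa = pa * a at ha
    change b * pa = pa * b at hb
    change a * b * pa = pa * (a * b)
    rw [mul_assoc, hb, ← mul_assoc, ha, mul_assoc]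
  one_mem' := by
    change 1 * pa = pa * 1
    rw [one_mul, mul_one]
  inv_mem' := by
    intro a ha
    change a * pa = pa * a at ha
    change a⁻¹ * pa = pa * a⁻¹
    rw [inv_mul_eq_iff_eq_mul, ← mul_assoc, ha, mul_inv_cancel_right]

theorem dih_gen : ∀ g : P4, g * pa = pa * g →
    ∃ i j l : Fin 2, g = pa ^ (i : ℕ) * (pb ^ (j : ℕ) * ps ^ (l : ℕ)) := by decide

theorem dih_card : Nat.card dih = 8 := by
  have h1 : Nat.card dih = Nat.card {g : P4 // g * pa = pa * g} := rfl
  rw [h1, Nat.card_eq_fintype_card]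
  decide

set_option maxRecDepth 100000 in
theorem core_dih : ∀ x : P4, (∀ σ : P4, (σ⁻¹ * x * σ) * pa = pa * (σ⁻¹ * x * σ)) →
    x = 1 ∨ x = pa ∨ x = pb ∨ x = pa * pb := by decide

theorem conj_pa : ∀ x : P4, (x = 1 ∨ x = pa ∨ x = pb ∨ x = pa * pb) → x ≠ 1 →
    ∃ σ : P4, σ * pa * σ⁻¹ = x := by decide

/-- subgroups of order eight are conjugate -/
theorem exists_conj_dih (H : Subgroup P4) (hH : Nat.card H = 8) :
    ∃ σ : P4, ∀ x, x ∈ H ↔ σ⁻¹ * x * σ ∈ dih := by
  haveI : Fact (Nat.Prime 2) := ⟨Nat.prime_two⟩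
  have hfac : 8 = 2 ^ (Nat.card P4).factorization 2 := by
    rw [card_P4]
    have : (24 : ℕ).factorization 2 = 3 := by
      rw [show (24 : ℕ) = 2 ^ 3 * 3 by norm_num, Nat.factorization_mul (by norm_num) (by norm_num),
        Nat.Prime.factorization_pow Nat.prime_two, Nat.Prime.factorization Nat.prime_three]
      simp
    rw [this]
    norm_num
  let P : Sylow 2 P4 := Sylow.ofCard dih (by rw [dih_card]; exact hfac)
  let Q : Sylow 2 P4 := Sylow.ofCard H (by rw [hH]; exact hfac)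
  obtain ⟨σ, hσ⟩ := MulAction.exists_smul_eq P4 P Q
  refine ⟨σ, fun x => ?_⟩
  have h1 : x ∈ Q ↔ x ∈ σ • P := by rw [hσ]
  have h2 : x ∈ Q ↔ x ∈ H := Iff.rfl
  rw [← h2, h1]
  have h3 : x ∈ σ • P ↔ x ∈ MulAut.conj σ • (P : Subgroup P4) := Iff.rfl
  rw [h3, Subgroup.mem_pointwise_smul_iff_inv_smul_mem]
  have h4 : (MulAut.conj σ)⁻¹ • x = σ⁻¹ * x * σ := by
    rw [← map_inv]
    change σ⁻¹ * x * σ⁻¹⁻¹ = _
    rw [inv_inv]
  rw [h4]
  exact Iff.rfl

variable {G : Type} [Group G] [Finite G] {H : Subgroup G} {V : Type} [AddCommGroup V] [Module ℂ V]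
  {ρ : Representation ℂ G V}

/-- **The symmetric group of degree four and its subgroups of order eight.** -/
theorem small_octic (e : G ≃* P4) (hH : Nat.card H = 8) (c : G)
    (hc : ∀ g : G, g⁻¹ * c * g ∈ H) (hc1 : c ≠ 1) (hρ : Irred ρ)
    (hfix : ∀ v : V, (∀ g ∈ H, ρ g v = v) → v = 0) : Small ρ c := by
  set H' : Subgroup P4 := H.map e.toMonoidHom with hH'
  have hmem : ∀ g, g ∈ H ↔ e g ∈ H' := by
    intro g
    rw [hH', Subgroup.mem_map]
    constructor
    · intro hg
      exact ⟨g, hg, rfl⟩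
    · rintro ⟨g', hg', h⟩
      have : g' = g := e.injective h
      rwa [this] at hg'
  have hcard : Nat.card H' = 8 := by
    rw [← hH]
    exact Subgroup.card_map_of_injective e.injective
  obtain ⟨τ, hτ⟩ := exists_conj_dih H' hcard
  -- the element `e c`
  have hcore : ∀ σ : P4, (σ⁻¹ * e c * σ) * pa = pa * (σ⁻¹ * e c * σ) := by
    intro σ
    obtain ⟨g, hg⟩ := e.surjective (σ * τ⁻¹)
    have h1 := (hmem _).1 (hc g)
    rw [hτ, map_mul, map_mul, map_inv, hg] at h1
    have h2 : τ⁻¹ * ((σ * τ⁻¹)⁻¹ * e c * (σ * τ⁻¹)) * τ = σ⁻¹ * e c * σ := by group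
    rw [h2] at h1
    exact h1
  obtain ⟨σ, hσ⟩ := conj_pa (e c) (core_dih _ hcore) (fun h => hc1 (by
    have : e c = e 1 := by rw [h, map_one]
    exact e.injective this))
  set f : P4 →* G := e.symm.toMonoidHom.comp (MulAut.conj σ).toMonoidHom with hf
  have hf' : ∀ x, f x = e.symm (σ * x * σ⁻¹) := fun x => rfl
  have hρ' : Irred (ρ.comp f : Representation ℂ P4 V) :=
    hρ.comp f (e.symm.surjective.comp (MulAut.conj σ).surjective)
  have happ : ∀ x v, (ρ.comp f : Representation ℂ P4 V) x v = ρ (e.symm (σ * x * σ⁻¹)) v :=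
    fun x v => rfl
  have hsm := s4_double hρ' (by
    intro v h1 h2 h3
    have hpow : ∀ x : P4, (ρ.comp f : Representation ℂ P4 V) x v = v →
        ∀ n : ℕ, (ρ.comp f : Representation ℂ P4 V) (x ^ n) v = v := by
      intro x hx n
      induction n with
      | zero => rw [pow_zero, map_one]; rfl
      | succ n ih => rw [pow_succ, mul_app, hx, ih]
    have hall : ∀ x ∈ dih, (ρ.comp f : Representation ℂ P4 V) x v = v := by
      intro x hx
      obtain ⟨i, j, l, rfl⟩ := dih_gen x hx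
      rw [mul_app, mul_app, hpow _ h3, hpow _ h2, hpow _ h1]
    have h4 : ρ (e.symm (τ * σ⁻¹)) v = 0 := by
      apply hfix
      intro g hg
      have h5 := (hτ _).1 ((hmem g).1 hg)
      have h6 := hall _ h5
      rw [happ] at h6
      rw [← mul_app]
      have h7 : g * e.symm (τ * σ⁻¹) = e.symm (τ * σ⁻¹) * e.symm (σ * (τ⁻¹ * e g * τ) * σ⁻¹) := by
        apply e.injective
        simp only [map_mul, e.apply_symm_apply]
        group
      rw [h7, mul_app, h6]
    have h5 : ρ (e.symm (τ * σ⁻¹))⁻¹ (ρ (e.symm (τ * σ⁻¹)) v) = v := by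
      rw [← mul_app, inv_mul_cancel, map_one]; rfl
    rw [← h5, h4, map_zero])
  have hfc : (ρ.comp f : Representation ℂ P4 V) pa = ρ c := by
    change ρ (e.symm (σ * pa * σ⁻¹)) = ρ c
    rw [hσ, e.symm_apply_apply]
  intro v v' h1 h2 h0
  exact hsm v v' (by rw [hfc]; exact h1) (by rw [hfc]; exact h2) h0

end Pool.Agent.V5helper65.LG
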