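import Pool.Agent.V5helper65.LG.Closure

/-!
# Core-free subgroups of small index
-/

set_option autoImplicit false

namespace Pool.Agent.V5helper65.LG

open Module Finset

section groups

variable {G : Type} [Group G] [Finite G] {H : Subgroup G}

/-- the action on the cosets -/
theorem quartic_hom (hidx : H.index = 4) (hcore : ∀ g : G, (∀ h : G, h⁻¹ * g * h ∈ H) → g = 1) :
    ∃ φ : G →* P4, Function.Injective φ ∧ ∀ g, g ∈ H ↔ φ g 3 = 3 := by
  classical
  have hcard : Nat.card (G ⧸ H) = 4 := hidx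
  set e₀ : (G ⧸ H) ≃ Fin 4 := Finite.equivFinOfCardEq hcard with he₀
  set e : (G ⧸ H) ≃ Fin 4 := e₀.trans (Equiv.swap (e₀ ((1 : G) : G ⧸ H)) 3) with he
  have he1 : e ((1 : G) : G ⧸ H) = 3 := by
    rw [he, Equiv.trans_apply, Equiv.swap_apply_left]
  let φ : G →* P4 := (e.permCongrHom : Equiv.Perm (G ⧸ H) ≃* P4).toMonoidHom.comp
    (MulAction.toPermHom G (G ⧸ H))
  have hφ : ∀ g (x : G), φ g (e (x : G ⧸ H)) = e ((g * x : G) : G ⧸ H) := by
    intro g x
    change e (MulAction.toPermHom G (G ⧸ H) g (e.symm (e (x : G ⧸ H)))) = _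
    rw [e.symm_apply_apply]
    rfl
  refine ⟨φ, ?_, ?_⟩
  · rw [injective_iff_map_eq_one]
    intro g hg
    apply hcore
    intro x
    have h1 := hφ g x
    rw [hg] at h1
    have h2 : (x : G ⧸ H) = ((g * x : G) : G ⧸ H) := e.injective h1
    rw [QuotientGroup.eq] at h2
    rw [mul_assoc]
    exact h2
  · intro g
    have h1 := hφ g 1
    rw [he1, mul_one] at h1
    rw [h1, ← he1]
    constructor
    · intro hg
      congr 1
      rw [QuotientGroup.eq, mul_one]
      exact H.inv_mem hg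
    · intro hg
      have h2 := e.injective hg
      rw [QuotientGroup.eq, mul_one] at h2
      have := H.inv_mem h2
      rwa [inv_inv] at this

theorem conj_ps : ∀ x : P4, x * x = 1 → x ≠ 1 → x 3 = 3 → ∃ σ : P4, σ 3 = 3 ∧ σ * x * σ⁻¹ = ps := by
  decide

theorem stab_gen : ∀ g : P4, g 3 = 3 → ∃ (i : Fin 3) (j : Fin 2), g = pt ^ (i : ℕ) * ps ^ (j : ℕ) := by
  decide

theorem stab_ps : ps 3 = 3 := by decide
theorem stab_pt : pt 3 = 3 := by decide

theorem inv_app (f : P4) (x : Fin 4) : f⁻¹ (f x) = x := f.symm_apply_apply x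

/-- transport of irreducibility -/
theorem Irred.comp {G' V : Type} [Group G'] [AddCommGroup V] [Module ℂ V]
    {ρ : Representation ℂ G V} (hρ : Irred ρ) (f : G' →* G) (hf : Function.Surjective f) :
    Irred (ρ.comp f : Representation ℂ G' V) := by
  refine ⟨hρ.1, fun U hU => hρ.2 U ?_⟩
  intro g u hu
  obtain ⟨g', rfl⟩ := hf g
  exact hU g' u hu

theorem card_P4 : Nat.card P4 = 24 := by
  rw [Nat.card_eq_fintype_card, Fintype.card_perm, Fintype.card_fin]
  rfl

variable {V : Type} [AddCommGroup V] [Module ℂ V] {ρ : Representation ℂ G V}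

/-- the symmetric group -/
theorem small_24 (hidx : H.index = 4)
    (hcore : ∀ g : G, (∀ h : G, h⁻¹ * g * h ∈ H) → g = 1) (h24 : Nat.card G = 24) (c : G)
    (hcc : c * c = 1) (hcH : c ∈ H) (hc1 : c ≠ 1) (hρ : Irred ρ)
    (hfix : ∀ v : V, (∀ g ∈ H, ρ g v = v) → v = 0) : Small ρ c := by
  obtain ⟨φ₀, hinj₀, hH₀⟩ := quartic_hom hidx hcore
  obtain ⟨σ, hσ3, hσ⟩ := conj_ps (φ₀ c) (by rw [← map_mul, hcc, map_one])
    (fun h => hc1 (hinj₀ (by rw [h, map_one]))) ((hH₀ c).1 hcH)
  set φ : G →* P4 := (MulAut.conj σ).toMonoidHom.comp φ₀ with hφ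
  have hφ' : ∀ g, φ g = σ * φ₀ g * σ⁻¹ := fun g => rfl
  have hinj : Function.Injective φ := (MulAut.conj σ).injective.comp hinj₀
  have hσ3' : σ⁻¹ 3 = 3 := by
    rw [Equiv.Perm.inv_eq_iff_eq]; exact hσ3.symm
  have hH : ∀ g, φ g 3 = 3 → g ∈ H := by
    intro g hg
    rw [hH₀]
    rw [hφ', Equiv.Perm.mul_apply, Equiv.Perm.mul_apply, hσ3'] at hg
    have := congrArg (fun z => σ⁻¹ z) hg
    simp only [inv_app, hσ3'] at this
    exact this
  have hbij : Function.Bijective φ := by
    haveI : Fintype G := Fintype.ofFinite G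
    rw [Fintype.bijective_iff_injective_and_card]
    refine ⟨hinj, ?_⟩
    rw [← Nat.card_eq_fintype_card, ← Nat.card_eq_fintype_card, h24, card_P4]
  set e : G ≃* P4 := MulEquiv.ofBijective φ hbij with he
  have hρ' : Irred (ρ.comp e.symm.toMonoidHom : Representation ℂ P4 V) :=
    hρ.comp e.symm.toMonoidHom e.symm.surjective
  have happ : ∀ x v, (ρ.comp e.symm.toMonoidHom : Representation ℂ P4 V) x v = ρ (e.symm x) v :=
    fun x v => rfl
  have hec : e.symm ps = c := by
    rw [MulEquiv.symm_apply_eq]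
    exact hσ.symm
  have hsm := s4_swap hρ' (by
    intro v h1 h2
    apply hfix
    intro g hg
    obtain ⟨i, j, hij⟩ := stab_gen (φ g) (by
      rw [hφ', Equiv.Perm.mul_apply, Equiv.Perm.mul_apply, hσ3', (hH₀ g).1 hg, hσ3])
    have h3 : e g = pt ^ (i : ℕ) * ps ^ (j : ℕ) := hij
    have h4 : ρ g v = (ρ.comp e.symm.toMonoidHom : Representation ℂ P4 V) (e g) v := by
      rw [happ, e.symm_apply_apply]
    have hpow : ∀ x : P4, (ρ.comp e.symm.toMonoidHom : Representation ℂ P4 V) x v = v →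
        ∀ n : ℕ, (ρ.comp e.symm.toMonoidHom : Representation ℂ P4 V) (x ^ n) v = v := by
      intro x hx n
      induction n with
      | zero => rw [pow_zero, map_one]; rfl
      | succ n ih => rw [pow_succ, mul_app, hx, ih]
    rw [h4, h3, mul_app, hpow _ h1, hpow _ h2])
  intro v v' h1 h2 h0
  exact hsm v v' (by rw [happ, hec]; exact h1) (by rw [happ, hec]; exact h2) h0

/-- subgroups of order two -/
theorem small_two [FiniteDimensional ℂ V] (hG : Nat.card G ≤ 8) (h2 : Nat.card H = 2)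
    (hcore : ∀ g : G, (∀ h : G, h⁻¹ * g * h ∈ H) → g = 1) (hρ : Irred ρ)
    (hfix : ∀ v : V, (∀ g ∈ H, ρ g v = v) → v = 0) (c : G) : Small ρ c := by
  classical
  obtain ⟨s, hs⟩ : ∃ s : H, s ≠ 1 := by
    haveI : Nontrivial H := Finite.one_lt_card_iff_nontrivial.1 (by omega)
    exact exists_ne 1
  have hall : ∀ g ∈ H, g = 1 ∨ g = s := by
    intro g hg
    by_contra hcon
    push Not at hcon
    haveI : Fintype H := Fintype.ofFinite H
    have h3 : ({1, s, ⟨g, hg⟩} : Finset H).card ≤ 2 := by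
      rw [← h2, Nat.card_eq_fintype_card]
      exact Finset.card_le_univ _
    have h4 : ({1, s, ⟨g, hg⟩} : Finset H).card = 3 := by
      rw [Finset.card_eq_three]
      exact ⟨1, s, ⟨g, hg⟩, hs.symm, fun h => hcon.1 (congrArg Subtype.val h).symm,
        fun h => hcon.2 (congrArg Subtype.val h).symm, rfl⟩
    omega
  have hss : (s : G) * s = 1 := by
    rcases hall _ (H.mul_mem s.2 s.2) with h | h
    · exact h
    · exact absurd (Subtype.ext (mul_eq_left.1 h) : s = 1) hs
  obtain ⟨g, hg⟩ : ∃ g : G, (s : G) * g ≠ g * s := by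
    by_contra hcon
    push Not at hcon
    apply hs
    apply Subtype.ext
    apply hcore
    intro h
    rw [mul_assoc, hcon h, inv_mul_cancel_left]
    exact s.2
  have h5 := small_of_invol hρ hG (s : G) g hss hg (by
    intro v hv
    apply hfix
    intro h hh
    rcases hall h hh with rfl | rfl
    · rw [map_one]; rfl
    · exact hv)
  intro v v' _ _ h0
  exact h5 v v' h0

theorem klein_normal : ∀ x y : P4, (x = 1 ∨ x = pa ∨ x = pb ∨ x = pa * pb) →
    (y * x * y⁻¹ = 1 ∨ y * x * y⁻¹ = pa ∨ y * x * y⁻¹ = pb ∨ y * x * y⁻¹ = pa * pb) := by decide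

theorem klein_mul : ∀ x y : P4, (x = 1 ∨ x = pa ∨ x = pb ∨ x = pa * pb) →
    (y = 1 ∨ y = pa ∨ y = pb ∨ y = pa * pb) →
    (x * y = 1 ∨ x * y = pa ∨ x * y = pb ∨ x * y = pa * pb) := by decide

theorem klein_inv : ∀ x : P4, (x = 1 ∨ x = pa ∨ x = pb ∨ x = pa * pb) →
    (x⁻¹ = 1 ∨ x⁻¹ = pa ∨ x⁻¹ = pb ∨ x⁻¹ = pa * pb) := by decide

/-- the four group -/
def klein : Subgroup P4 where
  carrier := {x | x = 1 ∨ x = pa ∨ x = pb ∨ x = pa * pb}
  mul_mem' := fun {a b} ha hb => klein_mul a b ha hb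
  one_mem' := Or.inl rfl
  inv_mem' := fun {a} ha => klein_inv a ha

theorem klein_fix : ∀ x : P4, (x = 1 ∨ x = pa ∨ x = pb ∨ x = pa * pb) → x 3 = 3 → x = 1 := by
  decide

theorem klein_trans : ∀ i : Fin 4, ∃ x : P4, (x = 1 ∨ x = pa ∨ x = pb ∨ x = pa * pb) ∧ x 3 = i := by
  decide

theorem klein_sq : ∀ x : P4, (x = 1 ∨ x = pa ∨ x = pb ∨ x = pa * pb) → ∃ y : P4, x = y ^ 2 := by
  decide

theorem klein_cent' : ∀ x : P4, x * x * x = 1 → x 3 = 3 → x ≠ 1 →
    (x * pa ≠ pa * x ∧ x * pb ≠ pb * x ∧ x * (pa * pb) ≠ (pa * pb) * x) := by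
  decide

theorem klein_cent (x : P4) (h : x * x * x = 1) (h3 : x 3 = 3) (h1 : x ≠ 1) (n : P4)
    (hn : n = 1 ∨ n = pa ∨ n = pb ∨ n = pa * pb) (hc : x * n = n * x) : n = 1 := by
  obtain ⟨ha, hb, hab⟩ := klein_cent' x h h3 h1
  rcases hn with rfl | rfl | rfl | rfl
  · rfl
  · exact absurd hc ha
  · exact absurd hc hb
  · exact absurd hc hab

/-- the alternating group -/
theorem small_12 [FiniteDimensional ℂ V] (hidx : H.index = 4)
    (hcore : ∀ g : G, (∀ h : G, h⁻¹ * g * h ∈ H) → g = 1) (h12 : Nat.card G = 12) (hρ : Irred ρ)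
    (hfix : ∀ v : V, (∀ g ∈ H, ρ g v = v) → v = 0) (c : G) : Small ρ c := by
  obtain ⟨φ, hinj, hH⟩ := quartic_hom hidx hcore
  have h3 : Nat.card H = 3 := by
    have := Subgroup.index_mul_card H
    rw [hidx, h12] at this
    omega
  have hcomm : ∀ g ∈ H, ∀ h ∈ H, g * h = h * g := by
    intro g hg h hh
    exact congrArg Subtype.val (comm_of_card_le (Q := H) (by omega) ⟨g, hg⟩ ⟨h, hh⟩)
  have hcube : ∀ g ∈ H, g * g * g = 1 := by
    intro g hg
    have h4 : (⟨g, hg⟩ : H) ^ 3 = 1 := by rw [← h3]; exact pow_card_eq_one'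
    have h5 := congrArg Subtype.val h4
    have h6 : g ^ 3 = 1 := h5
    rw [pow_succ, pow_two] at h6
    exact h6
  have hrange : φ.range.index = 2 := by
    have h4 : Nat.card φ.range = 12 := by
      rw [← h12]
      exact (Nat.card_congr (MonoidHom.ofInjective hinj).toEquiv).symm
    have := Subgroup.index_mul_card φ.range
    rw [h4, card_P4] at this
    omega
  have hmem : ∀ x : P4, (x = 1 ∨ x = pa ∨ x = pb ∨ x = pa * pb) → ∃ g, φ g = x := by
    intro x hx
    obtain ⟨y, rfl⟩ := klein_sq x hx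
    exact Subgroup.sq_mem_of_index_two hrange y
  have h6 := frobenius_small hρ (klein.comap φ) H
    ⟨fun n hn g => by
      change _ ∈ klein at hn
      change φ (g * n * g⁻¹) ∈ klein
      rw [map_mul, map_mul, map_inv]
      exact klein_normal _ _ hn⟩
    (by
      intro g hg hgH
      apply hinj
      rw [map_one]
      exact klein_fix _ hg ((hH g).1 hgH))
    (by
      intro g
      obtain ⟨x, hx, hx3⟩ := klein_trans (φ g 3)
      obtain ⟨n, rfl⟩ := hmem x hx
      refine ⟨n, hx, n⁻¹ * g, ?_, by group⟩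
      rw [hH, map_mul, map_inv, Equiv.Perm.mul_apply, ← hx3]
      exact inv_app _ _)
    (by
      intro h hh h1 n hn hcom
      apply hinj
      rw [map_one]
      refine klein_cent (φ h) ?_ ((hH h).1 hh) ?_ (φ n) hn ?_
      · rw [← map_mul, ← map_mul, hcube h hh, map_one]
      · intro h7
        exact h1 (hinj (by rw [h7, map_one]))
      · rw [← map_mul, ← map_mul, hcom])
    hcomm hfix
  intro v v' _ _ h0
  exact h6 v v' h0

theorem small_trivial (h1 : Nat.card H = 1) (hfix : ∀ v : V, (∀ g ∈ H, ρ g v = v) → v = 0) (c : G) :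
    Small ρ c := by
  intro v v' _ _ h0
  exfalso
  apply h0
  apply hfix
  intro g hg
  have h2 : H = ⊥ := Subgroup.card_eq_one.1 h1
  rw [h2, Subgroup.mem_bot] at hg
  rw [hg, map_one]
  rfl

/-- **Core-free subgroups of index at most four.** -/
theorem small_le_four [FiniteDimensional ℂ V] (hidx : H.index ≤ 4)
    (hcore : ∀ g : G, (∀ h : G, h⁻¹ * g * h ∈ H) → g = 1) (c : G)
    (hcc : c * c = 1) (h24 : Nat.card G = 24 → c ∈ H ∧ c ≠ 1) (hρ : Irred ρ)
    (hfix : ∀ v : V, (∀ g ∈ H, ρ g v = v) → v = 0) : Small ρ c := by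
  have hpos : 0 < H.index := Nat.pos_of_ne_zero Subgroup.index_ne_zero_of_finite
  have hmul := Subgroup.index_mul_card H
  have hnormal : H.Normal → Nat.card H = 1 := by
    intro hn
    rw [Subgroup.card_eq_one, Subgroup.eq_bot_iff_forall]
    intro x hx
    apply hcore
    intro h
    have := hn.conj_mem x hx h⁻¹
    rwa [inv_inv] at this
  interval_cases hi : H.index
  · apply small_trivial (hnormal ?_) hfix
    rw [Subgroup.index_eq_one] at hi
    rw [hi]
    infer_instance
  · exact small_trivial (hnormal (Subgroup.normal_of_index_eq_two hi)) hfix c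
  · -- index three
    obtain ⟨hle⟩ : Nonempty (Nat.card G ∣ 6) := by
      constructor
      have h1 : Nat.card (G ⧸ H) = 3 := hi
      have hinj : Function.Injective (MulAction.toPermHom G (G ⧸ H)) := by
        rw [injective_iff_map_eq_one]
        intro g hg
        apply hcore
        intro x
        have h1 : MulAction.toPermHom G (G ⧸ H) g (x : G ⧸ H) = (x : G ⧸ H) := by rw [hg]; rfl
        have h2 : ((g * x : G) : G ⧸ H) = (x : G ⧸ H) := h1
        have h3 := h2.symm
        rw [QuotientGroup.eq] at h3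
        rw [mul_assoc]
        exact h3
      have h2 := Subgroup.card_dvd_of_injective _ hinj
      rw [Nat.card_perm, h1] at h2
      exact h2
    have h1 : Nat.card G ≤ 6 := Nat.le_of_dvd (by norm_num) hle
    have h2 : Nat.card H ≤ 2 := by omega
    have h3 : 0 < Nat.card H := Nat.card_pos
    have h4 : Nat.card H = 1 ∨ Nat.card H = 2 := by omega
    rcases h4 with h4 | h4
    · exact small_trivial h4 hfix c
    · exact small_two (by omega) h4 hcore hρ hfix c
  · -- index four
    obtain ⟨φ, hinj, -⟩ := quartic_hom hi hcore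
    have h1 : Nat.card G ∣ 24 := by
      rw [← card_P4]
      exact Subgroup.card_dvd_of_injective φ hinj
    have h2 : Nat.card H ∣ 6 := by
      rw [← hmul] at h1
      have h3 : 4 * Nat.card H ∣ 4 * 6 := h1
      exact Nat.dvd_of_mul_dvd_mul_left (by norm_num) h3
    have h3 : Nat.card H ≤ 6 := Nat.le_of_dvd (by norm_num) h2
    have h4 : 0 < Nat.card H := Nat.card_pos
    have h5 : Nat.card H = 1 ∨ Nat.card H = 2 ∨ Nat.card H = 3 ∨ Nat.card H = 6 := by
      interval_cases hc : Nat.card H <;> simp_all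
    rcases h5 with h5 | h5 | h5 | h5
    · exact small_trivial h5 hfix c
    · exact small_two (by omega) h5 hcore hρ hfix c
    · exact small_12 hi hcore (by omega) hρ hfix c
    · have h6 : Nat.card G = 24 := by omega
      exact small_24 hi hcore h6 c hcc (h24 h6).1 (h24 h6).2 hρ hfix

end groups

end Pool.Agent.V5helper65.LG
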