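import Pool.Agent.V5helper65.LG.Resolvent

/-!
# Fields with group `S₄` over totally real cubic fields
-/

set_option autoImplicit false

namespace Pool.Agent.V5helper65.LG

open Module Finset NumberField Polynomial
open Pool.Agent.H637R2.Leo (Leopoldt)

section groups

variable {G : Type} [Group G] [Finite G] {H : Subgroup G}

theorem card_embed (φ : G →* P4) (hφ : Function.Injective φ)
    (hidx : H.index = 3) (c : G) (hcc : c * c = 1) (hc : ∀ g : G, g⁻¹ * c * g ∈ H) (hc1 : c ≠ 1) :
    Nat.card G = 12 ∨ Nat.card G = 24 := by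
  classical
  have hmul := Subgroup.index_mul_card H
  rw [hidx] at hmul
  have hdvd : Nat.card G ∣ 24 := by
    rw [← card_P4]
    exact Subgroup.card_dvd_of_injective φ hφ
  have hH8 : Nat.card H ∣ 8 := by
    rw [← hmul] at hdvd
    have h3 : 3 * Nat.card H ∣ 3 * 8 := hdvd
    exact Nat.dvd_of_mul_dvd_mul_left (by norm_num) h3
  have hcH : c ∈ H := by
    have := hc 1
    rwa [inv_one, one_mul, mul_one] at this
  have hφcc : φ c * φ c = 1 := by rw [← map_mul, hcc, map_one]
  have hφc1 : φ c ≠ 1 := fun h => hc1 (hφ (by rw [h, map_one]))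
  rcases card_cases hH8 with h | h | h | h
  · exfalso
    have h2 : H = ⊥ := Subgroup.card_eq_one.1 h
    rw [h2, Subgroup.mem_bot] at hcH
    exact hc1 hcH
  · exfalso
    have hG6 : Nat.card G = 6 := by omega
    haveI : Fact (Nat.Prime 3) := ⟨Nat.prime_three⟩
    obtain ⟨g, hg⟩ := exists_prime_orderOf_dvd_card' (G := G) 3 (by rw [hG6]; norm_num)
    have hg3 : g * g * g = 1 := by
      have := pow_orderOf_eq_one g
      rw [hg, pow_succ, pow_two] at this
      exact this
    have hg1 : g ≠ 1 := by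
      rintro rfl
      rw [orderOf_one] at hg
      norm_num at hg
    have hcent : g⁻¹ * c * g = c := by
      by_contra hne
      have hne1 : g⁻¹ * c * g ≠ 1 := by
        intro h0
        apply hc1
        have : g * (g⁻¹ * c * g) * g⁻¹ = g * 1 * g⁻¹ := by rw [h0]
        simpa [mul_assoc] using this
      haveI : Fintype H := Fintype.ofFinite H
      have h3 : ({1, ⟨c, hcH⟩, ⟨g⁻¹ * c * g, hc g⟩} : Finset H).card ≤ 2 := by
        rw [← h, Nat.card_eq_fintype_card]
        exact Finset.card_le_univ _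
      have h4 : ({1, ⟨c, hcH⟩, ⟨g⁻¹ * c * g, hc g⟩} : Finset H).card = 3 := by
        rw [Finset.card_eq_three]
        exact ⟨1, ⟨c, hcH⟩, ⟨g⁻¹ * c * g, hc g⟩, fun h => hc1 (congrArg Subtype.val h).symm,
          fun h => hne1 (congrArg Subtype.val h).symm,
          fun h => hne (congrArg Subtype.val h).symm, rfl⟩
      omega
    apply hφc1
    refine no_comm_three (φ g) (φ c) ?_ ?_ hφcc ?_
    · rw [← map_mul, ← map_mul, hg3, map_one]
    · intro h0; exact hg1 (hφ (by rw [h0, map_one]))
    · rw [← map_mul, ← map_mul]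
      congr 1
      have : g * (g⁻¹ * c * g) = g * c := by rw [hcent]
      rw [← this]; group
  · left; omega
  · right; omega

/-- in groups of order twelve the subgroup of index three is normal -/
theorem normal_of_12 (φ : G →* P4) (hφ : Function.Injective φ) (hidx : H.index = 3)
    (h12 : Nat.card G = 12) : H.Normal := by
  have hmul := Subgroup.index_mul_card H
  rw [hidx, h12] at hmul
  have h : Nat.card H = 4 := by omega
  have hrange : φ.range.index = 2 := by
    have h4 : Nat.card φ.range = 12 := by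
      rw [← h12]
      exact (Nat.card_congr (MonoidHom.ofInjective hφ).toEquiv).symm
    have := Subgroup.index_mul_card φ.range
    rw [h4, card_P4] at this
    omega
  have halt : φ.range = alternatingGroup (Fin 4) :=
    Equiv.Perm.eq_alternatingGroup_of_index_eq_two hrange
  have hsign : ∀ g, Equiv.Perm.sign (φ g) = 1 := by
    intro g
    have h1 : φ g ∈ alternatingGroup (Fin 4) := by rw [← halt]; exact ⟨g, rfl⟩
    exact Equiv.Perm.mem_alternatingGroup.1 h1
  have hle : H ≤ klein.comap φ := by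
    intro g hg
    have hg4 : g * g * (g * g) = 1 := by
      have h4 : (⟨g, hg⟩ : H) ^ 4 = 1 := by rw [← h]; exact pow_card_eq_one'
      have h5 := congrArg Subtype.val h4
      have h6 : g ^ 4 = 1 := h5
      rw [← h6, pow_succ, pow_succ, pow_two]
      simp only [mul_assoc]
    refine even_four _ (hsign g) ?_
    rw [← map_mul, ← map_mul, hg4, map_one]
  have hkl : Nat.card (klein.comap φ) ≤ 4 := by
    have h1 : Nat.card (klein.comap φ) ≤ Nat.card klein :=
      Nat.card_le_card_of_injective (fun x : klein.comap φ => (⟨φ x, x.2⟩ : klein))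
        (fun x y hxy => Subtype.ext (hφ (congrArg Subtype.val hxy)))
    have h2 : Nat.card klein = Nat.card {x : P4 // x = 1 ∨ x = pa ∨ x = pb ∨ x = pa * pb} := rfl
    have h3 : Nat.card {x : P4 // x = 1 ∨ x = pa ∨ x = pb ∨ x = pa * pb} = 4 := by
      rw [Nat.card_eq_fintype_card]
      decide
    omega
  have heq : H = klein.comap φ := Subgroup.eq_of_le_of_card_ge hle (by rw [h]; exact hkl)
  rw [heq]
  refine ⟨fun n hn g => ?_⟩
  change φ (g * n * g⁻¹) ∈ klein
  rw [map_mul, map_mul, map_inv]
  exact klein_normal _ _ hn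

end groups

theorem isGalois_of_splitting (F : Type) [Field F] [NumberField F] (q : ℚ[X])
    [q.IsSplittingField ℚ F] : IsGalois ℚ F := by
  haveI : Normal ℚ F := Normal.of_isSplittingField q
  exact ⟨⟩

variable {K F : Type} [Field K] [NumberField K] [Field F] [NumberField F]

/-- `K` and its image -/
noncomputable def equivRange (j : K →+* F) : K ≃ₐ[ℚ] rangeF j :=
  AlgEquiv.ofBijective
    (RingHom.toRatAlgHom
      ({ toFun := fun x => ⟨j x, ⟨x, rfl⟩⟩
         map_one' := Subtype.ext (map_one j)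
         map_mul' := fun x y => Subtype.ext (map_mul j x y)
         map_zero' := Subtype.ext (map_zero j)
         map_add' := fun x y => Subtype.ext (map_add j x y) } : K →+* rangeF j))
    ⟨fun x y hxy => j.injective (congrArg Subtype.val hxy), by
      rintro ⟨y, ⟨x, rfl⟩⟩
      exact ⟨x, rfl⟩⟩

/-- **Fields with group `A₄` or `S₄` over totally real cubic fields.** -/
theorem resolvent_main [IsTotallyReal K] (hK : finrank ℚ K = 3) (α : K)
    (hα : ∀ r : ℚ, α ≠ (r : K)) (s₁ s₂ w : ℚ)
    (h : α ^ 3 - (s₁ : K) * α ^ 2 + (s₂ : K) * α - (w : K) ^ 2 = 0)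
    (hneg : ∃ τ : K →+* ℂ, (τ α).re < 0) (hF : (quartic s₁ s₂ w).IsSplittingField ℚ F) :
    IsTotallyComplex F ∧ (finrank ℚ F = 12 ∨ finrank ℚ F = 24) ∧
      (¬ IsGalois ℚ K → Nonempty ((F ≃ₐ[ℚ] F) ≃* Equiv.Perm (Fin 4))) ∧ Nonempty (K →+* F) ∧
      ∀ (p : ℕ) [Fact p.Prime], Leopoldt K p → Leopoldt F p := by
  classical
  haveI : IsGalois ℚ F := isGalois_of_splitting F (quartic s₁ s₂ w)
  obtain ⟨x, hx⟩ := exists_resolvent (F := F) s₁ s₂ w
  obtain ⟨j, hj⟩ := exists_hom_cubic hK α hα (x ^ 2) s₁ s₂ (w ^ 2)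
    (by push_cast; exact h) (by push_cast; exact hx)
  -- not totally real
  obtain ⟨τ₀, hτ₀⟩ := hneg
  obtain ⟨τ, hτ⟩ := exists_extend j τ₀
  have hnr : ¬ ComplexEmbedding.IsReal τ := by
    intro hr
    rw [real_iff] at hr
    have h1 : τ₀ α = (τ x) ^ 2 := by rw [← hτ, hj, map_pow]
    obtain ⟨y, hy⟩ := Complex.conj_eq_iff_real.1 (hr x)
    rw [h1, hy, ← Complex.ofReal_pow, Complex.ofReal_re] at hτ₀
    exact absurd hτ₀ (not_lt.2 (sq_nonneg y))
  obtain ⟨c, hc⟩ := exists_conj τ
  have hcH : ∀ g : F ≃ₐ[ℚ] F, g⁻¹ * c * g ∈ fixG j := by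
    intro g y
    have h1 : c (g (j y)) = g (j y) := by
      apply τ.injective
      rw [hc]
      have h2 := (real_iff _).1 (IsTotallyReal.complexEmbedding_isReal
        ((τ.comp (g : F →+* F)).comp j)) y
      exact h2
    change g.symm (c (g (j y))) = j y
    rw [h1, g.symm_apply_apply]
  have hc1 : c ≠ 1 := by
    rintro rfl
    apply hnr
    rw [real_iff]
    intro y
    exact (hc y).symm
  obtain ⟨φ, hφ⟩ := exists_embed (F := F) (quartic s₁ s₂ w) (quartic_natDegree s₁ s₂ w)
  have hidx : (fixG j).index = 3 := by rw [index_fixG, hK]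
  have hcard := card_embed φ hφ hidx c (conj_sq' hc) hcH hc1
  refine ⟨⟨fun v => ?_⟩, by rwa [card_gal] at hcard, fun hG => ?_, ⟨j⟩, fun p _ hL => ?_⟩
  · rw [InfinitePlace.isComplex_iff]
    intro hr
    exact hnr (real_of_real hr)
  · rcases hcard with h12 | h24
    · exfalso
      apply hG
      have hn := normal_of_12 φ hφ hidx h12
      rw [fixG_eq] at hn
      have h1 : IsGalois ℚ (rangeF j) := (InfiniteGalois.normal_iff_isGalois _).1 hn
      exact IsGalois.of_algEquiv (equivRange j).symm
    · have hbij : Function.Bijective φ := by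
        haveI : Fintype (F ≃ₐ[ℚ] F) := Fintype.ofFinite _
        rw [Fintype.bijective_iff_injective_and_card]
        refine ⟨hφ, ?_⟩
        rw [← Nat.card_eq_fintype_card, ← Nat.card_eq_fintype_card, h24, card_P4]
      exact ⟨MulEquiv.ofBijective φ hbij⟩
  · refine transfer j τ c hc ?_ hL
    intro V _ _ _ ρ hρ hfix
    exact (small_embed φ hφ hidx c (conj_sq' hc) hcH hc1 hρ hfix).2

end Pool.Agent.V5helper65.LG
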