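import Pool.Agent.V5helper65.LG.Crit

/-!
# Representations of some groups
-/

set_option autoImplicit false

namespace Pool.Agent.V5helper65.LG

open Module Finset

section general

variable {G V : Type} [Group G] [AddCommGroup V] [Module ℂ V]
  {ρ : Representation ℂ G V}

/-- All pairs of vectors fixed by `c` are proportional. -/
def Small (ρ : Representation ℂ G V) (c : G) : Prop :=
  ∀ v v' : V, ρ c v = v → ρ c v' = v' → v ≠ 0 → ∃ κ : ℂ, v' = κ • v

theorem mul_app (g h : G) (v : V) : ρ (g * h) v = ρ g (ρ h v) := by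
  rw [map_mul]; rfl

/-- If `ρ` is scalar on a nonzero vector it is one dimensional. -/
theorem prop_of_line (hρ : Irred ρ) {u : V} (hu0 : u ≠ 0) (hu : ∀ g, ∃ κ : ℂ, ρ g u = κ • u)
    (v v' : V) (hv : v ≠ 0) : ∃ κ : ℂ, v' = κ • v := by
  have h1 := hρ.2 (Submodule.span ℂ {u}) (by
    intro g w hw
    obtain ⟨α, rfl⟩ := Submodule.mem_span_singleton.1 hw
    obtain ⟨κ, hκ⟩ := hu g
    rw [map_smul, hκ]
    exact Submodule.smul_mem _ _ (Submodule.smul_mem _ _ (Submodule.mem_span_singleton_self u)))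
  rcases h1 with h1 | h1
  · exact absurd (Submodule.span_singleton_eq_bot.1 h1) hu0
  · have hv1 : v ∈ Submodule.span ℂ {u} := by rw [h1]; trivial
    have hv2 : v' ∈ Submodule.span ℂ {u} := by rw [h1]; trivial
    obtain ⟨α, rfl⟩ := Submodule.mem_span_singleton.1 hv1
    obtain ⟨β, rfl⟩ := Submodule.mem_span_singleton.1 hv2
    have hα : α ≠ 0 := by
      rintro rfl
      exact hv (zero_smul _ _)
    exact ⟨β / α, by rw [smul_smul, div_mul_cancel₀ _ hα]⟩

/-- commuting operators -/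
theorem prop_of_comm [FiniteDimensional ℂ V] (hρ : Irred ρ)
    (hc : ∀ g h v, ρ g (ρ h v) = ρ h (ρ g v)) (v v' : V) (hv : v ≠ 0) : ∃ κ : ℂ, v' = κ • v := by
  haveI := hρ.1
  obtain ⟨u, -, hu0, hu⟩ := Pool.Agent.W254.PA.common_eigen (fun g => ρ g) _ (⊤ : Submodule ℂ V)
    inferInstance rfl top_ne_bot (fun _ _ _ => trivial) (fun g h w _ => hc g h w)
  exact prop_of_line hρ hu0 hu v v' hv

/-- no fixed vectors: the norm is zero -/
theorem norm_eq_zero (H : Subgroup G) [Fintype H] (h : ∀ v : V, (∀ g ∈ H, ρ g v = v) → v = 0)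
    (v : V) : ∑ g : H, ρ (g : G) v = 0 := by
  apply h
  intro g hg
  rw [map_sum]
  refine Fintype.sum_equiv (Equiv.mulLeft (⟨g, hg⟩ : H)) _ _ fun x => ?_
  rw [← mul_app]
  rfl

/-- The kernel of Frobenius groups acts trivially if there are no vectors fixed by the
complement. -/
theorem frobenius_trivial (N H : Subgroup G) [Fintype N] [Fintype H] (hN : N.Normal)
    (hNH : ∀ g ∈ N, g ∈ H → g = 1)
    (hfree : ∀ h ∈ H, h ≠ 1 → ∀ n ∈ N, h * n = n * h → n = 1)
    (hfix : ∀ v : V, (∀ g ∈ H, ρ g v = v) → v = 0) (n : G) (hn : n ∈ N) (v : V) : ρ n v = v := by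
  classical
  -- averages over the cosets
  have key : ∀ h ∈ H, h ≠ 1 → ∀ w : V, ∑ n : N, ρ ((n : G) * h * (n : G)⁻¹) w =
      ∑ n : N, ρ (n : G) (ρ h w) := by
    intro h hh h1 w
    have hmem : ∀ n : N, (n : G) * h * (n : G)⁻¹ * h⁻¹ ∈ N := by
      intro n
      have h2 : (n : G) * h * (n : G)⁻¹ * h⁻¹ = (n : G) * (h * (n : G)⁻¹ * h⁻¹) := by group
      rw [h2]
      exact N.mul_mem n.2 (hN.conj_mem _ (N.inv_mem n.2) h)
    set f : N → N := fun n => ⟨(n : G) * h * (n : G)⁻¹ * h⁻¹, hmem n⟩ with hf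
    have hinj : Function.Injective f := by
      intro n n' hnn
      have h2 : (n : G) * h * (n : G)⁻¹ * h⁻¹ = (n' : G) * h * (n' : G)⁻¹ * h⁻¹ :=
        congrArg Subtype.val hnn
      have h3 : h * ((n' : G)⁻¹ * n) = ((n' : G)⁻¹ * n) * h := by
        have h4 : (n : G) * h * (n : G)⁻¹ = (n' : G) * h * (n' : G)⁻¹ := mul_right_cancel h2
        calc h * ((n' : G)⁻¹ * n) = (n' : G)⁻¹ * ((n' : G) * h * (n' : G)⁻¹) * n := by group
          _ = (n' : G)⁻¹ * ((n : G) * h * (n : G)⁻¹) * n := by rw [h4]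
          _ = ((n' : G)⁻¹ * n) * h := by group
      have h5 := hfree h hh h1 _ (N.mul_mem (N.inv_mem n'.2) n.2) h3
      exact Subtype.ext (inv_mul_eq_one.1 h5).symm
    have hbij : Function.Bijective f := Finite.injective_iff_bijective.1 hinj
    rw [← Function.Bijective.sum_comp hbij (fun n : N => ρ (n : G) (ρ h w))]
    refine Finset.sum_congr rfl fun n _ => ?_
    rw [← mul_app]
    congr 2
    rw [hf]
    simp
  have hzero : ∀ w : V, ∑ n : N, ∑ h : H, ρ ((n : G) * h * (n : G)⁻¹) w = 0 := by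
    intro w
    apply Finset.sum_eq_zero
    intro n _
    have h1 := norm_eq_zero H hfix (ρ ((n : G)⁻¹) w)
    have h2 := congrArg (ρ (n : G)) h1
    rw [map_zero, map_sum] at h2
    rw [← h2]
    refine Finset.sum_congr rfl fun h _ => ?_
    rw [mul_app, mul_app]
  have hmain : ∀ w : V, (Fintype.card N : ℂ) • w = ∑ n : N, ρ (n : G) w := by
    intro w
    have h1 := hzero w
    rw [Finset.sum_comm, ← Finset.add_sum_erase _ _ (Finset.mem_univ (1 : H))] at h1
    have h2 : ∑ n : N, ρ ((n : G) * (1 : H) * (n : G)⁻¹) w = (Fintype.card N : ℂ) • w := by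
      have h3 : ∀ n : N, ρ ((n : G) * (1 : H) * (n : G)⁻¹) w = w := by
        intro n
        simp
      simp only [h3]
      rw [Finset.sum_const, Finset.card_univ]
      exact (Nat.cast_smul_eq_nsmul _ _ _).symm
    have h4 : ∑ x ∈ (Finset.univ : Finset H).erase 1, ∑ n : N, ρ ((n : G) * x * (n : G)⁻¹) w =
        ∑ x ∈ (Finset.univ : Finset H).erase 1, ∑ n : N, ρ (n : G) (ρ (x : G) w) := by
      refine Finset.sum_congr rfl fun x hx => ?_
      exact key x x.2 (fun h => (Finset.mem_erase.1 hx).1 (Subtype.ext h)) w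
    have h5 : ∑ x ∈ (Finset.univ : Finset H).erase 1, ∑ n : N, ρ (n : G) (ρ (x : G) w) =
        - ∑ n : N, ρ (n : G) w := by
      have h6 : ∑ x : H, ∑ n : N, ρ (n : G) (ρ (x : G) w) = 0 := by
        rw [Finset.sum_comm]
        apply Finset.sum_eq_zero
        intro n _
        rw [← map_sum, norm_eq_zero H hfix w, map_zero]
      rw [← Finset.add_sum_erase _ _ (Finset.mem_univ (1 : H))] at h6
      have h7 : ∑ n : N, ρ (n : G) (ρ ((1 : H) : G) w) = ∑ n : N, ρ (n : G) w := by
        refine Finset.sum_congr rfl fun n _ => ?_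
        rw [← mul_app]
        simp
      rw [h7] at h6
      exact (neg_eq_of_add_eq_zero_right h6).symm
    rw [h2, h4, h5] at h1
    exact add_neg_eq_zero.1 h1
  have h1 : ρ n ((Fintype.card N : ℂ) • v) = (Fintype.card N : ℂ) • v := by
    rw [hmain, map_sum]
    refine Fintype.sum_equiv (Equiv.mulLeft (⟨n, hn⟩ : N)) _ _ fun x => ?_
    rw [← mul_app]
    rfl
  rw [map_smul] at h1
  have h2 : (Fintype.card N : ℂ) ≠ 0 := Nat.cast_ne_zero.2 Fintype.card_ne_zero
  exact smul_right_injective V h2 h1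

/-- **Frobenius groups with abelian complement.** -/
theorem frobenius_small [FiniteDimensional ℂ V] (hρ : Irred ρ) (N H : Subgroup G) [Finite N]
    [Finite H] (hN : N.Normal)
    (hNH : ∀ g ∈ N, g ∈ H → g = 1) (hprod : ∀ g : G, ∃ n ∈ N, ∃ h ∈ H, g = n * h)
    (hfree : ∀ h ∈ H, h ≠ 1 → ∀ n ∈ N, h * n = n * h → n = 1)
    (hcomm : ∀ g ∈ H, ∀ h ∈ H, g * h = h * g)
    (hfix : ∀ v : V, (∀ g ∈ H, ρ g v = v) → v = 0) (v v' : V) (hv : v ≠ 0) :
    ∃ κ : ℂ, v' = κ • v := by
  haveI : Fintype N := Fintype.ofFinite N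
  haveI : Fintype H := Fintype.ofFinite H
  have h1 := frobenius_trivial N H hN hNH hfree hfix
  apply prop_of_comm hρ _ v v' hv
  intro g g' w
  obtain ⟨n, hn, h, hh, rfl⟩ := hprod g
  obtain ⟨n', hn', h', hh', rfl⟩ := hprod g'
  simp only [mul_app, h1 n hn, h1 n' hn']
  rw [← mul_app, ← mul_app, hcomm h hh h' hh']

/-- groups with at most four elements are commutative -/
theorem comm_of_card_le {Q : Type} [Group Q] [Finite Q] (h : Nat.card Q ≤ 4) (x y : Q) :
    x * y = y * x := by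
  have h0 : 0 < Nat.card Q := Nat.card_pos
  interval_cases hq : Nat.card Q
  · haveI : Subsingleton Q := (Nat.card_eq_one_iff_unique.1 hq).1
    exact Subsingleton.elim _ _
  · haveI : Fact (Nat.Prime 2) := ⟨Nat.prime_two⟩
    haveI : IsCyclic Q := isCyclic_of_prime_card hq
    letI := IsCyclic.commGroup (α := Q)
    exact mul_comm x y
  · haveI : Fact (Nat.Prime 3) := ⟨Nat.prime_three⟩
    haveI : IsCyclic Q := isCyclic_of_prime_card hq
    letI := IsCyclic.commGroup (α := Q)
    exact mul_comm x y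
  · haveI : Fact (Nat.Prime 2) := ⟨Nat.prime_two⟩
    letI := IsPGroup.commGroupOfCardEqPrimeSq (p := 2) (G := Q) (by rw [hq]; norm_num)
    exact mul_comm x y

/-- A group of order at most `8` and a noncentral element of order two without fixed vectors. -/
theorem small_of_invol [Finite G] [FiniteDimensional ℂ V] (hρ : Irred ρ) (hG : Nat.card G ≤ 8)
    (s g : G) (hs : s * s = 1) (hsg : s * g ≠ g * s)
    (hfix : ∀ v : V, ρ s v = v → v = 0) (v v' : V) (hv : v ≠ 0) : ∃ κ : ℂ, v' = κ • v := by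
  have h1 : ∀ w, ρ s w = -w := by
    intro w
    have h2 := hfix (w + ρ s w) (by rw [map_add, ← mul_app, hs, map_one]; exact add_comm _ _)
    exact (neg_eq_of_add_eq_zero_right h2).symm
  -- the kernel is not trivial
  set R := MonoidHom.ker ρ with hR
  have hz : s * g * s⁻¹ * g⁻¹ ∈ R := by
    rw [hR, MonoidHom.mem_ker]
    ext w
    have hs' : ρ s⁻¹ = ρ s := by rw [inv_eq_of_mul_eq_one_right hs]
    simp only [map_mul, hs', Module.End.mul_apply, h1, map_neg, neg_neg, Module.End.one_apply]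
    rw [← mul_app, mul_inv_cancel, map_one]
    rfl
  have hz1 : s * g * s⁻¹ * g⁻¹ ≠ 1 := by
    intro h
    apply hsg
    have := mul_inv_eq_one.1 h
    exact mul_inv_eq_iff_eq_mul.1 this
  have hcardR : 2 ≤ Nat.card R := by
    haveI : Nontrivial R := ⟨⟨⟨_, hz⟩, 1, fun h => hz1 (congrArg Subtype.val h)⟩⟩
    exact Finite.one_lt_card
  have hq : Nat.card (G ⧸ R) ≤ 4 := by
    have h3 := Subgroup.card_eq_card_quotient_mul_card_subgroup R
    by_contra hcon
    push Not at hcon
    have : 5 * 2 ≤ Nat.card (G ⧸ R) * Nat.card R := Nat.mul_le_mul hcon hcardR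
    omega
  apply prop_of_comm hρ _ v v' hv
  intro x y w
  have h4 := comm_of_card_le hq (x : G ⧸ R) (y : G ⧸ R)
  have h5 : ((x * y : G) : G ⧸ R) = ((y * x : G) : G ⧸ R) := h4
  rw [QuotientGroup.eq] at h5
  have h6 : ρ ((x * y)⁻¹ * (y * x)) = 1 := h5
  have h7 : ρ (y * x) = ρ (x * y) := by
    have h8 : y * x = (x * y) * ((x * y)⁻¹ * (y * x)) := by group
    rw [h8, map_mul, h6, mul_one]
  rw [← mul_app, ← mul_app, h7]

end general

end Pool.Agent.V5helper65.LG
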