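import Pool.Agent.V5helper65.LG.Alt

/-!
# Splitting fields of quartic polynomials
-/

set_option autoImplicit false

namespace Pool.Agent.V5helper65.LG

open Module Finset NumberField Polynomial
open Pool.Agent.H637R2.Leo (Leopoldt)

/-- the quartic polynomial `X⁴ - 2 s₁ X² - 8 w X + (s₁² - 4 s₂)` -/
noncomputable def quartic (s₁ s₂ w : ℚ) : ℚ[X] :=
  Polynomial.X ^ 4 - C (2 * s₁) * Polynomial.X ^ 2 - C (8 * w) * Polynomial.X +
    C (s₁ ^ 2 - 4 * s₂)

theorem quartic_natDegree (s₁ s₂ w : ℚ) : (quartic s₁ s₂ w).natDegree = 4 := by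
  unfold quartic
  compute_degree!

theorem quartic_monic (s₁ s₂ w : ℚ) : (quartic s₁ s₂ w).Monic := by
  unfold quartic
  monicity!

section embed

variable {F : Type} [Field F] [NumberField F]

/-- the Galois group of a quartic polynomial embeds into the symmetric group -/
theorem exists_embed (q : ℚ[X]) (hq : q.natDegree = 4) [hF : q.IsSplittingField ℚ F] :
    ∃ φ : (F ≃ₐ[ℚ] F) →* P4, Function.Injective φ := by
  classical
  have h1 : (q.map (algebraMap ℚ F)).Splits := hF.splits' 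
  haveI : Fact ((q.map (algebraMap ℚ F)).Splits) := ⟨h1⟩
  have h2 : Function.Injective (Gal.galActionHom q F) := Gal.galActionHom_injective q F
  have h3 : Fintype.card (q.rootSet F) ≤ Fintype.card (Fin 4) := by
    rw [Fintype.card_fin, ← hq, ← Nat.card_eq_fintype_card]
    exact ncard_rootSet_le q F
  obtain ⟨ι⟩ := Function.Embedding.nonempty_of_card_le h3
  refine ⟨((Equiv.Perm.viaEmbeddingHom ι).comp (Gal.galActionHom q F)).comp
    (AlgEquiv.autCongr (IsSplittingField.algEquiv F q)).toMonoidHom, ?_⟩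
  exact ((Equiv.Perm.viaEmbeddingHom_injective ι).comp h2).comp
    (AlgEquiv.autCongr (IsSplittingField.algEquiv F q)).injective

/-- the four roots -/
theorem exists_roots (s₁ s₂ w : ℚ) [hF : (quartic s₁ s₂ w).IsSplittingField ℚ F] :
    ∃ x₁ x₂ x₃ x₄ : F, x₁ + x₂ + x₃ + x₄ = 0 ∧
      x₁ * x₂ + x₁ * x₃ + x₁ * x₄ + x₂ * x₃ + x₂ * x₄ + x₃ * x₄ = -2 * (s₁ : F) ∧
      x₁ * x₂ * x₃ + x₁ * x₂ * x₄ + x₁ * x₃ * x₄ + x₂ * x₃ * x₄ = 8 * (w : F) ∧
      x₁ * x₂ * x₃ * x₄ = (s₁ : F) ^ 2 - 4 * (s₂ : F) := by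
  classical
  set q := quartic s₁ s₂ w with hq
  have h1 : (q.map (algebraMap ℚ F)).Splits := hF.splits'
  have hmon : (q.map (algebraMap ℚ F)).Monic := (quartic_monic s₁ s₂ w).map _
  have hdeg : (q.map (algebraMap ℚ F)).natDegree = 4 := by
    rw [natDegree_map, hq, quartic_natDegree]
  have hcard : Multiset.card (q.map (algebraMap ℚ F)).roots = 4 := by
    rw [← hdeg]; exact h1.natDegree_eq_card_roots.symm
  obtain ⟨x₁, x₂, x₃, x₄, hR⟩ := Multiset.card_eq_four.1 hcard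
  have hprod : q.map (algebraMap ℚ F) = ((Polynomial.X : F[X]) - C x₁) * ((Polynomial.X - C x₂) *
      ((Polynomial.X - C x₃) * (Polynomial.X - C x₄))) := by
    rw [h1.eq_prod_roots_of_monic hmon, hR]
    simp
  have hev : ∀ y : F, y ^ 4 - 2 * (s₁ : F) * y ^ 2 - 8 * (w : F) * y + ((s₁ : F) ^ 2 - 4 * (s₂ : F)) =
      (y - x₁) * ((y - x₂) * ((y - x₃) * (y - x₄))) := by
    intro y
    have h2 := congrArg (eval y) hprod
    rw [hq] at h2
    unfold quartic at h2
    simpa using h2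
  have h0 := hev 0
  have h1' := hev 1
  have h2' := hev (-1)
  have h3' := hev 2
  refine ⟨x₁, x₂, x₃, x₄, ?_, ?_, ?_, ?_⟩
  · linear_combination (1 / 6 : F) * h3' - (1 / 2 : F) * h1' - (1 / 6 : F) * h2' + (1 / 2 : F) * h0
  · linear_combination h0 - (1 / 2 : F) * h1' - (1 / 2 : F) * h2'
  · linear_combination h1' - (1 / 3 : F) * h2' - (1 / 6 : F) * h3' - (1 / 2 : F) * h0
  · linear_combination -h0

/-- the resolvent cubic -/
theorem exists_resolvent (s₁ s₂ w : ℚ) [hF : (quartic s₁ s₂ w).IsSplittingField ℚ F] :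
    ∃ x : F, (x ^ 2) ^ 3 - (s₁ : F) * (x ^ 2) ^ 2 + (s₂ : F) * x ^ 2 - (w : F) ^ 2 = 0 := by
  obtain ⟨x₁, x₂, x₃, x₄, h1, h2, h3, h4⟩ := exists_roots (F := F) s₁ s₂ w
  refine ⟨(x₁ + x₂) / 2, ?_⟩
  have e1 : (s₁ : F) = ((x₁ + x₂) ^ 2 - x₁ * x₂ - x₃ * x₄) / 2 := by
    linear_combination (1 / 2 : F) * h2 - (1 / 2 : F) * (x₁ + x₂) * h1
  have e3 : (w : F) = (x₁ + x₂) * (x₃ * x₄ - x₁ * x₂) / 8 := by
    linear_combination (-1 / 8 : F) * h3 + (1 / 8 : F) * x₁ * x₂ * h1
  have e2 : (s₂ : F) = ((s₁ : F) ^ 2 - x₁ * x₂ * x₃ * x₄) / 4 := by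
    linear_combination (1 / 4 : F) * h4
  rw [e2, e1, e3]
  ring

end embed

section field

variable {K F : Type} [Field K] [NumberField K] [Field F] [NumberField F]

/-- embeddings of a cubic field -/
theorem exists_hom_cubic (hK : finrank ℚ K = 3) (α : K) (hα : ∀ r : ℚ, α ≠ (r : K)) (u : F)
    (s₁ s₂ s₃ : ℚ) (h : α ^ 3 - (s₁ : K) * α ^ 2 + (s₂ : K) * α - (s₃ : K) = 0)
    (hu : u ^ 3 - (s₁ : F) * u ^ 2 + (s₂ : F) * u - (s₃ : F) = 0) :
    ∃ j : K →+* F, j α = u := by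
  have hint : IsIntegral ℚ α := IsAlgebraic.isIntegral (Algebra.IsAlgebraic.isAlgebraic α)
  set P : ℚ[X] := Polynomial.X ^ 3 - C s₁ * Polynomial.X ^ 2 + C s₂ * Polynomial.X - C s₃ with hP
  have hPdeg : P.natDegree = 3 := by rw [hP]; compute_degree!
  have hPmon : P.Monic := by rw [hP]; monicity!
  have hPα : aeval α P = 0 := by
    rw [hP]
    simpa using h
  have hPu : aeval u P = 0 := by
    rw [hP]
    simpa using hu
  have hdvd : minpoly ℚ α ∣ P := minpoly.dvd ℚ α hPα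
  -- the degree of `α`
  have hdeg3 : finrank ℚ (IntermediateField.adjoin ℚ {α}) = 3 := by
    have h1 : finrank ℚ (IntermediateField.adjoin ℚ {α}) ∣ 3 := by
      rw [← hK, ← finrank_mul_finrank ℚ (IntermediateField.adjoin ℚ {α}) K]
      exact Dvd.intro _ rfl
    rcases (Nat.dvd_prime Nat.prime_three).1 h1 with h2 | h2
    · exfalso
      rw [IntermediateField.finrank_adjoin_simple_eq_one_iff] at h2
      obtain ⟨r, hr⟩ := IntermediateField.mem_bot.1 h2
      exact hα r (by rw [← hr]; simp)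
    · exact h2
  have htop : IntermediateField.adjoin ℚ {α} = ⊤ := by
    apply IntermediateField.eq_of_le_of_finrank_eq le_top
    rw [hdeg3, IntermediateField.finrank_top', hK]
  have hmin : minpoly ℚ α = P := by
    symm
    apply Polynomial.eq_of_monic_of_dvd_of_natDegree_le (minpoly.monic hint) hPmon hdvd
    rw [hPdeg, ← hdeg3, IntermediateField.adjoin.finrank hint]
  have hmem : u ∈ (minpoly ℚ α).aroots F := by
    rw [mem_aroots]
    exact ⟨minpoly.ne_zero hint, by rw [hmin]; exact hPu⟩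
  set f := (IntermediateField.algHomAdjoinIntegralEquiv ℚ (K := F) hint).symm ⟨u, hmem⟩ with hf
  have hfα : f (IntermediateField.AdjoinSimple.gen ℚ α) = u :=
    IntermediateField.algHomAdjoinIntegralEquiv_symm_apply_gen ℚ hint ⟨u, hmem⟩
  let e : K →+* IntermediateField.adjoin ℚ {α} :=
    { toFun := fun x => ⟨x, by rw [htop]; trivial⟩
      map_one' := rfl
      map_mul' := fun _ _ => rfl
      map_zero' := rfl
      map_add' := fun _ _ => rfl }
  exact ⟨f.toRingHom.comp e, hfα⟩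

end field

end Pool.Agent.V5helper65.LG
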