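import Pool.Agent.V5helper65.LG.Rep

/-!
# Representations of the symmetric group of degree four
-/

set_option autoImplicit false

namespace Pool.Agent.V5helper65.LG

open Module Finset

/-- the symmetric group -/
abbrev P4 := Equiv.Perm (Fin 4)

/-- `(0 1) (2 3)` -/
def pa : P4 := Equiv.swap 0 1 * Equiv.swap 2 3
/-- `(0 2) (1 3)` -/
def pb : P4 := Equiv.swap 0 2 * Equiv.swap 1 3
/-- `(0 1)` -/
def ps : P4 := Equiv.swap 0 1
/-- `(0 1 2)` -/
def pt : P4 := Equiv.swap 0 1 * Equiv.swap 1 2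

theorem paa : pa * pa = 1 := by decide
theorem pbb : pb * pb = 1 := by decide
theorem pba : pb * pa = pa * pb := by decide
theorem pss : ps * ps = 1 := by decide
theorem psa : ps * pa = pa * ps := by decide
theorem pas : pa * ps = ps * pa := by decide
theorem pbs : pb * ps = ps * (pa * pb) := by decide
theorem pat : pa * pt = pt * pb := by decide
theorem pbt : pb * pt = pt * (pa * pb) := by decide
theorem pst : ps * pt = pt * (pt * ps) := by decide
theorem pttt : pt * pt * pt = 1 := by decide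
theorem pgen : ∀ g : P4, ∃ (i j l : Fin 2) (k : Fin 3), g = pa ^ (i : ℕ) * (pb ^ (j : ℕ) *
    (pt ^ (k : ℕ) * ps ^ (l : ℕ))) := by decide

variable {V : Type} [AddCommGroup V] [Module ℂ V] {ρ : Representation ℂ P4 V}

theorem stable_all (U : Submodule ℂ V) (ha : ∀ u ∈ U, ρ pa u ∈ U) (hb : ∀ u ∈ U, ρ pb u ∈ U)
    (hs : ∀ u ∈ U, ρ ps u ∈ U) (ht : ∀ u ∈ U, ρ pt u ∈ U) (g : P4) (u : V) (hu : u ∈ U) :
    ρ g u ∈ U := by
  have hpow : ∀ x : P4, (∀ u ∈ U, ρ x u ∈ U) → ∀ n : ℕ, ∀ u ∈ U, ρ (x ^ n) u ∈ U := by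
    intro x hx n
    induction n with
    | zero => intro u hu; rw [pow_zero, map_one]; exact hu
    | succ n ih => intro u hu; rw [pow_succ, mul_app]; exact ih _ (hx u hu)
  obtain ⟨i, j, l, k, rfl⟩ := pgen g
  rw [mul_app, mul_app, mul_app]
  exact hpow _ ha _ _ (hpow _ hb _ _ (hpow _ ht _ _ (hpow _ hs _ _ hu)))

/-- the structure of the irreducible representations -/
theorem s4_struct (hρ : Irred ρ) : (∀ v, ρ pa v = v ∧ ρ pb v = v) ∨
    ∃ (y : V) (μ : ℂ), (μ = 1 ∨ μ = -1) ∧ y ≠ 0 ∧ ρ pa y = y ∧ ρ pb y = -y ∧ ρ ps y = μ • y ∧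
      ∀ w, ∃ α β γ : ℂ, w = α • y + β • ρ pt y + γ • ρ pt (ρ pt y) := by
  have haa : ∀ v, ρ pa (ρ pa v) = v := fun v => by rw [← mul_app, paa, map_one]; rfl
  have hbb : ∀ v, ρ pb (ρ pb v) = v := fun v => by rw [← mul_app, pbb, map_one]; rfl
  have hba : ∀ v, ρ pb (ρ pa v) = ρ pa (ρ pb v) := fun v => by rw [← mul_app, pba, mul_app]
  have hss : ∀ v, ρ ps (ρ ps v) = v := fun v => by rw [← mul_app, pss, map_one]; rfl
  have has : ∀ v, ρ pa (ρ ps v) = ρ ps (ρ pa v) := fun v => by rw [← mul_app, pas, mul_app]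
  have hbs : ∀ v, ρ pb (ρ ps v) = ρ ps (ρ pa (ρ pb v)) := fun v => by
    rw [← mul_app, pbs, mul_app, mul_app]
  have hat : ∀ v, ρ pa (ρ pt v) = ρ pt (ρ pb v) := fun v => by rw [← mul_app, pat, mul_app]
  have hbt : ∀ v, ρ pb (ρ pt v) = ρ pt (ρ pa (ρ pb v)) := fun v => by
    rw [← mul_app, pbt, mul_app, mul_app]
  have hst : ∀ v, ρ ps (ρ pt v) = ρ pt (ρ pt (ρ ps v)) := fun v => by
    rw [← mul_app, pst, mul_app, mul_app]
  have httt : ∀ v, ρ pt (ρ pt (ρ pt v)) = v := fun v => by
    rw [← mul_app, ← mul_app, pttt, map_one]; rfl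
  -- the vectors fixed by the four group
  let U : Submodule ℂ V :=
    { carrier := {v | ρ pa v = v ∧ ρ pb v = v}
      add_mem' := by
        rintro v w ⟨h1, h2⟩ ⟨h3, h4⟩
        exact ⟨by rw [map_add, h1, h3], by rw [map_add, h2, h4]⟩
      zero_mem' := ⟨map_zero _, map_zero _⟩
      smul_mem' := by
        rintro z v ⟨h1, h2⟩
        exact ⟨by rw [map_smul, h1], by rw [map_smul, h2]⟩ }
  have hU : ∀ g, ∀ u ∈ U, ρ g u ∈ U := by
    intro g u hu
    refine stable_all U ?_ ?_ ?_ ?_ g u hu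
    · rintro u ⟨h1, h2⟩; rw [h1]; exact ⟨h1, h2⟩
    · rintro u ⟨h1, h2⟩; rw [h2]; exact ⟨h1, h2⟩
    · rintro u ⟨h1, h2⟩
      exact ⟨by rw [has, h1], by rw [hbs, h2, h1]⟩
    · rintro u ⟨h1, h2⟩
      exact ⟨by rw [hat, h2], by rw [hbt, h2, h1]⟩
  rcases hρ.2 U hU with h0 | h0
  swap
  · left
    intro v
    have : v ∈ U := by rw [h0]; trivial
    exact this
  right
  have hfix0 : ∀ v, ρ pa v = v → ρ pb v = v → v = 0 := by
    intro v h1 h2
    have : v ∈ U := ⟨h1, h2⟩
    rw [h0, Submodule.mem_bot] at this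
    exact this
  have hsum : ∀ v, v + ρ pa v + ρ pb v + ρ pa (ρ pb v) = 0 := by
    intro v
    apply hfix0
    · simp only [map_add, haa]; abel
    · simp only [map_add, hba, hbb]; abel
  haveI := hρ.1
  -- a vector in the first eigenspace
  obtain ⟨v₀, hv₀⟩ : ∃ v, v + ρ pa v - ρ pb v - ρ pa (ρ pb v) ≠ 0 := by
    by_contra hcon
    push Not at hcon
    obtain ⟨v, hv⟩ := exists_ne (0 : V)
    apply hv
    have e1 := hcon v
    have e2 : v + ρ pb v - ρ pa (ρ pb v) - ρ pa v = 0 := by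
      have h1 := congrArg (fun w => ρ pt (ρ pt w)) (hcon (ρ pt v))
      simp only [map_add, map_sub, map_zero, hat, hbt, httt] at h1
      simp only [hba, hbb] at h1
      exact h1
    have e3 : v + ρ pa (ρ pb v) - ρ pa v - ρ pb v = 0 := by
      have h1 := congrArg (fun w => ρ pt w) (hcon (ρ pt (ρ pt v)))
      simp only [map_add, map_sub, map_zero, hat, hbt, httt] at h1
      simp only [hba, haa, hbb] at h1
      exact h1
    have e4 := hsum v
    have h5 : (4 : ℂ) • v = (v + ρ pa v - ρ pb v - ρ pa (ρ pb v)) +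
        (v + ρ pb v - ρ pa (ρ pb v) - ρ pa v) + (v + ρ pa (ρ pb v) - ρ pa v - ρ pb v) +
        (v + ρ pa v + ρ pb v + ρ pa (ρ pb v)) := by
      module
    rw [e1, e2, e3, e4] at h5
    simp only [add_zero] at h5
    exact (smul_eq_zero.1 h5).resolve_left (by norm_num)
  set y₀ := v₀ + ρ pa v₀ - ρ pb v₀ - ρ pa (ρ pb v₀) with hy₀
  have hay₀ : ρ pa y₀ = y₀ := by
    rw [hy₀]; simp only [map_add, map_sub, haa]; abel
  have hby₀ : ρ pb y₀ = -y₀ := by
    rw [hy₀]; simp only [map_add, map_sub, hba, hbb]; abel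
  obtain ⟨y, μ, hμ, hy, hay, hby, hsy⟩ : ∃ (y : V) (μ : ℂ), (μ = 1 ∨ μ = -1) ∧ y ≠ 0 ∧
      ρ pa y = y ∧ ρ pb y = -y ∧ ρ ps y = μ • y := by
    by_cases h1 : y₀ + ρ ps y₀ = 0
    · refine ⟨y₀, -1, Or.inr rfl, hv₀, hay₀, hby₀, ?_⟩
      rw [neg_smul, one_smul]
      exact (neg_eq_of_add_eq_zero_right h1).symm
    · refine ⟨y₀ + ρ ps y₀, 1, Or.inl rfl, h1, ?_, ?_, ?_⟩
      · rw [map_add, has, hay₀]
      · rw [map_add, hbs, hby₀, map_neg, hay₀, map_neg]; abel
      · rw [map_add, hss, one_smul]; exact add_comm _ _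
  refine ⟨y, μ, hμ, hy, hay, hby, hsy, ?_⟩
  have hty : ρ pa (ρ pt y) = -ρ pt y := by rw [hat, hby, map_neg]
  have hbty : ρ pb (ρ pt y) = -ρ pt y := by rw [hbt, hby, map_neg, hay, map_neg]
  have htty : ρ pa (ρ pt (ρ pt y)) = -ρ pt (ρ pt y) := by rw [hat, hbty, map_neg]
  have hbtty : ρ pb (ρ pt (ρ pt y)) = ρ pt (ρ pt y) := by
    rw [hbt, hbty, map_neg, hty, neg_neg]
  have hsty : ρ ps (ρ pt y) = μ • ρ pt (ρ pt y) := by rw [hst, hsy, map_smul, map_smul]
  have hstty : ρ ps (ρ pt (ρ pt y)) = μ • ρ pt y := by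
    rw [hst, hst, hsy, map_smul, map_smul, map_smul, map_smul, httt]
  let U' : Submodule ℂ V := Submodule.span ℂ {y, ρ pt y, ρ pt (ρ pt y)}
  have hmem : ∀ w, w ∈ U' ↔ ∃ α β γ : ℂ, w = α • y + β • ρ pt y + γ • ρ pt (ρ pt y) := by
    intro w
    constructor
    · intro hw
      obtain ⟨α, z, hz, rfl⟩ := Submodule.mem_span_insert.1 hw
      obtain ⟨β, z', hz', rfl⟩ := Submodule.mem_span_insert.1 hz
      obtain ⟨γ, rfl⟩ := Submodule.mem_span_singleton.1 hz'
      exact ⟨α, β, γ, by abel⟩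
    · rintro ⟨α, β, γ, rfl⟩
      refine U'.add_mem (U'.add_mem ?_ ?_) ?_
      · exact U'.smul_mem _ (Submodule.subset_span (by simp))
      · exact U'.smul_mem _ (Submodule.subset_span (by simp))
      · exact U'.smul_mem _ (Submodule.subset_span (by simp))
  have hU' : ∀ g, ∀ u ∈ U', ρ g u ∈ U' := by
    intro g u hu
    refine stable_all U' ?_ ?_ ?_ ?_ g u hu
    · intro u hu
      obtain ⟨α, β, γ, rfl⟩ := (hmem _).1 hu
      rw [hmem]
      refine ⟨α, -β, -γ, ?_⟩
      simp only [map_add, map_smul, hay, hty, htty, smul_neg, neg_smul]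
    · intro u hu
      obtain ⟨α, β, γ, rfl⟩ := (hmem _).1 hu
      rw [hmem]
      refine ⟨-α, -β, γ, ?_⟩
      simp only [map_add, map_smul, hby, hbty, hbtty, smul_neg, neg_smul]
    · intro u hu
      obtain ⟨α, β, γ, rfl⟩ := (hmem _).1 hu
      rw [hmem]
      refine ⟨α * μ, γ * μ, β * μ, ?_⟩
      simp only [map_add, map_smul, hsy, hsty, hstty, smul_smul]
      abel
    · intro u hu
      obtain ⟨α, β, γ, rfl⟩ := (hmem _).1 hu
      rw [hmem]
      refine ⟨γ, α, β, ?_⟩
      simp only [map_add, map_smul, httt]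
      abel
  rcases hρ.2 U' hU' with h1 | h1
  · exfalso
    apply hy
    have : y ∈ U' := Submodule.subset_span (by simp)
    rw [h1, Submodule.mem_bot] at this
    exact this
  · intro w
    rw [← hmem, h1]
    trivial

/-- complex conjugation a product of two transpositions -/
theorem s4_double (hρ : Irred ρ)
    (hfix : ∀ v, ρ pa v = v → ρ pb v = v → ρ ps v = v → v = 0) : Small ρ pa := by
  intro v v' hv hv' hv0
  have hss : ∀ v, ρ ps (ρ ps v) = v := fun v => by rw [← mul_app, pss, map_one]; rfl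
  have hat : ∀ v, ρ pa (ρ pt v) = ρ pt (ρ pb v) := fun v => by rw [← mul_app, pat, mul_app]
  have hbt : ∀ v, ρ pb (ρ pt v) = ρ pt (ρ pa (ρ pb v)) := fun v => by
    rw [← mul_app, pbt, mul_app, mul_app]
  have hst : ∀ v, ρ ps (ρ pt v) = ρ pt (ρ pt (ρ ps v)) := fun v => by
    rw [← mul_app, pst, mul_app, mul_app]
  have httt : ∀ v, ρ pt (ρ pt (ρ pt v)) = v := fun v => by
    rw [← mul_app, ← mul_app, pttt, map_one]; rfl
  rcases s4_struct hρ with h | ⟨y, μ, hμ, hy, hay, hby, hsy, hspan⟩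
  · have hs1 : ∀ w, ρ ps w = -w := by
      intro w
      have h1 := hfix (w + ρ ps w) (h _).1 (h _).2 (by rw [map_add, hss]; exact add_comm _ _)
      exact (neg_eq_of_add_eq_zero_right h1).symm
    have ht1 : ∀ w, ρ pt w = w := by
      intro w
      have h1 := hst w
      rw [hs1, hs1, map_neg, map_neg, neg_inj] at h1
      -- ρ t w = ρ t (ρ t w)
      have h2 := congrArg (fun z => ρ pt (ρ pt z)) h1
      simp only [httt] at h2
      exact h2.symm
    refine prop_of_line hρ hv0 ?_ v v' hv0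
    intro g
    obtain ⟨i, j, l, k, rfl⟩ := pgen g
    have hk : ∀ (x : P4) (κ : ℂ), (∀ w, ρ x w = κ • w) → ∀ n : ℕ, ∀ w, ρ (x ^ n) w = κ ^ n • w := by
      intro x κ hx n
      induction n with
      | zero => intro w; rw [pow_zero, map_one, pow_zero, one_smul]; rfl
      | succ n ih => intro w; rw [pow_succ, mul_app, ih, hx, smul_smul, pow_succ]
    rw [mul_app, mul_app, mul_app, hk pa 1 (fun w => by rw [one_smul]; exact (h w).1),
      hk pb 1 (fun w => by rw [one_smul]; exact (h w).2), hk pt 1 (fun w => by rw [one_smul]; exact ht1 w),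
      hk ps (-1) (fun w => by rw [neg_smul, one_smul]; exact hs1 w)]
    simp only [one_pow, one_smul]
    exact ⟨_, rfl⟩
  · have hty : ρ pa (ρ pt y) = -ρ pt y := by rw [hat, hby, map_neg]
    have hbty : ρ pb (ρ pt y) = -ρ pt y := by rw [hbt, hby, map_neg, hay, map_neg]
    have htty : ρ pa (ρ pt (ρ pt y)) = -ρ pt (ρ pt y) := by rw [hat, hbty, map_neg]
    have key : ∀ w, ρ pa w = w → ∃ α : ℂ, w = α • y := by
      intro w hw
      obtain ⟨α, β, γ, rfl⟩ := hspan w
      refine ⟨α, ?_⟩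
      simp only [map_add, map_smul, hay, hty, htty, smul_neg] at hw
      have h1 : (2 : ℂ) • (β • ρ pt y + γ • ρ pt (ρ pt y)) = 0 := by
        have h2 := sub_eq_zero.2 hw
        have h3 : α • y + -(β • ρ pt y) + -(γ • ρ pt (ρ pt y)) -
            (α • y + β • ρ pt y + γ • ρ pt (ρ pt y)) =
            -((2 : ℂ) • (β • ρ pt y + γ • ρ pt (ρ pt y))) := by module
        rw [h3] at h2
        exact neg_eq_zero.1 h2
      have h4 := (smul_eq_zero.1 h1).resolve_left two_ne_zero
      rw [add_assoc, h4, add_zero]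
    obtain ⟨α, rfl⟩ := key v hv
    obtain ⟨β, rfl⟩ := key v' hv'
    have hα : α ≠ 0 := by
      rintro rfl
      exact hv0 (zero_smul _ _)
    exact ⟨β / α, by rw [smul_smul, div_mul_cancel₀ _ hα]⟩

/-- complex conjugation a transposition -/
theorem s4_swap (hρ : Irred ρ)
    (hfix : ∀ v, ρ ps v = v → ρ pt v = v → v = 0) : Small ρ ps := by
  intro v v' hv hv' hv0
  have hat : ∀ v, ρ pa (ρ pt v) = ρ pt (ρ pb v) := fun v => by rw [← mul_app, pat, mul_app]
  have hbt : ∀ v, ρ pb (ρ pt v) = ρ pt (ρ pa (ρ pb v)) := fun v => by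
    rw [← mul_app, pbt, mul_app, mul_app]
  have hst : ∀ v, ρ ps (ρ pt v) = ρ pt (ρ pt (ρ ps v)) := fun v => by
    rw [← mul_app, pst, mul_app, mul_app]
  have httt : ∀ v, ρ pt (ρ pt (ρ pt v)) = v := fun v => by
    rw [← mul_app, ← mul_app, pttt, map_one]; rfl
  rcases s4_struct hρ with h | ⟨y, μ, hμ, hy, hay, hby, hsy, hspan⟩
  · have hsum : v + ρ pt v + ρ pt (ρ pt v) = 0 := by
      apply hfix
      · simp only [map_add, hst, hv, httt]; abel
      · simp only [map_add, httt]; abel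
    have htt : ρ pt (ρ pt v) = -v - ρ pt v := by
      rw [← sub_eq_zero, ← hsum]; abel
    let U : Submodule ℂ V := Submodule.span ℂ {v, ρ pt v}
    have hmem : ∀ w, w ∈ U ↔ ∃ α β : ℂ, w = α • v + β • ρ pt v := by
      intro w
      constructor
      · intro hw
        obtain ⟨α, z, hz, rfl⟩ := Submodule.mem_span_insert.1 hw
        obtain ⟨β, rfl⟩ := Submodule.mem_span_singleton.1 hz
        exact ⟨α, β, rfl⟩
      · rintro ⟨α, β, rfl⟩
        refine U.add_mem ?_ ?_
        · exact U.smul_mem _ (Submodule.subset_span (by simp))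
        · exact U.smul_mem _ (Submodule.subset_span (by simp))
    have hU : ∀ g, ∀ u ∈ U, ρ g u ∈ U := by
      intro g u hu
      refine stable_all U ?_ ?_ ?_ ?_ g u hu
      · intro u hu; rw [(h u).1]; exact hu
      · intro u hu; rw [(h u).2]; exact hu
      · intro u hu
        obtain ⟨α, β, rfl⟩ := (hmem _).1 hu
        rw [hmem]
        refine ⟨α - β, -β, ?_⟩
        simp only [map_add, map_smul, hv, hst, htt]
        module
      · intro u hu
        obtain ⟨α, β, rfl⟩ := (hmem _).1 hu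
        rw [hmem]
        refine ⟨-β, α - β, ?_⟩
        simp only [map_add, map_smul, htt]
        module
    have hall : ∀ w, ∃ α β : ℂ, w = α • v + β • ρ pt v := by
      rcases hρ.2 U hU with h1 | h1
      · exfalso
        apply hv0
        have : v ∈ U := Submodule.subset_span (by simp)
        rw [h1, Submodule.mem_bot] at this
        exact this
      · intro w
        rw [← hmem, h1]
        trivial
    obtain ⟨α, β, rfl⟩ := hall v'
    refine ⟨α, ?_⟩
    have h1 : β • (v + (2 : ℂ) • ρ pt v) = 0 := by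
      simp only [map_add, map_smul, hv, hst, htt] at hv'
      have h2 := sub_eq_zero.2 hv'
      rw [← neg_eq_zero, ← h2]
      module
    rcases smul_eq_zero.1 h1 with h2 | h2
    · rw [h2, zero_smul, add_zero]
    · exfalso
      apply hv0
      -- v = -2 t v
      have h3 := congrArg (fun w => ρ pt w) h2
      simp only [map_add, map_smul, map_zero, htt] at h3
      -- t v + 2 (-v - t v) = 0
      have h4 : (3 : ℂ) • v = 0 := by
        have h5 : (3 : ℂ) • v = -((v + (2 : ℂ) • ρ pt v)) - (2 : ℂ) • (ρ pt v + (2 : ℂ) • (-v - ρ pt v)) := by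
          module
        rw [h5, h2, h3]; simp
      exact (smul_eq_zero.1 h4).resolve_left (by norm_num)
  · have hty : ρ pa (ρ pt y) = -ρ pt y := by rw [hat, hby, map_neg]
    have hbty : ρ pb (ρ pt y) = -ρ pt y := by rw [hbt, hby, map_neg, hay, map_neg]
    have htty : ρ pa (ρ pt (ρ pt y)) = -ρ pt (ρ pt y) := by rw [hat, hbty, map_neg]
    have hbtty : ρ pb (ρ pt (ρ pt y)) = ρ pt (ρ pt y) := by
      rw [hbt, hbty, map_neg, hty, neg_neg]
    have hsty : ρ ps (ρ pt y) = μ • ρ pt (ρ pt y) := by rw [hst, hsy, map_smul, map_smul]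
    have hstty : ρ ps (ρ pt (ρ pt y)) = μ • ρ pt y := by
      rw [hst, hst, hsy, map_smul, map_smul, map_smul, map_smul, httt]
    rcases hμ with rfl | rfl
    · exfalso
      apply hy
      have h1 := hfix (y + ρ pt y + ρ pt (ρ pt y))
        (by simp only [map_add, hsy, hsty, hstty, one_smul]; abel)
        (by simp only [map_add, httt]; abel)
      have h2 := congrArg (fun w => ρ pa w) h1
      simp only [map_add, map_zero, hay, hty, htty] at h2
      have h3 : (2 : ℂ) • y = (y + ρ pt y + ρ pt (ρ pt y)) + (y + -ρ pt y + -ρ pt (ρ pt y)) := by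
        module
      rw [h1, h2, add_zero] at h3
      exact (smul_eq_zero.1 h3).resolve_left two_ne_zero
    · have key : ∀ w, ρ ps w = w → ∃ β : ℂ, w = β • (ρ pt y - ρ pt (ρ pt y)) := by
        intro w hw
        obtain ⟨α, β, γ, rfl⟩ := hspan w
        simp only [map_add, map_smul, hsy, hsty, hstty] at hw
        have e1 : (2 * α) • y + (β + γ) • ρ pt y + (β + γ) • ρ pt (ρ pt y) = 0 := by
          have h2 := sub_eq_zero.2 hw
          rw [← neg_eq_zero, ← h2]
          module
        have e2 := congrArg (fun w => ρ pa w) e1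
        simp only [map_add, map_smul, map_zero, hay, hty, htty] at e2
        have e3 : (4 * α) • y = ((2 * α) • y + (β + γ) • ρ pt y + (β + γ) • ρ pt (ρ pt y)) +
            ((2 * α) • y + (β + γ) • -ρ pt y + (β + γ) • -ρ pt (ρ pt y)) := by module
        rw [e1, e2, add_zero] at e3
        have hα : α = 0 := by
          have := (smul_eq_zero.1 e3).resolve_right hy
          exact (mul_eq_zero.1 this).resolve_left (by norm_num)
        rw [hα, mul_zero, zero_smul, zero_add] at e1
        have e4 := congrArg (fun w => ρ pb w) e1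
        simp only [map_add, map_smul, map_zero, hbty, hbtty] at e4
        have e5 : (2 * (β + γ)) • ρ pt (ρ pt y) =
            ((β + γ) • ρ pt y + (β + γ) • ρ pt (ρ pt y)) +
            ((β + γ) • -ρ pt y + (β + γ) • ρ pt (ρ pt y)) := by module
        rw [e1, e4, add_zero] at e5
        have hne : ρ pt (ρ pt y) ≠ 0 := by
          intro h0
          apply hy
          have := congrArg (fun w => ρ pt w) h0
          simp only [httt, map_zero] at this
          exact this
        have hβγ : β + γ = 0 := by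
          have := (smul_eq_zero.1 e5).resolve_right hne
          exact (mul_eq_zero.1 this).resolve_left (by norm_num)
        refine ⟨β, ?_⟩
        rw [hα, eq_neg_of_add_eq_zero_right hβγ]
        module
      obtain ⟨α, rfl⟩ := key v hv
      obtain ⟨β, rfl⟩ := key v' hv'
      have hα : α ≠ 0 := by
        rintro rfl
        exact hv0 (zero_smul _ _)
      exact ⟨β / α, by rw [smul_smul, div_mul_cancel₀ _ hα]⟩

end Pool.Agent.V5helper65.LG
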